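import Pool.Agent.Y164.SZ.Geo

/-!
Representations modulo `ℓ`-th powers: algebra. The Kummer classes of the torsion points.
-/

set_option autoImplicit false
set_option linter.all false

open Polynomial IsDedekindDomain
open scoped Classical

namespace Pool.Agent.Y164.SZ

open Finset
open Pool.Agent.Y164.PS (el Fam el_mul el_ne)

section
variable {ℓ : ℕ} [hℓ : Fact ℓ.Prime]
variable {k K : Type} [Field k] [Fintype k] [DecidableEq k] [Field K] [Algebra k[X] K]
  [IsFractionRing k[X] K]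
variable {κ : Type} [Fintype κ] {R : κ → k[X]}

theorem ch_one (S : SYM0 ℓ k) : ch ℓ (1 : k) = 0 := by
  have h := S.ch_mul 1 1 one_ne_zero one_ne_zero
  rw [mul_one] at h
  exact left_eq_add.1 h

theorem isRep_el {r : k} (hr : r ≠ 0) (n : κ → ℕ) :
    IsRep ℓ R (algebraMap k[X] K (el R r n)) (ch ℓ r) (fun x => (n x : ZMod ℓ)) :=
  ⟨r, n, 1, hr, one_ne_zero, rfl, fun _ => rfl, by rw [one_pow, mul_one]⟩

theorem isRep_one (S : SYM0 ℓ k) : IsRep ℓ R (1 : K) 0 0 := by
  refine ⟨1, 0, 1, one_ne_zero, one_ne_zero, ch_one S, fun _ => by simp, ?_⟩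
  simp [el]

theorem IsRep.ne (hR : Fam R) {d : K} {c : ZMod ℓ} {u : κ → ZMod ℓ} (h : IsRep ℓ R d c u) :
    d ≠ 0 := by
  obtain ⟨r, n, y, hr, hy, -, -, rfl⟩ := h
  refine mul_ne_zero ?_ (pow_ne_zero _ hy)
  rw [Ne, IsFractionRing.to_map_eq_zero_iff]
  exact el_ne hR hr n

theorem IsRep.mul (S : SYM0 ℓ k) {d d' : K} {c c' : ZMod ℓ} {u u' : κ → ZMod ℓ}
    (h : IsRep ℓ R d c u) (h' : IsRep ℓ R d' c' u') :
    IsRep ℓ R (d * d') (c + c') (fun x => u x + u' x) := by
  obtain ⟨r, n, y, hr, hy, hc, hu, rfl⟩ := h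
  obtain ⟨r', n', y', hr', hy', hc', hu', rfl⟩ := h'
  refine ⟨r * r', n + n', y * y', mul_ne_zero hr hr', mul_ne_zero hy hy', ?_, fun x => ?_, ?_⟩
  · rw [S.ch_mul _ _ hr hr', hc, hc']
  · rw [Pi.add_apply, Nat.cast_add, hu, hu']
  · rw [← el_mul, map_mul]; ring

theorem IsRep.pow_mul' {d : K} {c : ZMod ℓ} {u : κ → ZMod ℓ} (h : IsRep ℓ R d c u) {z : K}
    (hz : z ≠ 0) : IsRep ℓ R (z ^ ℓ * d) c u := by
  obtain ⟨r, n, y, hr, hy, hc, hu, rfl⟩ := h
  exact ⟨r, n, z * y, hr, mul_ne_zero hz hy, hc, hu, by ring⟩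

theorem IsRep.congr {d : K} {c c' : ZMod ℓ} {u u' : κ → ZMod ℓ} (h : IsRep ℓ R d c u)
    (hc : c = c') (hu : ∀ x, u x = u' x) : IsRep ℓ R d c' u' := by
  have : u = u' := funext hu
  rw [← hc, ← this]
  exact h

theorem IsRep.pow (S : SYM0 ℓ k) {d : K} {c : ZMod ℓ} {u : κ → ZMod ℓ} (h : IsRep ℓ R d c u)
    (m : ℕ) : IsRep ℓ R (d ^ m) (m * c) (fun x => m * u x) := by
  induction m with
  | zero =>
    rw [pow_zero]
    exact (isRep_one S).congr (by simp) (fun x => by simp)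
  | succ m ih =>
    rw [pow_succ]
    exact (ih.mul S h).congr (by push_cast; ring) (fun x => by push_cast; ring)

theorem IsRep.inv (S : SYM0 ℓ k) (hR : Fam R) {d : K} {c : ZMod ℓ} {u : κ → ZMod ℓ}
    (h : IsRep ℓ R d c u) : IsRep ℓ R d⁻¹ (-c) (fun x => - u x) := by
  have hd := h.ne hR
  have h1 := (h.pow S (ℓ - 1)).pow_mul' (z := d⁻¹) (inv_ne_zero hd)
  have h0 : ℓ - 1 + 1 = ℓ := Nat.sub_add_cancel hℓ.out.one_lt.le
  have h2 : (d⁻¹) ^ ℓ * d ^ (ℓ - 1) = d⁻¹ := by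
    nth_rewrite 1 [← h0]
    rw [pow_succ, mul_right_comm, ← mul_pow, inv_mul_cancel₀ hd, one_pow, one_mul]
  rw [h2] at h1
  have h3 : ((ℓ - 1 : ℕ) : ZMod ℓ) = -1 := by
    rw [Nat.cast_sub hℓ.out.one_lt.le, Nat.cast_one, ZMod.natCast_self, zero_sub]
  refine h1.congr ?_ (fun x => ?_)
  · rw [h3, neg_one_mul]
  · rw [h3, neg_one_mul]

theorem IsRep.prod (S : SYM0 ℓ k) {α : Type} (s : Finset α) {f : α → K} {c : α → ZMod ℓ}
    {u : α → κ → ZMod ℓ} (h : ∀ a ∈ s, IsRep ℓ R (f a) (c a) (u a)) :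
    IsRep ℓ R (∏ a ∈ s, f a) (∑ a ∈ s, c a) (fun x => ∑ a ∈ s, u a x) := by
  induction s using Finset.induction_on with
  | empty =>
    rw [prod_empty]
    exact (isRep_one S).congr (by simp) (fun x => by simp)
  | insert a s ha ih =>
    rw [prod_insert ha]
    refine ((h a (mem_insert_self _ _)).mul S
      (ih fun b hb => h b (mem_insert_of_mem hb))).congr ?_ ?_
    · rw [sum_insert ha]
    · intro x
      rw [sum_insert ha]

end

section geo
variable {ℓ : ℕ} [hℓ : Fact ℓ.Prime]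
variable {k K : Type} [Field k] [Fintype k] [DecidableEq k] [Field K] [Algebra k[X] K]
  [IsFractionRing k[X] K]
variable {n : ℕ} {a : Fin n → k[X]} {N : ℕ} (H : Geo ℓ a N)
variable {ι : Type} [Fintype ι] {T : ι → k[X]}

/-- the family of all primes -/
abbrev RR (a : Fin n → k[X]) (T : ι → k[X]) : ι ⊕ Tau a → k[X] := Sum.elim T (QQ a)

theorem isRep_twist (S : SYM0 ℓ k) : IsRep ℓ (RR a T) (algebraMap k[X] K (∏ i, T i)) 0
    (Sum.elim (fun _ => 1) (fun _ => 0)) := by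
  have h := isRep_el (ℓ := ℓ) (K := K) (R := RR a T) (r := 1) one_ne_zero
    (Sum.elim (fun _ => 1) (fun _ => 0))
  have h1 : el (RR a T) 1 (Sum.elim (fun _ => 1) (fun _ => 0)) = ∏ i, T i := by
    rw [el, Fintype.prod_sum_type]
    simp
  rw [h1] at h
  refine h.congr (ch_one S) ?_
  rintro (x | x) <;> simp

include H in
theorem isRep_diff {i j : Fin n} (h : i ≠ j) :
    IsRep ℓ (RR a T) (algebraMap k[X] K (a i) - algebraMap k[X] K (a j)) (H.comb.c i j)
      (Sum.elim (fun _ => 0) (fun s => mu ℓ H.p H.q i j s)) := by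
  have hl : (a i - a j).leadingCoeff ≠ 0 := leadingCoeff_ne_zero.2 (H.ne h)
  have h0 := isRep_el (ℓ := ℓ) (K := K) (R := RR a T) hl
    (Sum.elim (fun _ => 0) (fun s => if QQ a s ∣ a i - a j then 1 else 0))
  have h1 : el (RR a T) (a i - a j).leadingCoeff
      (Sum.elim (fun _ => 0) (fun s => if QQ a s ∣ a i - a j then 1 else 0)) = a i - a j := by
    conv_rhs => rw [H.fac h]
    rw [el, el, Fintype.prod_sum_type]
    simp only [Sum.elim_inl, Sum.elim_inr, pow_zero, prod_const_one, one_mul]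
  rw [h1, map_sub] at h0
  refine h0.congr rfl ?_
  rintro (x | s)
  · simp
  · exact H.cast_exp h s


/-- sums with one special term -/
theorem sum_special (i : Fin n) (m : Fin n → ZMod ℓ) (f : Fin n → ZMod ℓ) :
    ∑ k, m k * (if k = i then - ∑ j ∈ univ.erase i, f j else f k) = ∑ j, (m j - m i) * f j := by
  rw [← add_sum_erase univ _ (mem_univ i), ← add_sum_erase univ (fun j => (m j - m i) * f j)
    (mem_univ i), if_pos rfl, sub_self, zero_mul, zero_add, mul_neg, mul_sum, ← sum_neg_distrib,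
    ← sum_add_distrib]
  refine sum_congr rfl fun j hj => ?_
  rw [if_neg (ne_of_mem_erase hj)]
  ring

include H in
theorem isRep_Tm (hR : Fam (RR a T)) (D0 : Y713.SE.Dat ℓ n K)
    (hδ : D0.δ = algebraMap k[X] K (∏ i, T i)) (he : ∀ i, D0.e i = algebraMap k[X] K (a i))
    (m : Fin n → ℕ) (i : Fin n) :
    IsRep ℓ (RR a T) (Tm D0 m i) (H.comb.ksf (fun j => (m j : ZMod ℓ)) i)
      (Sum.elim (fun _ => - (m i : ZMod ℓ))
        (fun s => - (tf ℓ (H.p s) (H.q s) i * ((m (H.p s) : ZMod ℓ) - m (H.q s))))) := by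
  have hdiff : ∀ j, j ≠ i → IsRep ℓ (RR a T) (D0.e i - D0.e j) (H.comb.c i j)
      (Sum.elim (fun _ => 0) (fun s => mu ℓ H.p H.q i j s)) := by
    intro j hj
    rw [he, he]
    exact isRep_diff H hj.symm
  have h1 : ∀ k ∈ (univ : Finset (Fin n)), IsRep ℓ (RR a T)
      ((if k = i then (D0.δ * ∏ j ∈ univ.erase i, (D0.e i - D0.e j))⁻¹ else D0.e i - D0.e k) ^ m k)
      ((m k : ZMod ℓ) * (if k = i then - ∑ j ∈ univ.erase i, H.comb.c i j else H.comb.c i k))
      (Sum.elim (fun _ => (m k : ZMod ℓ) * (if k = i then (-1 : ZMod ℓ) else 0))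
        (fun s => (m k : ZMod ℓ) * (if k = i then - ∑ j ∈ univ.erase i, mu ℓ H.p H.q i j s else
          mu ℓ H.p H.q i k s))) := by
    intro k _
    by_cases hk : k = i
    · simp only [if_pos hk]
      have h2 := (isRep_twist (ℓ := ℓ) (K := K) (a := a) (T := T) H.S).mul H.S
        (IsRep.prod H.S (univ.erase i) (fun j hj => hdiff j (ne_of_mem_erase hj)))
      rw [← hδ] at h2
      refine ((h2.inv H.S hR).pow H.S (m k)).congr ?_ ?_
      · rw [zero_add]
      · rintro (x | s)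
        · simp only [Sum.elim_inl, sum_const_zero, add_zero]
        · simp only [Sum.elim_inr, zero_add]
    · simp only [if_neg hk]
      refine ((hdiff k hk).pow H.S (m k)).congr rfl ?_
      rintro (x | s)
      · simp only [Sum.elim_inl]
      · simp only [Sum.elim_inr]
  refine (IsRep.prod H.S univ h1).congr ?_ ?_
  · rw [sum_special i (fun j => (m j : ZMod ℓ)) (fun j => H.comb.c i j)]
    rfl
  · rintro (x | s)
    · simp only [Sum.elim_inl]
      simp
    · simp only [Sum.elim_inr]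
      rw [sum_special i (fun j => (m j : ZMod ℓ)) (fun j => mu ℓ H.p H.q i j s)]
      refine Eq.trans ?_ ((H.hC ℓ n (Tau a) H.comb).1 (fun j => (m j : ZMod ℓ)) i s)
      refine sum_congr rfl fun j _ => ?_
      rw [mul_comm]
      rfl

end geo

end Pool.Agent.Y164.SZ
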