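import Pool.Agent.Y164.SZ.Form

/-!
The configurations which give the main term, for moments of arbitrary order.
-/

set_option autoImplicit false
set_option linter.all false

namespace Pool.Agent.Y164.SZ

open Finset

section alg
variable {ℓ : ℕ} {W : Type} [AddCommGroup W] [Module (ZMod ℓ) W]
variable {τ : Type} [Fintype τ] (D : FDat ℓ W τ)
variable {κ : Type} [Fintype κ]

/-- the quadratic form on labels -/
def Oq (X : κ → W × W) : ZMod ℓ := ∑ a, D.om (X a).1 (X a).2

/-- the polar form -/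
def Bq (X Y : κ → W × W) : ZMod ℓ := ∑ a, (D.om (X a).1 (Y a).2 + D.om (X a).2 (Y a).1)

/-- the polar form of the hyperbolic form -/
def Hb (u v : κ → ZMod ℓ × ZMod ℓ) : ZMod ℓ := ∑ a, ((u a).1 * (v a).2 + (u a).2 * (v a).1)

/-- the hyperbolic form -/
def Hq (u : κ → ZMod ℓ × ZMod ℓ) : ZMod ℓ := ∑ a, (u a).1 * (u a).2

/-- evaluation -/
def ev (t : W) (X : κ → W × W) : κ → ZMod ℓ × ZMod ℓ := fun a => (D.om (X a).1 t, D.om (X a).2 t)

/-- pure tensors -/
def tens (x : W) (u : κ → ZMod ℓ × ZMod ℓ) : κ → W × W := fun a => ((u a).1 • x, (u a).2 • x)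

theorem Oq_sub (X Y : κ → W × W) : Oq D (X - Y) = Oq D X + Oq D Y - Bq D X Y := by
  simp only [Oq, Bq, Pi.sub_apply, Prod.fst_sub, Prod.snd_sub, map_sub, LinearMap.sub_apply,
    ← sum_add_distrib, ← sum_sub_distrib]
  refine sum_congr rfl fun a _ => ?_
  rw [D.om_comm (Y a).1 (X a).2]
  ring

theorem Bq_add_left (X Y Z : κ → W × W) : Bq D (X + Y) Z = Bq D X Z + Bq D Y Z := by
  simp only [Bq, Pi.add_apply, Prod.fst_add, Prod.snd_add, map_add, LinearMap.add_apply,
    ← sum_add_distrib]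
  refine sum_congr rfl fun a _ => ?_
  ring

theorem Bq_comm (X Y : κ → W × W) : Bq D X Y = Bq D Y X := by
  simp only [Bq]
  refine sum_congr rfl fun a _ => ?_
  rw [D.om_comm (Y a).1, D.om_comm (Y a).2]
  ring

theorem Bq_smul_left (c : ZMod ℓ) (X Y : κ → W × W) : Bq D (c • X) Y = c * Bq D X Y := by
  simp only [Bq, Pi.smul_apply, Prod.smul_fst, Prod.smul_snd, map_smul, LinearMap.smul_apply,
    smul_eq_mul, mul_sum]
  refine sum_congr rfl fun a _ => ?_
  ring

theorem Bq_zero_left (X : κ → W × W) : Bq D 0 X = 0 := by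
  have h := Bq_smul_left D 0 0 X
  rwa [zero_smul, zero_mul] at h

theorem Bq_self (X : κ → W × W) : Bq D X X = 2 * Oq D X := by
  simp only [Bq, Oq, mul_sum]
  refine sum_congr rfl fun a _ => ?_
  rw [D.om_comm (X a).2]
  ring

/-- the polar form as a bilinear form -/
def BB : LinearMap.BilinForm (ZMod ℓ) (κ → W × W) :=
  LinearMap.mk₂ (ZMod ℓ) (Bq D) (Bq_add_left D) (Bq_smul_left D)
    (fun X Y Z => by rw [Bq_comm, Bq_add_left, Bq_comm D Y, Bq_comm D Z])
    (fun c X Y => by rw [Bq_comm, Bq_smul_left, Bq_comm]; rfl)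

theorem BB_apply (X Y : κ → W × W) : BB D X Y = Bq D X Y := rfl

theorem Bq_nd (X : κ → W × W) (h : ∀ Y, Bq D X Y = 0) : X = 0 := by
  classical
  funext a
  apply Prod.ext
  · apply D.nd
    intro y
    have h1 := h (Pi.single a (0, y))
    rw [Bq, sum_eq_single a] at h1
    · simpa using h1
    · intro b _ hb
      rw [Pi.single_eq_of_ne hb]
      simp
    · intro h
      exact absurd (mem_univ _) h
  · apply D.nd
    intro y
    have h1 := h (Pi.single a (y, 0))
    rw [Bq, sum_eq_single a] at h1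
    · simpa using h1
    · intro b _ hb
      rw [Pi.single_eq_of_ne hb]
      simp
    · intro h
      exact absurd (mem_univ _) h

theorem Hb_comm (u v : κ → ZMod ℓ × ZMod ℓ) : Hb u v = Hb v u :=
  sum_congr rfl fun a _ => by ring

theorem Hb_add_left (u u' v : κ → ZMod ℓ × ZMod ℓ) : Hb (u + u') v = Hb u v + Hb u' v := by
  simp only [Hb, Pi.add_apply, Prod.fst_add, Prod.snd_add, ← sum_add_distrib]
  exact sum_congr rfl fun a _ => by ring

theorem Hb_smul_left (c : ZMod ℓ) (u v : κ → ZMod ℓ × ZMod ℓ) : Hb (c • u) v = c * Hb u v := by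
  simp only [Hb, Pi.smul_apply, Prod.smul_fst, Prod.smul_snd, smul_eq_mul, mul_sum]
  exact sum_congr rfl fun a _ => by ring

theorem Hb_sub_left (u u' v : κ → ZMod ℓ × ZMod ℓ) : Hb (u - u') v = Hb u v - Hb u' v := by
  simp only [Hb, Pi.sub_apply, Prod.fst_sub, Prod.snd_sub, ← sum_sub_distrib]
  exact sum_congr rfl fun a _ => by ring

theorem Hb_self (u : κ → ZMod ℓ × ZMod ℓ) : Hb u u = 2 * Hq u := by
  simp only [Hb, Hq, mul_sum]
  exact sum_congr rfl fun a _ => by ring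

theorem Hq_add (u v : κ → ZMod ℓ × ZMod ℓ) : Hq (u + v) = Hq u + Hq v + Hb u v := by
  simp only [Hb, Hq, Pi.add_apply, Prod.fst_add, Prod.snd_add, ← sum_add_distrib]
  exact sum_congr rfl fun a _ => by ring

theorem ev_add (t : W) (X Y : κ → W × W) : ev D t (X + Y) = ev D t X + ev D t Y := by
  funext a
  simp [ev]

theorem ev_sub (t : W) (X Y : κ → W × W) : ev D t (X - Y) = ev D t X - ev D t Y := by
  funext a
  simp [ev]

theorem ev_add_t (t t' : W) (X : κ → W × W) : ev D (t + t') X = ev D t X + ev D t' X := by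
  funext a
  simp [ev]

theorem ev_smul_t (c : ZMod ℓ) (t : W) (X : κ → W × W) : ev D (c • t) X = c • ev D t X := by
  funext a
  simp [ev]

theorem ev_zero_t (X : κ → W × W) : ev D 0 X = 0 := by
  funext a
  simp [ev]

theorem ev_tens (t t' : W) (u : κ → ZMod ℓ × ZMod ℓ) : ev D t (tens t' u) = D.om t' t • u := by
  funext a
  apply Prod.ext
  · simp [ev, tens, mul_comm]
  · simp [ev, tens, mul_comm]

theorem Bq_tens (x : W) (u : κ → ZMod ℓ × ZMod ℓ) (Y : κ → W × W) :
    Bq D (tens x u) Y = Hb u (ev D x Y) := by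
  simp only [Bq, tens, Hb, ev, map_smul, LinearMap.smul_apply, smul_eq_mul]
  refine sum_congr rfl fun a _ => ?_
  rw [D.om_comm x, D.om_comm x]

/-- `tens x` as a linear map -/
def tensL (x : W) : (κ → ZMod ℓ × ZMod ℓ) →ₗ[ZMod ℓ] (κ → W × W) where
  toFun := tens x
  map_add' := fun u v => by funext a; simp [tens, add_smul]
  map_smul' := fun c u => by funext a; simp [tens, mul_smul]

theorem tensL_apply (x : W) (u : κ → ZMod ℓ × ZMod ℓ) : tensL x u = tens x u := rfl

end alg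

section cls
variable {ℓ : ℕ} [hp : Fact ℓ.Prime] {W : Type} [AddCommGroup W] [Module (ZMod ℓ) W] [Finite W]
variable {τ : Type} [Fintype τ] (D : FDat ℓ W τ)
variable {κ : Type} [Fintype κ]

theorem BB_nd : (BB (ℓ := ℓ) (W := W) (κ := κ) D).Nondegenerate := by
  constructor
  · intro X h
    exact Bq_nd D X h
  · intro X h
    exact Bq_nd D X fun Y => by rw [Bq_comm]; exact h Y

theorem om_nd : D.om.Nondegenerate := by
  constructor
  · intro X h
    exact D.nd X h
  · intro X h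
    exact D.nd X fun Y => by rw [D.om_comm]; exact h Y

theorem card_pow (A : Type) [AddCommGroup A] [Module (ZMod ℓ) A] [Finite A] :
    Nat.card A = ℓ ^ Module.finrank (ZMod ℓ) A := by
  rw [Module.natCard_eq_pow_finrank (K := ZMod ℓ), Nat.card_zmod]

/-- the size of a totally isotropic subspace -/
theorem iso_le (M : Submodule (ZMod ℓ) (κ → W × W)) (h : ∀ X ∈ M, ∀ Y ∈ M, Bq D X Y = 0) :
    Nat.card M ≤ Nat.card W ^ Fintype.card κ ∧ (Nat.card W ^ Fintype.card κ ≤ Nat.card M →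
      ∀ X, (∀ Y ∈ M, Bq D X Y = 0) → X ∈ M) := by
  have hle : M ≤ (BB D).orthogonal M := by
    intro X hX
    rw [LinearMap.BilinForm.mem_orthogonal_iff]
    intro Y hY
    exact h Y hY X hX
  have h1 := LinearMap.BilinForm.finrank_orthogonal (BB_nd (κ := κ) D) M
  have h2 : Module.finrank (ZMod ℓ) (κ → W × W) =
      Fintype.card κ * (Module.finrank (ZMod ℓ) W + Module.finrank (ZMod ℓ) W) := by
    rw [Module.finrank_pi_fintype]
    simp [Module.finrank_prod]
  have h3 := Submodule.finrank_mono hle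
  have h4 := Submodule.finrank_le M
  rw [card_pow (ℓ := ℓ) W, card_pow (ℓ := ℓ) M, ← pow_mul]
  have hl := hp.out.one_lt
  rw [mul_comm _ (Fintype.card κ)]
  rw [mul_add] at h2
  constructor
  · exact Nat.pow_le_pow_right (by omega) (by omega)
  · intro h5 X hX
    have h6 : Fintype.card κ * Module.finrank (ZMod ℓ) W ≤ Module.finrank (ZMod ℓ) M :=
      (Nat.pow_le_pow_iff_right hl).1 h5
    have h7 : M = (BB D).orthogonal M := Submodule.eq_of_le_of_finrank_le hle (by omega)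
    rw [h7, LinearMap.BilinForm.mem_orthogonal_iff]
    intro Y hY
    have := hX Y hY
    rw [Bq_comm] at this
    exact this

theorem two_ne (h2 : ℓ ≠ 2) : (2 : ZMod ℓ) ≠ 0 := by
  intro h
  have h1 : ((2 : ℕ) : ZMod ℓ) = 0 := by exact_mod_cast h
  rw [ZMod.natCast_eq_zero_iff] at h1
  exact h2 ((Nat.prime_dvd_prime_iff_eq hp.out Nat.prime_two).1 h1)

/-- large unlinked sets are cosets -/
theorem coset_of (h2 : ℓ ≠ 2) (S : Set (κ → W × W)) (hS : ∀ X ∈ S, ∀ Y ∈ S, Oq D (X - Y) = 0)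
    (hc : Nat.card W ^ Fintype.card κ ≤ Nat.card S) (X0 : κ → W × W) (hX0 : X0 ∈ S) :
    ∃ M : Submodule (ZMod ℓ) (κ → W × W), (∀ X ∈ M, ∀ Y ∈ M, Bq D X Y = 0) ∧
      (∀ X ∈ M, Oq D X = 0) ∧
      Nat.card W ^ Fintype.card κ ≤ Nat.card M ∧ ∀ X, X ∈ S ↔ X - X0 ∈ M := by
  set G : Set (κ → W × W) := (fun X => X - X0) '' S with hG
  set M := Submodule.span (ZMod ℓ) G with hM
  have hgB : ∀ X ∈ G, ∀ Y ∈ G, Bq D X Y = 0 := by
    rintro _ ⟨X, hX, rfl⟩ _ ⟨Y, hY, rfl⟩
    have h1 := Oq_sub D (X - X0) (Y - X0)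
    rw [sub_sub_sub_cancel_right, hS X hX Y hY, hS X hX X0 hX0, hS Y hY X0 hX0, add_zero,
      zero_sub] at h1
    exact neg_eq_zero.1 h1.symm
  have hB1 : ∀ X ∈ M, ∀ Y ∈ G, Bq D X Y = 0 := by
    intro X hX Y hY
    refine Submodule.span_induction (p := fun X _ => Bq D X Y = 0) ?_ ?_ ?_ ?_ hX
    · intro x hx
      exact hgB x hx Y hY
    · exact Bq_zero_left D Y
    · intro x y _ _ h1 h2
      rw [Bq_add_left, h1, h2, add_zero]
    · intro c x _ h1
      rw [Bq_smul_left, h1, mul_zero]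
  have hB : ∀ X ∈ M, ∀ Y ∈ M, Bq D X Y = 0 := by
    intro X hX Y hY
    refine Submodule.span_induction (p := fun Y _ => Bq D X Y = 0) ?_ ?_ ?_ ?_ hY
    · intro x hx
      exact hB1 X hX x hx
    · rw [Bq_comm, Bq_zero_left]
    · intro x y _ _ h1 h2
      rw [Bq_comm, Bq_add_left, Bq_comm D x, Bq_comm D y, h1, h2, add_zero]
    · intro c x _ h1
      rw [Bq_comm, Bq_smul_left, Bq_comm, h1, mul_zero]
  have hO : ∀ X ∈ M, Oq D X = 0 := by
    intro X hX
    have h1 := Bq_self D X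
    rw [hB X hX X hX] at h1
    exact (mul_eq_zero.1 h1.symm).resolve_left (two_ne h2)
  have hinj : Function.Injective (fun X : κ → W × W => X - X0) := fun _ _ h => sub_left_inj.1 h
  have h3 : Nat.card S = Nat.card G := (Nat.card_image_of_injective hinj S).symm
  have hGM : G ⊆ (M : Set (κ → W × W)) := Submodule.subset_span
  have h4 : Nat.card W ^ Fintype.card κ ≤ Nat.card G := h3 ▸ hc
  have h5 : Nat.card G ≤ Nat.card M := Nat.card_mono (Set.toFinite _) hGM
  have h6 : G = (M : Set (κ → W × W)) := by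
    apply Set.eq_of_subset_of_ncard_le hGM _ (Set.toFinite _)
    have e1 : (M : Set (κ → W × W)).ncard = Nat.card M := rfl
    have e2 : G.ncard = Nat.card G := rfl
    have e3 := (iso_le D M hB).1
    omega
  refine ⟨M, hB, hO, h4.trans h5, fun X => ?_⟩
  constructor
  · intro hX
    exact hGM ⟨X, hX, rfl⟩
  · intro hX
    have : X - X0 ∈ G := by rw [h6]; exact hX
    obtain ⟨Y, hY, h⟩ := this
    rwa [hinj h] at hY

/-- the conditions on the bad primes -/
structure Conn : Prop where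
  nd : ∀ u : W, u ≠ 0 → ∃ s, D.om u (D.t s) ≠ 0
  ne : ∀ s, D.om (D.t s) (D.t s) ≠ 0
  conn : ∀ P : τ → Prop, (∃ s, P s) → (∀ s s', P s → D.om (D.t s) (D.t s') ≠ 0 → P s') → ∀ s, P s
  nonempty : Nonempty τ

theorem span_t (hG : Conn D) : Submodule.span (ZMod ℓ) (Set.range D.t) = ⊤ := by
  have h1 := LinearMap.BilinForm.finrank_orthogonal (om_nd D)
    (Submodule.span (ZMod ℓ) (Set.range D.t))
  have h2 : D.om.orthogonal (Submodule.span (ZMod ℓ) (Set.range D.t)) = ⊥ := by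
    rw [eq_bot_iff]
    intro x hx
    rw [LinearMap.BilinForm.mem_orthogonal_iff] at hx
    rw [Submodule.mem_bot]
    by_contra hne
    obtain ⟨s, hs⟩ := hG.nd x hne
    apply hs
    rw [D.om_comm]
    exact hx _ (Submodule.subset_span ⟨s, rfl⟩)
  rw [h2, finrank_bot] at h1
  have h3 := Submodule.finrank_le (Submodule.span (ZMod ℓ) (Set.range D.t))
  exact Submodule.eq_top_of_finrank_eq (by omega)

/-- the direction of a maximal isotropic subspace -/
theorem dir_of (hG : Conn D) (M : Submodule (ZMod ℓ) (κ → W × W))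
    (hB : ∀ X ∈ M, ∀ Y ∈ M, Bq D X Y = 0)
    (hc : Nat.card W ^ Fintype.card κ ≤ Nat.card M)
    (hd : ∀ s, ∀ m ∈ M, ∀ m' ∈ M, Hb (ev D (D.t s) m) (ev D (D.t s) m') = 0) :
    ∃ Λ : Submodule (ZMod ℓ) (κ → ZMod ℓ × ZMod ℓ),
      (∀ u, (∀ v ∈ Λ, Hb u v = 0) → u ∈ Λ) ∧ (∀ u ∈ Λ, ∀ v ∈ Λ, Hb u v = 0) ∧
      (∀ x : W, ∀ u ∈ Λ, tens x u ∈ M) ∧ (∀ X ∈ M, ∀ s, ev D (D.t s) X ∈ Λ) ∧
      (∀ s, ∀ u ∈ Λ, ∃ X ∈ M, ev D (D.t s) X = u) := by
  have hperp := (iso_le D M hB).2 hc
  obtain ⟨Ls, hLs⟩ : ∃ Ls : τ → Submodule (ZMod ℓ) (κ → ZMod ℓ × ZMod ℓ),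
      Ls = fun s => M.comap (tensL (D.t s)) := ⟨_, rfl⟩
  have hmem : ∀ s u, u ∈ Ls s ↔ tens (D.t s) u ∈ M := by
    intro s u
    rw [hLs]
    exact Iff.rfl
  have ha : ∀ s u, u ∈ Ls s ↔ ∀ Y ∈ M, Hb u (ev D (D.t s) Y) = 0 := by
    intro s u
    rw [hmem]
    constructor
    · intro h Y hY
      rw [← Bq_tens]
      exact hB _ h Y hY
    · intro h
      apply hperp
      intro Y hY
      rw [Bq_tens]
      exact h Y hY
  have hb : ∀ s, ∀ Y ∈ M, ev D (D.t s) Y ∈ Ls s := by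
    intro s Y hY
    rw [ha]
    intro Z hZ
    exact hd s Y hY Z hZ
  have hcc : ∀ s s' u v, D.om (D.t s) (D.t s') ≠ 0 → u ∈ Ls s → v ∈ Ls s' →
      Hb u v = 0 := by
    intro s s' u v hne hu hv
    have h1 := (ha s u).1 hu _ ((hmem s' v).1 hv)
    rw [ev_tens, Hb_comm, Hb_smul_left, D.om_comm] at h1
    rw [Hb_comm]
    exact (mul_eq_zero.1 h1).resolve_left hne
  have hdd : ∀ s u, (∀ v ∈ Ls s, Hb u v = 0) → u ∈ Ls s := by
    intro s u h
    rw [ha]
    intro Y hY
    exact h _ (hb s Y hY)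
  have hee : ∀ s s', D.om (D.t s) (D.t s') ≠ 0 → Ls s = Ls s' := by
    intro s s' hne
    apply le_antisymm
    · intro u hu
      exact hdd s' u fun v hv => hcc s s' u v hne hu hv
    · intro u hu
      exact hdd s u fun v hv => hcc s' s u v (by rwa [D.om_comm]) hu hv
  obtain ⟨s0⟩ := hG.nonempty
  have hall : ∀ s, Ls s = Ls s0 :=
    hG.conn (fun s => Ls s = Ls s0) ⟨s0, rfl⟩ (fun s s' h hne => (hee s s' hne).symm.trans h)
  refine ⟨Ls s0, hdd s0, fun u hu v hv => hcc s0 s0 u v (hG.ne s0) hu hv, ?_, ?_, ?_⟩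
  · intro x u hu
    have hx : x ∈ Submodule.span (ZMod ℓ) (Set.range D.t) := by rw [span_t D hG]; trivial
    refine Submodule.span_induction (p := fun x _ => tens x u ∈ M) ?_ ?_ ?_ ?_ hx
    · rintro _ ⟨s, rfl⟩
      rw [← hmem, hall]
      exact hu
    · have : tens (0 : W) u = 0 := by funext a; simp [tens]
      rw [this]
      exact M.zero_mem
    · intro a b _ _ h1 h2
      have : tens (a + b) u = tens a u + tens b u := by funext c; simp [tens]
      rw [this]
      exact M.add_mem h1 h2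
    · intro c a _ h1
      have : tens (c • a) u = c • tens a u := by
        funext b
        simp only [tens, Pi.smul_apply, Prod.smul_mk]
        rw [smul_comm, smul_comm (u b).2]
      rw [this]
      exact M.smul_mem c h1
  · intro X hX s
    rw [← hall s]
    exact hb s X hX
  · intro s u hu
    rw [← hall s] at hu
    refine ⟨(D.om (D.t s) (D.t s))⁻¹ • tens (D.t s) u, M.smul_mem _ ((hmem s u).1 hu), ?_⟩
    have h1 : ev D (D.t s) ((D.om (D.t s) (D.t s))⁻¹ • tens (D.t s) u) =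
        (D.om (D.t s) (D.t s))⁻¹ • ev D (D.t s) (tens (D.t s) u) := by
      funext a
      simp [ev]
    rw [h1, ev_tens, smul_smul, inv_mul_cancel₀ (hG.ne s), one_smul]

/-- membership in terms of evaluations -/
theorem mem_of_ev (hG : Conn D) (M : Submodule (ZMod ℓ) (κ → W × W))
    (Λ : Submodule (ZMod ℓ) (κ → ZMod ℓ × ZMod ℓ)) (h1 : ∀ x : W, ∀ u ∈ Λ, tens x u ∈ M)
    (X : κ → W × W) (hX : ∀ s, ev D (D.t s) X ∈ Λ) : X ∈ M := by
  have hall : ∀ x : W, ev D x X ∈ Λ := by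
    intro x
    have hx : x ∈ Submodule.span (ZMod ℓ) (Set.range D.t) := by rw [span_t D hG]; trivial
    refine Submodule.span_induction (p := fun x _ => ev D x X ∈ Λ) ?_ ?_ ?_ ?_ hx
    · rintro _ ⟨s, rfl⟩
      exact hX s
    · rw [ev_zero_t]
      exact Λ.zero_mem
    · intro a b _ _ h1 h2
      rw [ev_add_t]
      exact Λ.add_mem h1 h2
    · intro c a _ h1
      rw [ev_smul_t]
      exact Λ.smul_mem c h1
  obtain ⟨b⟩ : Nonempty (Module.Basis (Fin (Module.finrank (ZMod ℓ) W)) (ZMod ℓ) W) :=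
    ⟨Module.finBasis _ _⟩
  have hrep : ∀ x : W, x = ∑ i, D.om x (b i) • (D.om.dualBasis (om_nd D) b) i := by
    intro x
    conv_lhs => rw [← (D.om.dualBasis (om_nd D) b).sum_repr x]
    refine sum_congr rfl fun i _ => ?_
    rw [LinearMap.BilinForm.dualBasis_repr_apply]
  have hX2 : X = ∑ i, tens ((D.om.dualBasis (om_nd D) b) i) (ev D (b i) X) := by
    funext a
    rw [Finset.sum_apply]
    apply Prod.ext
    · rw [Prod.fst_sum]
      exact hrep _
    · rw [Prod.snd_sum]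
      exact hrep _
  rw [hX2]
  exact M.sum_mem fun i _ => h1 _ _ (hall _)

end cls

end Pool.Agent.Y164.SZ
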