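import Pool.Agent.Y164.SZ.Stm
import Pool.Agent.Y164.SZ.Cls
import Pool.Agent.Y164.PS.Lvl2

/-!
Counting: definitions and statements (project SZ).
-/

set_option autoImplicit false
set_option linter.all false

namespace Pool.Agent.Y164.SZ

open Finset Polynomial Filter
open Pool.Agent.Y164.PS (Fam Sf pf sm)
open scoped Classical

section defs
variable {ℓ : ℕ} {k : Type} [Field k] [Fintype k] [DecidableEq k]
variable {W : Type} [AddCommGroup W] [Module (ZMod ℓ) W]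
variable {ι τ : Type} [Fintype ι] [Fintype τ]

/-- symbols between the primes of the twist -/
noncomputable def AT (ℓ : ℕ) (T : ι → k[X]) (i j : ι) : ZMod ℓ := L ℓ (T i) (T j)

/-- symbols between the primes of the twist and the bad primes -/
noncomputable def BT (ℓ : ℕ) (Q : τ → k[X]) (T : ι → k[X]) (i : ι) (s : τ) : ZMod ℓ :=
  L ℓ (T i) (Q s)

/-- all primes are distinct -/
def ok (Q : τ → k[X]) (T : ι → k[X]) : Prop := Function.Injective (Sum.elim T Q)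

/-- the class condition -/
def cl (D : FDat ℓ W τ) (Q : τ → k[X]) (T : ι → k[X]) : Prop :=
  ∀ s, D.sp s + ∑ i, BT ℓ Q T i s + D.g s = 0

/-- A cell of tuples of primes. -/
structure Cell (ℓ : ℕ) [NeZero ℓ] (Q : τ → k[X]) (𝒞 : ι → Finset k[X]) (lg : Finset ι)
    (Nd : ℕ) (η : ℝ) : Prop where
  S : SYM0 ℓ k
  Qm : ∀ s, (Q s).Monic
  Qi : ∀ s, Irreducible (Q s)
  mon : ∀ i, ∀ p ∈ 𝒞 i, p.Monic
  irr : ∀ i, ∀ p ∈ 𝒞 i, Irreducible p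
  deg : ∀ T ∈ Fintype.piFinset 𝒞, ℓ * (∑ i, (T i).natDegree + ∑ s, (Q s).natDegree) ≤ Nd
  eta : ∀ j ∈ lg, ∀ M : k[X], M.Monic → 1 ≤ M.natDegree → M.natDegree ≤ Nd →
    (∀ (c : k) (h : k[X]), M ≠ C c * h ^ ℓ) →
    ‖∑ p ∈ 𝒞 j, lc ℓ M p‖ + (Fintype.card ι + Fintype.card τ) ≤ η * (𝒞 j).card
  eta' : ∀ j ∈ lg, ((Fintype.card ι : ℝ) + Fintype.card τ) ≤ η * (𝒞 j).card
  eta0 : 0 ≤ η
  lgne : lg.Nonempty

/-- the number of tuples of distinct primes -/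
noncomputable def OK (Q : τ → k[X]) (𝒞 : ι → Finset k[X]) : ℝ :=
  ∑ T ∈ Fintype.piFinset 𝒞, (if ok Q T then (1 : ℝ) else 0)

/-- the number of tuples in the class with trivial kernel -/
noncomputable def XX (D : FDat ℓ W τ) (Q : τ → k[X]) (d : ι → ZMod ℓ) (𝒞 : ι → Finset k[X]) : ℝ :=
  ∑ T ∈ Fintype.piFinset 𝒞,
    (if (ok Q T ∧ cl D Q T) ∧ Triv D (AT ℓ T) (BT ℓ Q T) d then (1 : ℝ) else 0)

/-- the estimate in the cells, with constant `c` and parameters `R`, `w`, `C` -/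
def CE [NeZero ℓ] (D : FDat ℓ W τ) (Q : τ → k[X]) (c : ℝ) (R w : ℕ) (C : ℝ) : Prop :=
  ∀ (ι : Type) [Fintype ι] (d : ι → ZMod ℓ) (𝒞 : ι → Finset k[X]) (lg : Finset ι) (Nd : ℕ)
    (η : ℝ) (s : ℕ), Cell ℓ Q 𝒞 lg Nd η → IsUnit (∑ i, d i + D.N) →
    (∀ i, i ∉ lg → ∃ p, 𝒞 i = {p}) → 1 ≤ s → R * s ≤ Fintype.card ι →
    Fintype.card ι - lg.card ≤ s → C * (1 / 2) ^ s ≤ 1 → η * (C * (w : ℝ) ^ Fintype.card ι) ≤ 1 →
    c * OK Q 𝒞 ≤ (ℓ : ℝ) ^ Fintype.card τ * XX D Q d 𝒞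

/-- the estimate in the cells, with constant `c` -/
def CellEst [NeZero ℓ] (D : FDat ℓ W τ) (Q : τ → k[X]) (c : ℝ) : Prop :=
  ∃ (R w : ℕ) (C : ℝ), 1 ≤ R ∧ 1 ≤ w ∧ 1 ≤ C ∧ CE D Q c R w C

/-- no bad prime divides -/
def nb (Q : τ → k[X]) (E : k[X]) : Prop := ∀ s : τ, ¬ Q s ∣ E

/-- the class condition -/
def gcl (D : FDat ℓ W τ) (Q : τ → k[X]) (E : k[X]) : Prop :=
  ∀ s : τ, D.sp s + L ℓ E (Q s) + D.g s = 0

/-- `G` holds for the twists with trivial kernel -/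
def Imp (D : FDat ℓ W τ) (Q : τ → k[X]) (G : k[X] → Prop) : Prop :=
  ∀ (ι : Type) [Fintype ι] (T : ι → k[X]), Fam (Sum.elim T Q) →
    cl D Q T → IsUnit (∑ i, ((T i).natDegree : ZMod ℓ) + D.N) →
    Triv D (AT ℓ T) (BT ℓ Q T) (fun i => ((T i).natDegree : ZMod ℓ)) → G (∏ i, T i)

/-- the good members of the class -/
def P2 (G : k[X] → Prop) (D : FDat ℓ W τ) (Q : τ → k[X]) (E : k[X]) : Prop :=
  (nb Q E ∧ gcl D Q E) ∧ G E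

/-- total degree of the bad primes -/
noncomputable def dQ (Q : τ → k[X]) : ℕ := ∑ s : τ, (Q s).natDegree

/-- the error -/
noncomputable def et (ℓ : ℕ) (Q : τ → k[X]) (n z : ℕ) : ℝ :=
  2 * (5 * (ℓ * (n + dQ Q) : ℕ) + 2 + n * (n + Fintype.card τ)) / 2 ^ z

end defs

/-- the truncated constants -/
noncomputable def cK (ℓ K : ℕ) : ℝ :=
  ∑ j ∈ range (K + 1), (-1) ^ j * (ℓ : ℝ) ^ (j * (j - 1)) / ∏ i ∈ range j, ((ℓ : ℝ) ^ j - (ℓ : ℝ) ^ i)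

/-- SZ-EUL: an identity of Euler -/
def S_EUL : Prop := ∀ ℓ : ℕ, 2 ≤ ℓ →
  Tendsto (cK ℓ) atTop (nhds (∏' i : ℕ, (1 + ((ℓ : ℝ)⁻¹) ^ (i + 1))⁻¹)) ∧
  0 < ∏' i : ℕ, (1 + ((ℓ : ℝ)⁻¹) ^ (i + 1))⁻¹

/-- SZ-LVL: squarefree polynomials with a given number of prime factors -/
def S_LVL : Prop :=
  ∀ (ℓ : ℕ) [Fact ℓ.Prime] (k : Type) [Field k] [Fintype k] [DecidableEq k] (_ : SYM ℓ k)
    (_ : ringChar k ≠ 2) (_ : 4 ≤ Fintype.card k)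
    (W τ : Type) [AddCommGroup W] [Module (ZMod ℓ) W] [Fintype τ] (Q : τ → k[X]) (_ : Fam Q)
    (G : k[X] → Prop) (D : FDat ℓ W τ) (_ : Imp D Q G) (c : ℝ) (_ : 0 ≤ c) (R w : ℕ) (C : ℝ)
    (_ : 1 ≤ R) (_ : 1 ≤ w) (_ : 1 ≤ C) (_ : CE D Q c R w C)
    (n m z s : ℕ) (_ : IsUnit ((n : ZMod ℓ) + D.N)) (_ : 2 ≤ z) (_ : 1 ≤ s) (_ : (R + 1) * s ≤ m)
    (_ : C * (1 / 2) ^ s ≤ 1) (_ : et ℓ Q n z * (C * (w : ℝ) ^ m) ≤ 1),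
    c * (((Sf k n).filter fun E => (pf E).card = m ∧ sm z E ≤ s ∧ nb Q E).card : ℝ) ≤
      (ℓ : ℝ) ^ Fintype.card τ * (((Sf k n).filter fun E => (pf E).card = m ∧ sm z E ≤ s ∧
        P2 G D Q E).card : ℝ)

/-- SZ-MAIN: from the cells to all polynomials -/
def S_MAIN : Prop :=
  ∀ (ℓ : ℕ) [Fact ℓ.Prime] (k : Type) [Field k] [Fintype k] [DecidableEq k] (_ : SYM ℓ k)
    (_ : ringChar k ≠ 2) (_ : 4 ≤ Fintype.card k)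
    (W τ : Type) [AddCommGroup W] [Module (ZMod ℓ) W] [Fintype τ] (Q : τ → k[X]) (_ : Fam Q)
    (G : k[X] → Prop) (DD : (τ → ZMod ℓ) → FDat ℓ W τ) (_ : ∀ σ, (DD σ).sp = σ)
    (_ : ∀ σ σ', (DD σ).g = (DD σ').g) (N : ZMod ℓ) (_ : ∀ σ, (DD σ).N = N)
    (_ : ∀ σ, Imp (DD σ) Q G) (c : ℝ) (_ : 0 ≤ c) (_ : ∀ σ, CellEst (DD σ) Q c),
    (∃ c0 : ℝ, 0 < c0 ∧ ∀ᶠ n : ℕ in atTop,
      c0 * (Fintype.card k : ℝ) ^ n ≤ (((Sf k n).filter (nb Q)).card : ℝ)) ∧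
    ∀ ε : ℝ, 0 < ε → ∀ᶠ n : ℕ in atTop, IsUnit ((n : ZMod ℓ) + N) →
      (c - ε) * (((Sf k n).filter (nb Q)).card : ℝ) ≤
        (((Sf k n).filter fun E => nb Q E ∧ G E).card : ℝ)

/-- the estimate in the cells -/
def S_CELL : Prop :=
  ∀ (ℓ : ℕ) [Fact ℓ.Prime] (_ : ℓ ≠ 2) (k : Type) [Field k] [Fintype k] [DecidableEq k]
    (W τ : Type) [AddCommGroup W] [Module (ZMod ℓ) W] [Finite W] [Fintype τ] (D : FDat ℓ W τ)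
    (_ : Conn D) (Q : τ → k[X]) (K : ℕ) (_ : Odd K) (ε : ℝ) (_ : 0 < ε), CellEst D Q (cK ℓ K - ε)

end Pool.Agent.Y164.SZ
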