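import Pool.Agent.Y164.SZ.Fin

/-!
The conclusion in a cell, continued.
-/

set_option autoImplicit false
set_option linter.all false

namespace Pool.Agent.Y164.SZ

open Finset Polynomial
open Pool.Agent.Y164.HG (num1)
open scoped Classical

variable {ℓ : ℕ} [hp : Fact ℓ.Prime] {k : Type} [Field k] [Fintype k] [DecidableEq k]
variable {W : Type} [AddCommGroup W] [Module (ZMod ℓ) W] [Fintype W]
variable {ι τ : Type} [Fintype ι] [Fintype τ]
variable {D : FDat ℓ W τ} {Q : τ → k[X]} {d : ι → ZMod ℓ} {𝒞 : ι → Finset k[X]} {lg : Finset ι}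
  {Nd : ℕ} {η : ℝ} (hc : Cell ℓ Q 𝒞 lg Nd η)

omit hp [Fintype W] in
theorem geom_le {l : ℝ} (hl : 2 ≤ l) (n : ℕ) : ∑ i ∈ range n, l ^ i ≤ l ^ n := by
  induction n with
  | zero => simp
  | succ n ih =>
    rw [sum_range_succ, pow_succ]
    have : (0 : ℝ) < l ^ n := by positivity
    nlinarith

theorem few_le (hlg : lg.Nonempty) (hw : 2 ≤ Fintype.card W) {K s j : ℕ} (hj : j ≤ K)
    (hR : ((Fintype.card W ^ K) ^ 2 + 1) * s ≤ Fintype.card ι)
    (hs : Fintype.card ι - lg.card ≤ s) {v : ℝ} (hv : 0 < v)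
    (hv1 : (Fintype.card W : ℝ) ^ Fintype.card ι ≤ Fintype.card W * v) :
    ((Few (ℓ := ℓ) W ι τ lg j).card : ℝ) ≤
      (2 ^ ((Fintype.card W ^ K) ^ 2) * (ℓ : ℝ) ^ (Fintype.card τ * (2 * K + 1)) *
        (Fintype.card W : ℝ) ^ K * (1 / 2) ^ s) * v ^ j := by
  set w := Fintype.card W with hwd
  set m := Fintype.card ι with hm
  have hw1 : (1 : ℝ) ≤ w := by exact_mod_cast (by omega : 1 ≤ w)
  have hl1 : (1 : ℝ) ≤ ℓ := by exact_mod_cast hp.out.one_lt.le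
  have hwj : w ^ j ≤ w ^ K := Nat.pow_le_pow_right (by omega) hj
  have h0 : ((Few (ℓ := ℓ) W ι τ lg j).card : ℝ) ≤
      2 ^ ((w ^ j) ^ 2) * ((ℓ : ℝ) ^ (Fintype.card τ * (2 * j + 1)) *
      (((w ^ j - 1 : ℕ) : ℝ) ^ lg.card * (((w ^ j : ℕ) : ℝ) ^ 2) ^ (m - lg.card))) := by
    have := card_Few (ℓ := ℓ) (W := W) (τ := τ) (j := j) lg
    exact_mod_cast this
  have hlm : lg.card ≤ m := card_le_univ _
  rcases Nat.eq_zero_or_pos j with hj0 | hj0
  · subst hj0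
    have h1 : (Few (ℓ := ℓ) W ι τ lg 0).card = 0 := by
      have := card_Few (ℓ := ℓ) (W := W) (τ := τ) (j := 0) lg
      rw [pow_zero, Nat.sub_self, zero_pow (card_pos.2 hlg).ne', zero_mul, mul_zero,
        mul_zero] at this
      exact Nat.le_zero.1 this
    rw [h1, Nat.cast_zero]
    positivity
  · have hwj2 : 2 ≤ w ^ j := hw.trans (Nat.le_self_pow hj0.ne' w)
    have h1 := num1 hwj2 hlm hs (by
      refine le_trans (Nat.mul_le_mul_right s ?_) hR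
      exact Nat.add_le_add_right (Nat.pow_le_pow_left hwj 2) 1)
    have h2 : (((w ^ j : ℕ) : ℝ)) ^ m ≤ (w : ℝ) ^ K * v ^ j := by
      have h3 : (((w ^ j : ℕ) : ℝ)) ^ m = ((w : ℝ) ^ m) ^ j := by
        push_cast
        rw [← pow_mul, ← pow_mul, mul_comm]
      rw [h3]
      refine (pow_le_pow_left₀ (by positivity) hv1 j).trans ?_
      rw [mul_pow]
      exact mul_le_mul_of_nonneg_right (pow_le_pow_right₀ hw1 hj) (by positivity)
    have h3 : (2 : ℝ) ^ ((w ^ j) ^ 2) ≤ 2 ^ ((w ^ K) ^ 2) :=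
      pow_le_pow_right₀ (by norm_num) (Nat.pow_le_pow_left hwj 2)
    have h4 : (ℓ : ℝ) ^ (Fintype.card τ * (2 * j + 1)) ≤ (ℓ : ℝ) ^ (Fintype.card τ * (2 * K + 1)) :=
      pow_le_pow_right₀ hl1 (Nat.mul_le_mul_left _ (by omega))
    calc ((Few (ℓ := ℓ) W ι τ lg j).card : ℝ) ≤
        2 ^ ((w ^ j) ^ 2) * ((ℓ : ℝ) ^ (Fintype.card τ * (2 * j + 1)) *
          (((w ^ j - 1 : ℕ) : ℝ) ^ lg.card * (((w ^ j : ℕ) : ℝ) ^ 2) ^ (m - lg.card))) := h0
      _ ≤ 2 ^ ((w ^ j) ^ 2) * ((ℓ : ℝ) ^ (Fintype.card τ * (2 * j + 1)) *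
          ((((w ^ j : ℕ) : ℝ)) ^ m * (1 / 2) ^ s)) := by
          apply mul_le_mul_of_nonneg_left _ (by positivity)
          exact mul_le_mul_of_nonneg_left h1 (by positivity)
      _ ≤ 2 ^ ((w ^ K) ^ 2) * ((ℓ : ℝ) ^ (Fintype.card τ * (2 * K + 1)) *
          (((w : ℝ) ^ K * v ^ j) * (1 / 2) ^ s)) := by
          apply mul_le_mul h3 _ (by positivity) (by positivity)
          apply mul_le_mul h4 _ (by positivity) (by positivity)
          exact mul_le_mul_of_nonneg_right h2 (by positivity)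
      _ = _ := by ring

include hc in
theorem mom_le (h2 : ℓ ≠ 2) (hN : IsUnit (∑ i, d i + D.N)) (hG : Conn D)
    (hw : 2 ≤ Fintype.card W) {K s j : ℕ} (hj : j ≤ K) {δ : ℝ} (hδ : 0 < δ) (hδ2 : δ ≤ 1 / 2)
    (hR : ((Fintype.card W ^ K) ^ 2 + 1) * s ≤ Fintype.card ι)
    (hs : Fintype.card ι - lg.card ≤ s)
    (hA : 2 ^ ((Fintype.card W ^ K) ^ 2) * (ℓ : ℝ) ^ (Fintype.card τ * (2 * K + 1)) *
        (Fintype.card W : ℝ) ^ K * (1 / 2) ^ s ≤ δ)
    (hB : η * (((Fintype.card W : ℝ) ^ K) ^ Fintype.card ι *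
      ((ℓ : ℝ) ^ Fintype.card τ) ^ (K + 1)) ≤ δ)
    (hC : (ℓ : ℝ) ^ K * Fintype.card W * (1 / 2) ^ s ≤ δ)
    (hOK : ((Fintype.piFinset 𝒞).card : ℝ) ≤ 2 * OK Q 𝒞) :
    |SS D Q d 𝒞 j * (ℓ : ℝ) ^ Fintype.card τ - (ℓ : ℝ) ^ (j * (j - 1) / 2) * OK Q 𝒞| ≤
      (4 + (ℓ : ℝ) ^ (j * (j - 1) / 2)) * δ * OK Q 𝒞 := by
  have e3 := SS_le (d := d) hc h2 hN hG j
  have e6 := le_card_V0s D d
  have e7 := card_V0s_le D d
  have e8 := card_LIs D d (j := j)
  have e9 : ((LIs D d j).card : ℝ) ≤ ((V0s D d).card : ℝ) ^ j := by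
    have h3 : (LIs D d j).card ≤ (Fintype.piFinset (fun _ : Fin j => V0s D d)).card := by
      apply card_le_card
      intro w h
      obtain ⟨-, h4, -⟩ := mem_filter.1 h
      rw [Fintype.mem_piFinset]
      exact fun a => (mem_V0s D d).2 (h4 a)
    rw [Fintype.card_piFinset, prod_const, card_univ, Fintype.card_fin] at h3
    exact_mod_cast h3
  set t : ℝ := (ℓ : ℝ) ^ Fintype.card τ with ht
  set v : ℝ := ((V0s D d).card : ℝ) with hv
  set w : ℝ := (Fintype.card W : ℝ) with hwd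
  set m := Fintype.card ι with hm
  set N0 : ℝ := ((Fintype.piFinset 𝒞).card : ℝ) with hN0
  set LI : ℝ := ((LIs D d j).card : ℝ) with hLI
  set X : ℝ := OK Q 𝒞 with hX
  have hX0 : 0 ≤ X := OK_nonneg
  have hl1 : (1 : ℝ) ≤ ℓ := by exact_mod_cast hp.out.one_lt.le
  have hl0 : (0 : ℝ) < ℓ := by linarith
  have ht1 : 1 ≤ t := one_le_pow₀ hl1
  have hw2 : (2 : ℝ) ≤ w := by rw [hwd]; exact_mod_cast hw
  have hw0 : 0 < w := by linarith
  have e6' : w ^ m ≤ w * v := by rw [hv, hwd]; exact_mod_cast e6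
  have e7' : v ≤ w ^ m * t := by rw [hv, ht, hwd]; exact_mod_cast e7
  have hvp : 0 < v := by
    have h5 : (0 : ℝ) < w ^ m := pow_pos hw0 _
    have h6 : 0 < w * v := lt_of_lt_of_le h5 e6'
    exact pos_of_mul_pos_right h6 hw0.le
  have hη := hc.eta0
  have hN00 : 0 ≤ N0 := Nat.cast_nonneg _
  set cj : ℝ := (ℓ : ℝ) ^ (j * (j - 1) / 2) with hcj
  have hcj0 : 0 < cj := by positivity
  have hsm : s ≤ m := by
    refine le_trans ?_ hR
    nlinarith [Nat.zero_le ((Fintype.card W ^ K) ^ 2 * s)]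
  -- few
  have f1 : ((Few (ℓ := ℓ) W ι τ lg j).card : ℝ) ≤ δ * v ^ j := by
    refine (few_le (ℓ := ℓ) (τ := τ) hc.lgne hw hj hR hs hvp e6').trans ?_
    exact mul_le_mul_of_nonneg_right hA (by positivity)
  -- eta
  have f2 : η * (v ^ (2 * j) * t) ≤ δ * v ^ j := by
    have h3 : v ^ j * t ≤ (w ^ K) ^ m * t ^ (K + 1) := by
      have h4 : v ^ j ≤ (w ^ m * t) ^ K := by
        refine (pow_le_pow_left₀ hvp.le e7' j).trans ?_
        apply pow_le_pow_right₀ _ hj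
        have : (1 : ℝ) ≤ w ^ m := one_le_pow₀ (by linarith)
        nlinarith
      calc v ^ j * t ≤ (w ^ m * t) ^ K * t := mul_le_mul_of_nonneg_right h4 (by linarith)
        _ = _ := by rw [mul_pow, pow_succ, ← pow_mul, ← pow_mul, mul_comm m K]; ring
    have h4 : η * (v ^ j * t) ≤ δ := (mul_le_mul_of_nonneg_left h3 hη).trans hB
    calc η * (v ^ (2 * j) * t) = (η * (v ^ j * t)) * v ^ j := by
          rw [two_mul, pow_add]; ring
      _ ≤ δ * v ^ j := mul_le_mul_of_nonneg_right h4 (by positivity)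
  -- linearly independent tuples
  have f3 : (1 - δ) * v ^ j ≤ LI := by
    have h3 : (ℓ : ℝ) ^ K / v ≤ δ := by
      have h4 : 1 / v ≤ w * (1 / 2) ^ s := by
        rw [div_le_iff₀ hvp]
        have h5 : (2 : ℝ) ^ s ≤ w ^ m := by
          calc (2 : ℝ) ^ s ≤ 2 ^ m := pow_le_pow_right₀ (by norm_num) hsm
            _ ≤ w ^ m := pow_le_pow_left₀ (by norm_num) hw2 _
        have h6 : (2 : ℝ) ^ s * (1 / 2) ^ s = 1 := by rw [← mul_pow]; norm_num
        have h7 := mul_le_mul_of_nonneg_right (h5.trans e6') (show (0 : ℝ) ≤ (1 / 2) ^ s by positivity)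
        rw [h6] at h7
        linarith
      calc (ℓ : ℝ) ^ K / v = (ℓ : ℝ) ^ K * (1 / v) := by ring
        _ ≤ (ℓ : ℝ) ^ K * (w * (1 / 2) ^ s) := mul_le_mul_of_nonneg_left h4 (by positivity)
        _ ≤ δ := by rw [← mul_assoc]; exact hC
    have h4 : (ℓ : ℝ) ^ j ≤ v := by
      have h5 : (ℓ : ℝ) ^ K ≤ v := by
        rw [div_le_iff₀ hvp] at h3
        nlinarith
      exact (pow_le_pow_right₀ hl1 hj).trans h5
    have h5 := prod_ge hl1 hvp j h4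
    have h6 : ∑ i ∈ range j, (ℓ : ℝ) ^ i ≤ (ℓ : ℝ) ^ j :=
      geom_le (by exact_mod_cast hp.out.two_le) j
    have h7 : (∑ i ∈ range j, (ℓ : ℝ) ^ i) / v ≤ δ := by
      refine le_trans ?_ h3
      exact div_le_div_of_nonneg_right (h6.trans (pow_le_pow_right₀ hl1 hj)) hvp.le
    have h8 : LI = v ^ j * ∏ i ∈ range j, (1 - (ℓ : ℝ) ^ i / v) := by
      rw [e8]
      have : v ^ j = ∏ i ∈ range j, v := by rw [prod_const, card_range]
      rw [this, ← prod_mul_distrib]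
      refine prod_congr rfl fun i _ => ?_
      field_simp
    rw [h8, mul_comm]
    exact mul_le_mul_of_nonneg_left (by linarith) (by positivity)
  have f4 : |SS D Q d 𝒞 j * (v ^ j * t) - v ^ j * cj * X| ≤ v ^ j * ((4 + cj) * δ * X) := by
    have g1 : |LI * cj * X - v ^ j * cj * X| ≤ δ * v ^ j * cj * X := by
      have : LI * cj * X - v ^ j * cj * X = - ((v ^ j - LI) * (cj * X)) := by ring
      rw [this, abs_neg, abs_of_nonneg (mul_nonneg (by linarith) (by positivity))]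
      have h5 : v ^ j - LI ≤ δ * v ^ j := by linarith
      have := mul_le_mul_of_nonneg_right h5 (mul_nonneg hcj0.le hX0)
      linarith
    have g2 : N0 * (((Few (ℓ := ℓ) W ι τ lg j).card : ℝ) + η * (v ^ (2 * j) * t)) ≤
        2 * X * (2 * (δ * v ^ j)) := by
      apply mul_le_mul hOK _ _ (by linarith)
      · linarith
      · exact add_nonneg (Nat.cast_nonneg _) (mul_nonneg hη (by positivity))
    calc |SS D Q d 𝒞 j * (v ^ j * t) - v ^ j * cj * X| =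
        |(SS D Q d 𝒞 j * (v ^ j * t) - LI * cj * X) + (LI * cj * X - v ^ j * cj * X)| := by
          congr 1; ring
      _ ≤ |SS D Q d 𝒞 j * (v ^ j * t) - LI * cj * X| + |LI * cj * X - v ^ j * cj * X| :=
          abs_add_le _ _
      _ ≤ 2 * X * (2 * (δ * v ^ j)) + δ * v ^ j * cj * X := add_le_add (e3.trans g2) g1
      _ = _ := by ring
  have hvj : 0 < v ^ j := by positivity
  have f5 : SS D Q d 𝒞 j * (v ^ j * t) - v ^ j * cj * X =
      v ^ j * (SS D Q d 𝒞 j * t - cj * X) := by ring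
  rw [f5, abs_mul, abs_of_pos hvj] at f4
  exact le_of_mul_le_mul_left f4 hvj

theorem card_W_ge (hG : Conn D) : 2 ≤ Fintype.card W := by
  obtain ⟨s⟩ := hG.nonempty
  have : Nontrivial W := ⟨⟨D.t s, 0, by
    intro h
    apply hG.ne s
    rw [h, map_zero]⟩⟩
  exact Fintype.one_lt_card

/-- the constant in the error -/
noncomputable def BK (ℓ K : ℕ) : ℝ :=
  ∑ j ∈ range (K + 1), (ℓ : ℝ) ^ (j * (j - 1) / 2) / (∏ i ∈ range j, ((ℓ : ℝ) ^ j - (ℓ : ℝ) ^ i)) *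
    (4 + (ℓ : ℝ) ^ (j * (j - 1) / 2))

omit hp in
theorem Gj_pos (hl : 1 < ℓ) (j : ℕ) : 0 < ∏ i ∈ range j, ((ℓ : ℝ) ^ j - (ℓ : ℝ) ^ i) := by
  apply prod_pos
  intro i hi
  rw [sub_pos]
  exact pow_lt_pow_right₀ (by exact_mod_cast hl) (mem_range.1 hi)

omit hp in
theorem BK_nonneg (hl : 1 < ℓ) (K : ℕ) : 0 ≤ BK ℓ K := by
  apply sum_nonneg
  intro j _
  have := Gj_pos hl j
  positivity

/-- the estimate in the cells -/
theorem cell_thm : S_CELL := by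
  intro ℓ hp h2 k _ _ _ W τ _ _ hWf _ D hG Q K hK ε hε
  letI : Fintype W := Fintype.ofFinite W
  have hw := card_W_ge hG
  have hl := hp.out.one_lt
  have hl1 : (1 : ℝ) ≤ ℓ := by exact_mod_cast hl.le
  have hBK := BK_nonneg (ℓ := ℓ) hl K
  obtain ⟨δ, hδd⟩ : ∃ δ : ℝ, δ = min (1 / 2) (ε / (BK ℓ K + 1)) := ⟨_, rfl⟩
  have hδ : 0 < δ := by
    rw [hδd]
    exact lt_min (by norm_num) (by positivity)
  have hδ2 : δ ≤ 1 / 2 := by rw [hδd]; exact min_le_left _ _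
  have hδ3 : BK ℓ K * δ ≤ ε := by
    have h3 : δ ≤ ε / (BK ℓ K + 1) := by rw [hδd]; exact min_le_right _ _
    have h4 : BK ℓ K * (ε / (BK ℓ K + 1)) ≤ ε := by
      rw [mul_div_assoc', div_le_iff₀ (by linarith)]
      nlinarith
    exact (mul_le_mul_of_nonneg_left h3 hBK).trans h4
  obtain ⟨C1, hC1⟩ : ∃ C1 : ℝ, C1 = 2 ^ ((Fintype.card W ^ K) ^ 2) *
      (ℓ : ℝ) ^ (Fintype.card τ * (2 * K + 1)) * (Fintype.card W : ℝ) ^ K := ⟨_, rfl⟩
  obtain ⟨C2, hC2⟩ : ∃ C2 : ℝ, C2 = ((ℓ : ℝ) ^ Fintype.card τ) ^ (K + 1) := ⟨_, rfl⟩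
  obtain ⟨C3, hC3⟩ : ∃ C3 : ℝ, C3 = (ℓ : ℝ) ^ K * Fintype.card W := ⟨_, rfl⟩
  have hw1 : (1 : ℝ) ≤ Fintype.card W := by exact_mod_cast (by omega : 1 ≤ Fintype.card W)
  have h1C1 : 0 ≤ C1 := by rw [hC1]; positivity
  have h1C2 : 1 ≤ C2 := by rw [hC2]; exact one_le_pow₀ (one_le_pow₀ hl1)
  have h1C3 : 0 ≤ C3 := by rw [hC3]; positivity
  refine ⟨(Fintype.card W ^ K) ^ 2 + 1, Fintype.card W ^ K, (C1 + C2 + C3) / δ, by omega,
    Nat.one_le_pow _ _ (by omega), ?_, ?_⟩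
  · rw [le_div_iff₀ hδ]
    linarith
  intro ι _ d 𝒞 lg Nd η s hc hN hsing hs1 hR hs hA hB
  have hη := hc.eta0
  have hl0 : (0 : ℝ) < ℓ := by linarith
  have ht : (0 : ℝ) < (ℓ : ℝ) ^ Fintype.card τ := by positivity
  have hx : (0 : ℝ) ≤ (1 / 2 : ℝ) ^ s := by positivity
  have hA1 : C1 * (1 / 2) ^ s ≤ δ ∧ C3 * (1 / 2) ^ s ≤ δ := by
    rw [div_mul_eq_mul_div, div_le_one hδ] at hA
    have a1 : 0 ≤ C1 * (1 / 2) ^ s := mul_nonneg h1C1 hx
    have a2 : 0 ≤ C2 * (1 / 2) ^ s := mul_nonneg (by linarith) hx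
    have a3 : 0 ≤ C3 * (1 / 2) ^ s := mul_nonneg h1C3 hx
    constructor <;> linarith
  have hy : (0 : ℝ) ≤ ((Fintype.card W ^ K : ℕ) : ℝ) ^ Fintype.card ι := by positivity
  have hB0 : η * ((C1 + C2 + C3) * ((Fintype.card W ^ K : ℕ) : ℝ) ^ Fintype.card ι) ≤ δ := by
    have : η * ((C1 + C2 + C3) / δ * ((Fintype.card W ^ K : ℕ) : ℝ) ^ Fintype.card ι) =
        (η * ((C1 + C2 + C3) * ((Fintype.card W ^ K : ℕ) : ℝ) ^ Fintype.card ι)) / δ := by
      field_simp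
    rw [this, div_le_one hδ] at hB
    exact hB
  have hB1 : η * (((Fintype.card W : ℝ) ^ K) ^ Fintype.card ι *
      ((ℓ : ℝ) ^ Fintype.card τ) ^ (K + 1)) ≤ δ := by
    refine le_trans ?_ hB0
    apply mul_le_mul_of_nonneg_left _ hη
    rw [← hC2]
    push_cast
    rw [mul_comm]
    apply mul_le_mul_of_nonneg_right _ (by positivity)
    linarith
  by_cases hsm : ∀ T ∈ Fintype.piFinset 𝒞, ∀ x y : ι ⊕ τ, (∀ j ∈ lg, x ≠ Sum.inl j) →
    (∀ j ∈ lg, y ≠ Sum.inl j) → Sum.elim T Q x = Sum.elim T Q y → x = y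
  · have hOK : ((Fintype.piFinset 𝒞).card : ℝ) ≤ 2 * OK Q 𝒞 := by
      have h3 := OK_ge hc hsm
      have h4 : (lg.card : ℝ) * η ≤ 1 / 2 := by
        have h5 : (lg.card : ℝ) ≤ (C1 + C2 + C3) *
            ((Fintype.card W ^ K : ℕ) : ℝ) ^ Fintype.card ι := by
          have hlm : lg.card ≤ Fintype.card ι := card_le_univ _
          have hK1 : 1 ≤ K := hK.pos
          have h6 : Fintype.card ι < (Fintype.card W ^ K) ^ Fintype.card ι := by
            apply Nat.lt_pow_self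
            exact lt_of_lt_of_le (by omega : 1 < Fintype.card W) (Nat.le_self_pow (by omega) _)
          have h7 : (lg.card : ℝ) ≤ ((Fintype.card W ^ K : ℕ) : ℝ) ^ Fintype.card ι := by
            exact_mod_cast hlm.trans h6.le
          refine h7.trans (le_mul_of_one_le_left hy ?_)
          linarith
        have h6 := mul_le_mul_of_nonneg_left h5 hη
        linarith
      have h5 : (0 : ℝ) ≤ ((Fintype.piFinset 𝒞).card : ℝ) := Nat.cast_nonneg _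
      nlinarith
    have hmom : ∀ j ∈ range (K + 1), |SS D Q d 𝒞 j * (ℓ : ℝ) ^ Fintype.card τ -
        (ℓ : ℝ) ^ (j * (j - 1) / 2) * OK Q 𝒞| ≤
        (4 + (ℓ : ℝ) ^ (j * (j - 1) / 2)) * δ * OK Q 𝒞 := by
      intro j hj
      rw [mem_range] at hj
      exact mom_le hc h2 hN hG hw (K := K) (s := s) (by omega) hδ hδ2 hR hs
        (by rw [← hC1]; exact hA1.1) hB1 (by rw [← hC3]; exact hA1.2) hOK
    have hX0 : 0 ≤ OK Q 𝒞 := OK_nonneg
    have h3 := XX_ge D (Q := Q) (𝒞 := 𝒞) d hK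
    have h4 := mul_le_mul_of_nonneg_left h3 ht.le
    refine le_trans ?_ h4
    rw [mul_sum]
    have h5 : ∀ j ∈ range (K + 1),
        ((-1) ^ j * (ℓ : ℝ) ^ (j * (j - 1)) / ∏ i ∈ range j, ((ℓ : ℝ) ^ j - (ℓ : ℝ) ^ i)) *
          OK Q 𝒞 - ((ℓ : ℝ) ^ (j * (j - 1) / 2) / (∏ i ∈ range j, ((ℓ : ℝ) ^ j - (ℓ : ℝ) ^ i)) *
          (4 + (ℓ : ℝ) ^ (j * (j - 1) / 2))) * δ * OK Q 𝒞 ≤
        (ℓ : ℝ) ^ Fintype.card τ * ((-1) ^ j * ((ℓ : ℝ) ^ (j * (j - 1) / 2) /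
          ∏ i ∈ range j, ((ℓ : ℝ) ^ j - (ℓ : ℝ) ^ i)) * SS D Q d 𝒞 j) := by
      intro j hj
      have h6 := hmom j hj
      have hG0 := Gj_pos (ℓ := ℓ) hl j
      have h7 : (ℓ : ℝ) ^ (j * (j - 1)) =
          (ℓ : ℝ) ^ (j * (j - 1) / 2) * (ℓ : ℝ) ^ (j * (j - 1) / 2) := by
        rw [← pow_add]
        congr 1
        have := Nat.even_mul_pred_self j
        obtain ⟨r, hr⟩ := this
        omega
      rw [h7]
      set G := ∏ i ∈ range j, ((ℓ : ℝ) ^ j - (ℓ : ℝ) ^ i) with hGd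
      set cj : ℝ := (ℓ : ℝ) ^ (j * (j - 1) / 2) with hcj
      have hcj0 : 0 < cj := by positivity
      have hr0 : 0 ≤ cj / G := by positivity
      obtain ⟨h8, h9⟩ := abs_le.1 h6
      have h10 : (ℓ : ℝ) ^ Fintype.card τ * ((-1) ^ j * (cj / G) * SS D Q d 𝒞 j) =
          (cj / G) * ((-1) ^ j * (SS D Q d 𝒞 j * (ℓ : ℝ) ^ Fintype.card τ)) := by ring
      have h11 : (-1) ^ j * (cj * cj) / G * OK Q 𝒞 - cj / G * (4 + cj) * δ * OK Q 𝒞 =
          (cj / G) * ((-1) ^ j * (cj * OK Q 𝒞) - (4 + cj) * δ * OK Q 𝒞) := by ring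
      rw [h10, h11]
      apply mul_le_mul_of_nonneg_left _ hr0
      rcases Nat.even_or_odd j with hev | hod
      · rw [hev.neg_one_pow]; linarith
      · rw [hod.neg_one_pow]; linarith
    refine le_trans ?_ (sum_le_sum h5)
    rw [sum_sub_distrib, ← sum_mul, ← sum_mul, ← sum_mul]
    have h6 : ∑ j ∈ range (K + 1),
        ((-1) ^ j * (ℓ : ℝ) ^ (j * (j - 1)) / ∏ i ∈ range j, ((ℓ : ℝ) ^ j - (ℓ : ℝ) ^ i)) =
        cK ℓ K := rfl
    have h7 : ∑ j ∈ range (K + 1), ((ℓ : ℝ) ^ (j * (j - 1) / 2) /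
        (∏ i ∈ range j, ((ℓ : ℝ) ^ j - (ℓ : ℝ) ^ i)) *
          (4 + (ℓ : ℝ) ^ (j * (j - 1) / 2))) = BK ℓ K := rfl
    rw [h6, h7]
    have := mul_le_mul_of_nonneg_right hδ3 hX0
    linarith
  · push Not at hsm
    obtain ⟨T0, hT0, x, y, hx, hy, hxy, hne⟩ := hsm
    have hno : ∀ T ∈ Fintype.piFinset 𝒞, ¬ ok Q T := by
      intro T hT hok
      apply hne
      apply hok
      have key : ∀ x : ι ⊕ τ, (∀ j ∈ lg, x ≠ Sum.inl j) → Sum.elim T Q x = Sum.elim T0 Q x := by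
        rintro (i | s) hx
        · have hi : i ∉ lg := fun h => hx i h rfl
          obtain ⟨p, hp⟩ := hsing i hi
          have h5 := Fintype.mem_piFinset.1 hT i
          have h6 := Fintype.mem_piFinset.1 hT0 i
          rw [hp, mem_singleton] at h5 h6
          show T i = T0 i
          rw [h5, h6]
        · rfl
      rw [key x hx, key y hy, hxy]
    have h6 : OK Q 𝒞 = 0 := sum_eq_zero fun T hT => if_neg fun h => hno T hT h
    rw [h6, mul_zero]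
    exact mul_nonneg ht.le XX_nonneg

end Pool.Agent.Y164.SZ
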