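import Pool.Agent.Y164.SZ.Imp
import Pool.Agent.Y164.SZ.Fin2
import Pool.Agent.Y164.HG.Cla
import Pool.Agent.Y37.SZ.Sym
import Pool.Agent.Y287.SZ.Chr
import Pool.Agent.Y515.SZ.Eul
import Pool.Agent.Y290.SZ.LVL
import Pool.Agent.Y261.SZ.Main

/-!
The final form of the theorem.
-/

set_option autoImplicit false
set_option linter.all false

open Polynomial IsDedekindDomain

namespace Pool.Agent.Y164.SZ

open Finset Polynomial Filter Topology
open Pool.Agent.Y164.PS (Sf mem_Sf)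
open Pool.Agent.Y164.HG (tw)
open scoped Classical

theorem del_eq {k : Type} [Field k] [Fintype k] [DecidableEq k] {n : ℕ} (a : Fin n → k[X]) :
    Del a = Pool.Agent.Y164.HG.Del a := rfl

theorem nb_iff {ℓ : ℕ} [Fact ℓ.Prime] {k : Type} [Field k] [Fintype k] [DecidableEq k] {n : ℕ}
    {a : Fin n → k[X]} {N : ℕ} (H : Geo ℓ a N) {E : k[X]} (hE : E.Monic) :
    nb (QQ a) E ↔ ∀ i j, i ≠ j → IsCoprime E (a i - a j) := by
  constructor
  · intro h i j hij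
    by_contra hnc
    obtain ⟨π, hπ, h1, h2⟩ : ∃ π : k[X], Irreducible π ∧ π ∣ E ∧ π ∣ a i - a j := by
      by_contra hno
      push Not at hno
      apply hnc
      apply isCoprime_of_dvd
      · exact fun h => hE.ne_zero h.1
      · intro z hz hz0 hz1 hz2
        obtain ⟨π, hπ, hd⟩ := WfDvdMonoid.exists_irreducible_factor hz hz0
        exact hno π hπ (hd.trans hz1) (hd.trans hz2)
    have hm : (normalize π).Monic := monic_normalize hπ.ne_zero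
    have ha : Associated π (normalize π) := (normalize_associated π).symm
    have hmem : normalize π ∈ bpF a :=
      H.mem.2 ⟨hm, ha.irreducible hπ, (ha.symm.dvd.trans h2).trans (H.dvd_del hij)⟩
    exact h ⟨_, hmem⟩ (ha.symm.dvd.trans h1)
  · intro h s hs
    have h1 := h (H.p s) (H.q s) (ne_of_lt (H.lt s))
    exact (H.fam.irr s).not_isUnit (h1.isUnit_of_dvd' hs (H.dvd s))

/-- the final form -/
theorem final (hCRIT : S_CRIT) (hCOMB : S_COMB) {ℓ : ℕ} (hℓ : ℓ.Prime) (hl2 : ℓ ≠ 2)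
    {k : Type} [Field k] [Finite k]
    (h2 : (2 : k) ≠ 0) (hlk : ℓ ∣ Nat.card k - 1)
    (K : Type) [Field K] [Algebra k[X] K] [IsFractionRing k[X] K] {n : ℕ} (hn : ¬ ℓ ∣ n)
    (hn3 : 3 ≤ n) (N : ℕ) (hN : 1 ≤ N) (a : Fin n → k[X])
    (hdeg : ∀ i j, i ≠ j → (a i - a j).natDegree = N) (hsq : Squarefree (HG.Del a)) :
    (∃ c : ℝ, 0 < c ∧ ∀ᶠ m : ℕ in atTop, c * (Nat.card k : ℝ) ^ m ≤ ((tw a m).ncard : ℝ)) ∧
    ∀ ε : ℝ, 0 < ε → ∀ᶠ m : ℕ in atTop, ¬ ℓ ∣ m + n * N →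
      (∏' i : ℕ, (1 + ((ℓ : ℝ)⁻¹) ^ (i + 1))⁻¹ - ε) * ((tw a m).ncard : ℝ) ≤
        (({E ∈ tw a m | Good ℓ K a E}).ncard : ℝ) := by
  haveI : Fact ℓ.Prime := ⟨hℓ⟩
  letI : Fintype k := Fintype.ofFinite k
  have hchar : ringChar k ≠ 2 := by
    intro h
    apply h2
    have := ringChar.Nat.cast_ringChar (R := k)
    rw [h] at this
    exact_mod_cast this
  have hcard : Nat.card k = Fintype.card k := Nat.card_eq_fintype_card
  rw [hcard] at hlk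
  have hl3 : 3 ≤ ℓ := by
    have := hℓ.two_le
    omega
  have hq1 : 1 < Fintype.card k := Fintype.one_lt_card
  have hq : 4 ≤ Fintype.card k := by
    have := Nat.le_of_dvd (by omega) hlk
    omega
  have hlk0 : ((ℓ : ℕ) : k) ≠ 0 := by
    intro h
    obtain ⟨r, hr⟩ := hlk
    have h1 : ((Fintype.card k - 1 : ℕ) : k) = 0 := by rw [hr, Nat.cast_mul, h, zero_mul]
    rw [Nat.cast_sub hq1.le, FiniteField.cast_card_eq_zero, Nat.cast_one, zero_sub] at h1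
    exact one_ne_zero (neg_eq_zero.1 h1)
  obtain ⟨ζ, hζ⟩ : ∃ ζ : k, IsPrimitiveRoot ζ ℓ := by
    obtain ⟨g, hg⟩ := IsCyclic.exists_generator (α := kˣ)
    have ho : orderOf g = Fintype.card k - 1 := by
      rw [orderOf_eq_card_of_forall_mem_zpowers hg, Nat.card_eq_fintype_card, Fintype.card_units]
    obtain ⟨r, hr⟩ := hlk
    have hr0 : 0 < Fintype.card k - 1 := by omega
    have h1 : IsPrimitiveRoot g (Fintype.card k - 1) := ho ▸ IsPrimitiveRoot.orderOf g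
    have h3 : IsPrimitiveRoot (g ^ r) ℓ := by
      exact h1.pow hr0 (by rw [hr, mul_comm])
    exact ⟨((g ^ r : kˣ) : k), IsPrimitiveRoot.coe_units_iff.2 h3⟩
  have S : SYM0 ℓ k := Pool.Agent.Y37.SZ.t ℓ k hl2 hlk
  have S' : SYM ℓ k := ⟨S, Pool.Agent.Y287.SZ.Chr.t ℓ k hl2 hlk hchar S⟩
  have H : Geo ℓ a N := ⟨S, hCOMB, hl2, hlk0, hn, hn3, hN, hdeg, hsq⟩
  have hcN : (Nat.card k : ℝ) = (Fintype.card k : ℝ) := by rw [hcard]
  have e1 : ∀ m, (tw a m).ncard = ((Sf k m).filter (nb (QQ a))).card := by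
    intro m
    rw [← Set.ncard_coe_finset]
    congr 1
    ext E
    rw [Finset.mem_coe, mem_filter, mem_Sf]
    show (_ ∧ _ ∧ _ ∧ _) ↔ _
    constructor
    · rintro ⟨a1, a2, a3, a4⟩
      exact ⟨⟨a1, a2, a3⟩, (nb_iff H a1).2 a4⟩
    · rintro ⟨⟨a1, a2, a3⟩, a4⟩
      exact ⟨a1, a2, a3, (nb_iff H a1).1 a4⟩
  have e2 : ∀ m, ((Sf k m).filter (fun E => nb (QQ a) E ∧ Good ℓ K a E)).card ≤
      ({E ∈ tw a m | Good ℓ K a E}).ncard := by
    intro m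
    rw [← Set.ncard_coe_finset]
    apply Set.ncard_le_ncard
    · intro E hE
      rw [Finset.mem_coe, mem_filter, mem_Sf] at hE
      obtain ⟨⟨a1, a2, a3⟩, a4, a5⟩ := hE
      exact ⟨⟨a1, a2, a3, (nb_iff H a1).1 a4⟩, a5⟩
    · apply Set.Finite.subset (Finset.finite_toSet (Sf k m))
      rintro E ⟨⟨a1, a2, a3, -⟩, -⟩
      exact mem_Sf.2 ⟨a1, a2, a3⟩
  have hMAIN := Pool.Agent.Y261.SZ.t Pool.Agent.Y290.SZ.t
  have main : ∀ c : ℝ, 0 ≤ c → (∀ σ : Tau a → ZMod ℓ, CellEst (H.dat σ) (QQ a) c) → _ :=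
    fun c hc0 hce => hMAIN ℓ k S' hchar hq (SW ℓ n) (Tau a) (QQ a) H.fam (Good ℓ K a)
      (fun σ => H.dat σ) (fun σ => rfl) (fun σ σ' => rfl) ((n : ZMod ℓ) * (N : ZMod ℓ))
      (fun σ => rfl) (fun σ => imp_good H hCRIT hζ σ) c hc0 hce
  haveI : Finite (SW ℓ n) := inferInstance
  have hcell : ∀ (Kk : ℕ), Odd Kk → ∀ ε : ℝ, 0 < ε → ∀ σ : Tau a → ZMod ℓ,
      CellEst (H.dat σ) (QQ a) (cK ℓ Kk - ε) := fun Kk hK ε hε σ =>
    cell_thm ℓ hl2 k (SW ℓ n) (Tau a) (H.dat σ) (H.conn σ) (QQ a) Kk hK ε hε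
  obtain ⟨hE1, hE2⟩ := Pool.Agent.Y515.SZ.t ℓ (by omega)
  obtain ⟨κ, hκ⟩ : ∃ κ : ℝ, κ = ∏' i : ℕ, (1 + ((ℓ : ℝ)⁻¹) ^ (i + 1))⁻¹ := ⟨_, rfl⟩
  rw [← hκ] at hE1 hE2 ⊢
  -- the choice of the order of the moments
  have hch : ∀ ε : ℝ, 0 < ε → ∃ Kk : ℕ, Odd Kk ∧ κ - ε ≤ cK ℓ Kk := by
    intro ε hε
    obtain ⟨K0, hK0⟩ := eventually_atTop.1 (hE1.eventually_const_le (show κ - ε < κ by linarith))
    exact ⟨2 * K0 + 1, ⟨K0, rfl⟩, hK0 _ (by omega)⟩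
  constructor
  · obtain ⟨Kk, hKo, hK⟩ := hch (κ / 2) (by linarith)
    obtain ⟨⟨c, hc, h⟩, -⟩ := main (cK ℓ Kk - κ / 4) (by linarith) (hcell Kk hKo _ (by linarith))
    refine ⟨c, hc, ?_⟩
    filter_upwards [h] with m hm
    rw [e1, hcN]
    exact hm
  · intro ε hε
    by_cases hεκ : κ ≤ ε
    · filter_upwards with m _
      have h3 : (0 : ℝ) ≤ ((tw a m).ncard : ℝ) := Nat.cast_nonneg _
      have h4 : (0 : ℝ) ≤ (({E ∈ tw a m | Good ℓ K a E}).ncard : ℝ) := Nat.cast_nonneg _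
      nlinarith
    push Not at hεκ
    obtain ⟨Kk, hKo, hK⟩ := hch (ε / 3) (by linarith)
    obtain ⟨-, hmain⟩ := main (cK ℓ Kk - ε / 3) (by linarith) (hcell Kk hKo _ (by linarith))
    filter_upwards [hmain (ε / 3) (by linarith)] with m hm ho
    rw [e1]
    have h3 : IsUnit ((m : ZMod ℓ) + (n : ZMod ℓ) * (N : ZMod ℓ)) := by
      rw [isUnit_iff_ne_zero]
      intro h
      apply ho
      rw [← ZMod.natCast_eq_zero_iff]
      push_cast
      exact h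
    have h4 := (hm h3).trans (show _ ≤ (({E ∈ tw a m | Good ℓ K a E}).ncard : ℝ) by
      exact_mod_cast e2 m)
    refine le_trans ?_ h4
    apply mul_le_mul_of_nonneg_right _ (Nat.cast_nonneg _)
    linarith

end Pool.Agent.Y164.SZ
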