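import Pool.Agent.Y164.SZ.Stm2
import Pool.Agent.Y164.HG.Imp
import Pool.Agent.Y287.SZ.Rk

/-!
Twists with trivial kernel.
-/

set_option autoImplicit false
set_option linter.all false

open Polynomial IsDedekindDomain
open scoped Classical

namespace Pool.Agent.Y164.SZ

open Finset
open Pool.Agent.Y713.SE (tDat)
open Pool.Agent.Y713.SE.Dat (au)
open Pool.Agent.Y713.Jac (J ShaPrimaryTrivial)
open Pool.Agent.Y164.PS (Fam)
open Pool.Agent.Y164.HG (cur)

theorem triv_one {ℓ n : ℕ} {K : Type} [Field K] (D : Y713.SE.Dat ℓ n K) {E F Ω : Type} [Field E]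
    [Algebra K E] [Field F] [Algebra K F] [Field Ω]
    [Algebra K Ω] [Algebra F Ω] [IsScalarTower K F Ω] (ι : E →ₐ[K] Ω) :
    D.Triv (L := E) F Ω (fun _ => 1) :=
  ⟨ι, 1, fun τ σ h => by rw [map_one, map_one, div_one]⟩

/-- the conclusion for the twist by `E` -/
def Good {k : Type} [Field k] (ℓ : ℕ) (K : Type) [Field K] [Algebra k[X] K]
    [IsFractionRing k[X] K] {n : ℕ} (a : Fin n → k[X]) (E : k[X]) : Prop :=
  ShaPrimaryTrivial ℓ (cur K a E) k[X] ∧
  ∀ x : J ℓ (cur K a E) K, ∃ t y : J ℓ (cur K a E) K, t ^ ℓ = 1 ∧ x = t * y ^ ℓ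

section
variable {ℓ : ℕ} [hℓ : Fact ℓ.Prime]
variable {k K : Type} [Field k] [Fintype k] [DecidableEq k] [Field K] [Algebra k[X] K]
  [IsFractionRing k[X] K]
variable {n : ℕ} {a : Fin n → k[X]} {N : ℕ} (H : Geo ℓ a N)

include H in
theorem imp_good (hCRIT : S_CRIT) {ζ : k} (hζ : IsPrimitiveRoot ζ ℓ) (σ : Tau a → ZMod ℓ) :
    Imp (H.dat σ) (QQ a) (Good ℓ K a) := by
  intro ι _ T hR hcl hpar htr
  have hinj : Function.Injective (algebraMap k[X] K) := IsFractionRing.injective k[X] K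
  have hT0 : (∏ i, T i) ≠ 0 := prod_ne_zero_iff.2 fun i _ => (hR.irr (Sum.inl i)).ne_zero
  have hδ : algebraMap k[X] K (∏ i, T i) ≠ 0 := (map_ne_zero_iff _ hinj).2 hT0
  have he : Function.Injective (fun i => algebraMap k[X] K (a i)) := by
    intro i j hij
    by_contra hne
    exact H.ne hne (sub_eq_zero.2 (hinj hij))
  obtain ⟨D0, hD⟩ : ∃ D0 : Y713.SE.Dat ℓ n K, D0 = tDat K hℓ.out H.hlk hζ hδ he H.hn :=
    ⟨_, rfl⟩
  have hDδ : D0.δ = algebraMap k[X] K (∏ i, T i) := by rw [hD]; rfl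
  have hDe : ∀ i, D0.e i = algebraMap k[X] K (a i) := fun i => by rw [hD]; rfl
  have hf : D0.f = cur K a (∏ i, T i) := by
    rw [Y713.SE.Dat.f, hDδ, cur]
    simp only [hDe]
  obtain ⟨p, hexp⟩ := ExpChar.exists K
  haveI := hexp
  haveI : ExpChar (SeparableClosure K) p :=
    expChar_of_injective_algebraMap (algebraMap K (SeparableClosure K)).injective p
  haveI : ∀ v : HeightOneSpectrum k[X], ExpChar (SeparableClosure (v.adicCompletion K)) p := fun v =>
    expChar_of_injective_algebraMap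
      (algebraMap K (SeparableClosure (v.adicCompletion K))).injective p
  have key := hCRIT ℓ k K n a N H ι T hR D0 hDδ hDe σ hcl hpar htr (SeparableClosure K) p
    (fun v : HeightOneSpectrum k[X] => SeparableClosure (v.adicCompletion K))
  unfold Good
  rw [← hf]
  constructor
  · apply D0.sha_primary (R := k[X])
    intro χ hc ht
    obtain ⟨m, Q, -, hQ⟩ := key χ hc ht
    exact ⟨Q, hQ⟩
  · intro x
    obtain ⟨t, y, ht, hy⟩ := Pool.Agent.Y287.SZ.Rk.t ℓ n K D0 (SeparableClosure K) p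
      (fun c => ∀ v : HeightOneSpectrum k[X], D0.Triv (v.adicCompletion K)
        (SeparableClosure (v.adicCompletion K)) c)
      (fun v => triv_one D0 (IsSepClosed.lift))
      (fun c Q h v => (h v).div D0 Q) key ((D0.Te K).symm x)
    refine ⟨D0.Te K t, D0.Te K y, ?_, ?_⟩
    · rw [← map_pow, ht, map_one]
    · rw [← map_pow, ← map_mul, ← hy, MulEquiv.apply_symm_apply]

end

end Pool.Agent.Y164.SZ
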