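import Pool.Agent.Y164.SZ.Cfg
import Pool.Agent.Y164.SZ.Def
import Pool.Agent.Y164.PS.Avg

/-!
Averages over tuples of primes.
-/

set_option autoImplicit false
set_option linter.all false

namespace Pool.Agent.Y164.SZ

open Finset Polynomial
open Pool.Agent.Y164.PS (sum_update)
open scoped Classical

section chr
variable {ℓ : ℕ} [hp : Fact ℓ.Prime]

/-- the additive character -/
noncomputable def eC (x : ZMod ℓ) : ℂ := ZMod.stdAddChar x

theorem eC_add (x y : ZMod ℓ) : eC (x + y) = eC x * eC y := AddChar.map_add_eq_mul _ _ _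

theorem eC_zero : eC (0 : ZMod ℓ) = 1 := AddChar.map_zero_eq_one _

theorem eC_ne {x : ZMod ℓ} (h : x ≠ 0) : eC x ≠ 1 := by
  intro h1
  apply h
  apply ZMod.injective_stdAddChar
  rw [AddChar.map_zero_eq_one]
  exact h1

theorem norm_eC (x : ZMod ℓ) : ‖eC x‖ = 1 := by
  apply Complex.norm_eq_one_of_pow_eq_one (n := ℓ) _ hp.out.ne_zero
  rw [eC, ← AddChar.map_nsmul_eq_pow, nsmul_eq_mul, ZMod.natCast_self, zero_mul,
    AddChar.map_zero_eq_one]

theorem eC_sum {α : Type} (s : Finset α) (f : α → ZMod ℓ) : eC (∑ a ∈ s, f a) = ∏ a ∈ s, eC (f a) := by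
  induction s using Finset.induction_on with
  | empty => rw [sum_empty, prod_empty, eC_zero]
  | insert a s ha ih => rw [sum_insert ha, prod_insert ha, eC_add, ih]

end chr

section orth

variable {ℓ : ℕ} [hp : Fact ℓ.Prime] {W : Type} [AddCommGroup W] [Module (ZMod ℓ) W] [Fintype W]
variable {ι τ : Type} [Fintype ι] [Fintype τ]
variable (D : FDat ℓ W τ) {A : ι → ι → ZMod ℓ} (B : ι → τ → ZMod ℓ) (d : ι → ZMod ℓ)

/-- membership in the kernel -/
def InK (A : ι → ι → ZMod ℓ) (B : ι → τ → ZMod ℓ) (d : ι → ZMod ℓ) (w : V ℓ W ι τ) : Prop :=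
  ∀ w', dg D d w' = 0 → FF D A B d w w' = 0

theorem orth1 (hA : ∀ i j, A i j = A j i) (w : V ℓ W ι τ) :
    ∑ w' ∈ V0s D d, eC (FF D A B d w w') =
      if InK D A B d w then ((V0s D d).card : ℂ) else 0 := by
  split_ifs with h
  · rw [sum_congr rfl (fun w' hw' => by rw [h w' ((mem_V0s D d).1 hw'), eC_zero])]
    simp
  · rw [InK] at h
    push Not at h
    obtain ⟨u, hu, hne⟩ := h
    have hdu : ∀ x : V ℓ W ι τ, dg D d (x - u) = dg D d x := by
      intro x
      rw [← dgL_apply, map_sub, dgL_apply, dgL_apply, hu, sub_zero]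
    have h2 : ∑ w' ∈ V0s D d, eC (FF D A B d w w') =
        ∑ w' ∈ V0s D d, eC (FF D A B d w (w' + u)) := by
      refine sum_nbij' (fun w' => w' - u) (fun w' => w' + u) ?_ ?_ ?_ ?_ ?_
      · intro x hx
        exact (mem_V0s D d).2 (by rw [hdu, (mem_V0s D d).1 hx])
      · intro x hx
        exact (mem_V0s D d).2 (by rw [dg_add, (mem_V0s D d).1 hx, hu, add_zero])
      · intro x _
        exact sub_add_cancel x u
      · intro x _
        exact add_sub_cancel_right x u
      · intro x _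
        show _ = eC (FF D A B d w (x - u + u))
        rw [sub_add_cancel]
    have h3 : ∀ w', eC (FF D A B d w (w' + u)) = eC (FF D A B d w w') * eC (FF D A B d w u) := by
      intro w'
      rw [FF_add_right D A B d hA, eC_add]
    rw [sum_congr rfl (fun w' _ => h3 w'), ← sum_mul] at h2
    have h4 : (∑ w' ∈ V0s D d, eC (FF D A B d w w')) * (1 - eC (FF D A B d w u)) = 0 := by
      rw [mul_sub, mul_one, ← h2, sub_self]
    rcases mul_eq_zero.1 h4 with h5 | h5
    · exact h5
    · exact absurd (sub_eq_zero.1 h5).symm (eC_ne hne)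

/-- the number of linearly independent tuples in the kernel -/
noncomputable def kLI (D : FDat ℓ W τ) (A : ι → ι → ZMod ℓ) (B : ι → τ → ZMod ℓ) (d : ι → ZMod ℓ)
    (j : ℕ) : ℕ :=
  ((LIs D d j).filter fun w => ∀ a, InK D A B d (w a)).card

theorem orth2 (hA : ∀ i j, A i j = A j i) (j : ℕ) :
    (kLI D A B d j : ℂ) * ((V0s D d).card : ℂ) ^ j =
      ∑ w ∈ LIs D d j, ∑ w' ∈ Fintype.piFinset (fun _ : Fin j => V0s D d),
        eC (∑ a, FF D A B d (w a) (w' a)) := by
  have h1 : ∀ w ∈ LIs D d j, ∑ w' ∈ Fintype.piFinset (fun _ : Fin j => V0s D d),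
        eC (∑ a, FF D A B d (w a) (w' a)) =
      if (∀ a, InK D A B d (w a)) then ((V0s D d).card : ℂ) ^ j else 0 := by
    intro w _
    simp only [eC_sum]
    rw [← Finset.prod_univ_sum (fun _ : Fin j => V0s D d) (fun a w' => eC (FF D A B d (w a) w'))]
    rw [prod_congr rfl (fun a _ => orth1 D B d hA (w a))]
    split_ifs with h
    · rw [prod_congr rfl (fun a _ => if_pos (h a)), prod_const, card_univ, Fintype.card_fin]
    · push Not at h
      obtain ⟨a, ha⟩ := h
      exact prod_eq_zero (mem_univ a) (if_neg ha)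
  rw [sum_congr rfl h1, ← sum_filter, sum_const, nsmul_eq_mul, kLI]

theorem orth3 (f : τ → ZMod ℓ) :
    (if (∀ s, f s = 0) then (ℓ : ℂ) ^ Fintype.card τ else 0) =
      ∑ U : τ → ZMod ℓ, eC (∑ s, U s * f s) := by
  split_ifs with h
  · simp only [h, mul_zero, sum_const_zero, eC_zero, sum_const, card_univ, nsmul_eq_mul, mul_one]
    rw [Fintype.card_fun, ZMod.card]
    push_cast
    rfl
  · push Not at h
    obtain ⟨s, hs⟩ := h
    obtain ⟨e, he⟩ : ∃ e : τ → ZMod ℓ, e = Pi.single s 1 := ⟨_, rfl⟩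
    have h2 : ∑ U : τ → ZMod ℓ, eC (∑ s, U s * f s) =
        ∑ U : τ → ZMod ℓ, eC (∑ s', (U + e) s' * f s') := by
      refine sum_nbij' (fun U => U - e) (fun U => U + e) ?_ ?_ ?_ ?_ ?_
      · intro x _
        exact mem_univ _
      · intro x _
        exact mem_univ _
      · intro x _
        exact sub_add_cancel x _
      · intro x _
        exact add_sub_cancel_right x _
      · intro x _
        show _ = eC (∑ s', (x - e + e) s' * f s')
        rw [sub_add_cancel]
    have h3 : ∀ U : τ → ZMod ℓ, eC (∑ s', (U + e) s' * f s') =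
        eC (∑ s', U s' * f s') * eC (f s) := by
      intro U
      rw [← eC_add]
      congr 1
      simp only [Pi.add_apply, add_mul, sum_add_distrib]
      congr 1
      rw [sum_eq_single s]
      · rw [he, Pi.single_eq_same, one_mul]
      · intro b _ hb
        rw [he, Pi.single_eq_of_ne hb, zero_mul]
      · intro h
        exact absurd (mem_univ _) h
    rw [sum_congr rfl (fun U _ => h3 U), ← sum_mul] at h2
    have h4 : (∑ U : τ → ZMod ℓ, eC (∑ s, U s * f s)) * (1 - eC (f s)) = 0 := by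
      rw [mul_sub, mul_one, ← h2, sub_self]
    rcases mul_eq_zero.1 h4 with h5 | h5
    · exact h5.symm
    · exact absurd (sub_eq_zero.1 h5).symm (eC_ne hs)

omit [Fintype W] in
theorem FF_split (hA : ∀ i j, A i j = A j i) (w w' : V ℓ W ι τ) (j : ι) :
    FF D A B d w w' = FF D (fun i i' => if i = j ∨ i' = j then 0 else A i i')
      (fun i s => if i = j then 0 else B i s) d w w' +
      (- ∑ i ∈ univ.erase j, A i j * D.om (w.1 i - w.1 j) (w'.1 i - w'.1 j) +
      ∑ s, B j s * (w.2 s * D.om (D.t s) (w'.1 j) + w'.2 s * D.om (w.1 j) (D.t s) -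
        D.om (w.1 j) (D.t s) * D.om (w'.1 j) (D.t s))) := by
  have e1 : ∑ i, ∑ i', A i i' * D.om (w.1 i' - w.1 i) (w'.1 i) =
      ∑ i, ∑ i', (if i = j ∨ i' = j then 0 else A i i') * D.om (w.1 i' - w.1 i) (w'.1 i) +
      - ∑ i ∈ univ.erase j, A i j * D.om (w.1 i - w.1 j) (w'.1 i - w'.1 j) := by
    obtain ⟨c, hc⟩ : ∃ c : ι → ι → ZMod ℓ, c = fun i i' => D.om (w.1 i' - w.1 i) (w'.1 i) :=
      ⟨_, rfl⟩
    have hc' : ∀ i i', D.om (w.1 i' - w.1 i) (w'.1 i) = c i i' := fun i i' => by rw [hc]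
    simp only [hc']
    have hcc : ∀ i, c i i = 0 := fun i => by rw [hc]; simp
    have h1 : ∀ i i', A i i' * c i i' = (if i = j ∨ i' = j then 0 else A i i') * c i i' +
        (if i = j ∨ i' = j then A i i' * c i i' else 0) := by
      intro i i'
      split_ifs
      · rw [zero_mul, zero_add]
      · rw [add_zero]
    have h2 : ∑ i, ∑ i', (if i = j ∨ i' = j then A i i' * c i i' else 0) =
        - ∑ i ∈ univ.erase j, A i j * D.om (w.1 i - w.1 j) (w'.1 i - w'.1 j) := by
      rw [← add_sum_erase univ _ (mem_univ j)]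
      have h3 : ∑ i', (if j = j ∨ i' = j then A j i' * c j i' else 0) =
          ∑ i' ∈ univ.erase j, A j i' * c j i' := by
        rw [← add_sum_erase univ _ (mem_univ j), if_pos (Or.inl rfl), hcc, mul_zero, zero_add]
        exact sum_congr rfl fun i' _ => if_pos (Or.inl rfl)
      have h4 : ∀ i ∈ univ.erase j, ∑ i', (if i = j ∨ i' = j then A i i' * c i i' else 0) =
          A i j * c i j := by
        intro i hi
        have hij : i ≠ j := ne_of_mem_erase hi
        rw [sum_eq_single j]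
        · rw [if_pos (Or.inr rfl)]
        · intro b _ hb
          rw [if_neg]
          rintro (h | h)
          · exact hij h
          · exact hb h
        · intro h
          exact absurd (mem_univ _) h
      rw [h3, sum_congr rfl h4, ← sum_add_distrib, ← sum_neg_distrib]
      refine sum_congr rfl fun i _ => ?_
      rw [hA j i, hc]
      simp only [map_sub, LinearMap.sub_apply]
      ring
    rw [← h2, ← sum_add_distrib]
    refine sum_congr rfl fun i _ => ?_
    rw [← sum_add_distrib]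
    exact sum_congr rfl fun i' _ => h1 i i'
  have e2 : ∑ i, ∑ s, B i s * (w.2 s * D.om (D.t s) (w'.1 i) + w'.2 s * D.om (w.1 i) (D.t s) -
      D.om (w.1 i) (D.t s) * D.om (w'.1 i) (D.t s)) =
      ∑ i, ∑ s, (if i = j then 0 else B i s) * (w.2 s * D.om (D.t s) (w'.1 i) +
      w'.2 s * D.om (w.1 i) (D.t s) - D.om (w.1 i) (D.t s) * D.om (w'.1 i) (D.t s)) +
      ∑ s, B j s * (w.2 s * D.om (D.t s) (w'.1 j) + w'.2 s * D.om (w.1 j) (D.t s) -
        D.om (w.1 j) (D.t s) * D.om (w'.1 j) (D.t s)) := by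
    have h1 : ∀ i, ∑ s, B i s * (w.2 s * D.om (D.t s) (w'.1 i) + w'.2 s * D.om (w.1 i) (D.t s) -
        D.om (w.1 i) (D.t s) * D.om (w'.1 i) (D.t s)) =
      ∑ s, (if i = j then 0 else B i s) * (w.2 s * D.om (D.t s) (w'.1 i) +
      w'.2 s * D.om (w.1 i) (D.t s) - D.om (w.1 i) (D.t s) * D.om (w'.1 i) (D.t s)) +
      (if i = j then ∑ s, B i s * (w.2 s * D.om (D.t s) (w'.1 i) +
      w'.2 s * D.om (w.1 i) (D.t s) - D.om (w.1 i) (D.t s) * D.om (w'.1 i) (D.t s)) else 0) := by
      intro i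
      split_ifs
      · simp
      · rw [add_zero]
    rw [sum_congr rfl (fun i _ => h1 i), sum_add_distrib]
    congr 1
    rw [sum_ite_eq']
    rw [if_pos (mem_univ _)]
  rw [FF, e1, e2, FF]
  ring

omit [Fintype W] in
/-- the splitting for tuples -/
theorem FF_split' (hA : ∀ i j, A i j = A j i) {m : ℕ} (w w' : Fin m → V ℓ W ι τ) (j : ι) :
    ∑ a, FF D A B d (w a) (w' a) = ∑ a, FF D (fun i i' => if i = j ∨ i' = j then 0 else A i i')
      (fun i s => if i = j then 0 else B i s) d (w a) (w' a) +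
      (- ∑ i ∈ univ.erase j, A i j * Oq D (lab w w' i - lab w w' j) +
      ∑ s, B j s * ee D s (zet w w' s) (lab w w' j)) := by
  rw [sum_congr rfl (fun a _ => FF_split D B d hA (w a) (w' a) j), sum_add_distrib,
    sum_add_distrib]
  congr 1
  congr 1
  · rw [sum_neg_distrib, sum_comm]
    congr 1
    refine sum_congr rfl fun i _ => ?_
    rw [Oq, mul_sum]
    rfl
  · rw [sum_comm]
    refine sum_congr rfl fun s _ => ?_
    rw [ee, Hb, Hq, ← sum_sub_distrib, mul_sum]
    refine sum_congr rfl fun a _ => ?_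
    show B j s * ((w a).2 s * D.om (D.t s) ((w' a).1 j) + (w' a).2 s * D.om ((w a).1 j) (D.t s) -
        D.om ((w a).1 j) (D.t s) * D.om ((w' a).1 j) (D.t s)) = B j s *
      ((w a).2 s * D.om ((w' a).1 j) (D.t s) + (w' a).2 s * D.om ((w a).1 j) (D.t s) -
        D.om ((w a).1 j) (D.t s) * D.om ((w' a).1 j) (D.t s))
    rw [D.om_comm (D.t s)]

end orth

section poly

theorem prod_not_pow {k : Type} [Field k] {α : Type} (ℓ : ℕ) (S : Finset α)
    (hS : S.Nonempty) (R : α → k[X]) (n : α → ℕ) (hn : ∀ x ∈ S, 0 < n x ∧ n x < ℓ)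
    (hm : ∀ x ∈ S, (R x).Monic) (hi : ∀ x ∈ S, Irreducible (R x))
    (hinj : ∀ x ∈ S, ∀ y ∈ S, R x = R y → x = y) (c : k) (h : k[X]) :
    ∏ x ∈ S, R x ^ n x ≠ C c * h ^ ℓ := by
  intro heq
  obtain ⟨x, hx⟩ := hS
  have hne : ∏ x ∈ S, R x ^ n x ≠ 0 := prod_ne_zero_iff.2 fun y hy => pow_ne_zero _ (hm y hy).ne_zero
  have hc : c ≠ 0 := by
    rintro rfl
    rw [C_0, zero_mul] at heq
    exact hne heq
  have hd : R x ∣ h := by
    have h1 : R x ∣ C c * h ^ ℓ := by
      rw [← heq]
      exact (dvd_pow_self _ (hn x hx).1.ne').trans (dvd_prod_of_mem (fun x => R x ^ n x) hx)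
    rcases (hi x hx).prime.dvd_or_dvd h1 with h2 | h2
    · exact absurd (isUnit_of_dvd_unit h2 (isUnit_C.2 (isUnit_iff_ne_zero.2 hc))) (hi x hx).not_isUnit
    · exact (hi x hx).prime.dvd_of_dvd_pow h2
  obtain ⟨h', rfl⟩ := hd
  rw [← mul_prod_erase S _ hx] at heq
  obtain ⟨r, hr⟩ : ∃ r, ℓ = n x + (r + 1) := ⟨ℓ - n x - 1, by have := (hn x hx).2; omega⟩
  have h3 : ∏ y ∈ S.erase x, R y ^ n y = R x * (R x ^ r * C c * h' ^ ℓ) := by
    apply mul_left_cancel₀ (pow_ne_zero (n x) (hm x hx).ne_zero)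
    rw [heq]
    have : (R x * h') ^ ℓ = R x ^ (n x) * R x ^ r * R x * h' ^ ℓ := by
      rw [mul_pow]
      congr 1
      conv_lhs => rw [hr]
      rw [pow_add, pow_succ]
      ring
    rw [this]; ring
  have h4 : R x ∣ ∏ y ∈ S.erase x, R y ^ n y := ⟨_, h3⟩
  rw [(hi x hx).prime.dvd_finset_prod_iff] at h4
  obtain ⟨y, hy, h5⟩ := h4
  have hy' := mem_of_mem_erase hy
  have h6 : R x = R y := eq_of_monic_of_associated (hm x hx) (hm y hy')
    ((hi x hx).associated_of_dvd (hi y hy') ((hi x hx).prime.dvd_of_dvd_pow h5))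
  exact ne_of_mem_erase hy (hinj x hx y hy' h6).symm

theorem sum_updateC {ι α : Type} [Fintype ι] [DecidableEq ι] (𝒞 : ι → Finset α) (j : ι)
    (f : (ι → α) → ℂ) :
    ((𝒞 j).card : ℂ) * ∑ T ∈ Fintype.piFinset 𝒞, f T =
      ∑ T ∈ Fintype.piFinset 𝒞, ∑ p ∈ 𝒞 j, f (Function.update T j p) := by
  have h1 := sum_update 𝒞 j (fun T => (f T).re)
  have h2 := sum_update 𝒞 j (fun T => (f T).im)
  apply Complex.ext
  · simp only [Complex.mul_re, Complex.re_sum, Complex.natCast_re, Complex.natCast_im, zero_mul,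
      sub_zero]
    exact h1
  · simp only [Complex.mul_im, Complex.im_sum, Complex.natCast_re, Complex.natCast_im, zero_mul,
      add_zero]
    exact h2

end poly

end Pool.Agent.Y164.SZ
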