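import Mathlib

/-!
Inclusion-exclusion for subspaces of vector spaces over a finite field.
-/

set_option autoImplicit false
set_option linter.all false

namespace Pool.Agent.Y164.SZ

open Finset

theorem den_eq (l : ℝ) (j : ℕ) :
    ∏ i ∈ range j, (l ^ j - l ^ i) = l ^ (j * (j - 1) / 2) * ∏ i ∈ range j, (l ^ (i + 1) - 1) := by
  have h1 : ∀ i ∈ range j, l ^ j - l ^ i = l ^ i * (l ^ (j - 1 - i + 1) - 1) := by
    intro i hi
    rw [mem_range] at hi
    have : j = i + (j - 1 - i + 1) := by omega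
    rw [mul_sub, mul_one, ← pow_add, ← this]
  rw [prod_congr rfl h1, prod_mul_distrib, prod_pow_eq_pow_sum, sum_range_id]
  congr 1
  exact prod_range_reflect (fun i => l ^ (i + 1) - 1) j

theorem num_eq (l x : ℝ) (K : ℕ) :
    ∏ i ∈ range (K + 1), (x - l ^ i) = (-1) ^ K * (x - 1) * ∏ i ∈ range K, (l ^ (i + 1) - x) := by
  rw [prod_range_succ', pow_zero]
  have h1 : ∏ i ∈ range K, (x - l ^ (i + 1)) = (-1) ^ K * ∏ i ∈ range K, (l ^ (i + 1) - x) := by
    rw [← card_range K, ← prod_const, card_range, ← prod_mul_distrib]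
    exact prod_congr rfl fun i _ => by ring
  rw [h1]
  ring

theorem pow_sub_one_pos {l : ℝ} (hl : 1 < l) (i : ℕ) : 0 < l ^ (i + 1) - 1 := by
  have := one_lt_pow₀ hl (n := i + 1) (by omega)
  linarith

/-- partial sums -/
theorem bon_id {l : ℝ} (hl : 1 < l) (x : ℝ) (K : ℕ) :
    ∑ j ∈ range (K + 1), (-1) ^ j * l ^ (j * (j - 1) / 2) * (∏ i ∈ range j, (x - l ^ i)) /
      ∏ i ∈ range j, (l ^ j - l ^ i) = ∏ i ∈ range K, (l ^ (i + 1) - x) / (l ^ (i + 1) - 1) := by
  induction K with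
  | zero => simp
  | succ K ih =>
    rw [sum_range_succ, ih, den_eq l (K + 1), num_eq l x K,
      prod_range_succ (fun i => (l ^ (i + 1) - x) / (l ^ (i + 1) - 1)), prod_div_distrib]
    have hl0 : l ^ ((K + 1) * (K + 1 - 1) / 2) ≠ 0 := by positivity
    have h1 : ∏ i ∈ range K, (l ^ (i + 1) - 1) ≠ 0 :=
      prod_ne_zero_iff.2 fun i _ => (pow_sub_one_pos hl i).ne'
    have h2 : l ^ (K + 1) - 1 ≠ 0 := (pow_sub_one_pos hl K).ne'
    have h3 : ((-1 : ℝ)) ^ K * (-1) ^ K = 1 := by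
      rw [← mul_pow]; norm_num
    rw [prod_range_succ (fun i => l ^ (i + 1) - 1)]
    have e1 : (-1 : ℝ) ^ (K + 1) * l ^ ((K + 1) * (K + 1 - 1) / 2) *
        ((-1) ^ K * (x - 1) * ∏ i ∈ range K, (l ^ (i + 1) - x)) =
        l ^ ((K + 1) * (K + 1 - 1) / 2) * (-(((-1) ^ K * (-1) ^ K) * (x - 1) *
          ∏ i ∈ range K, (l ^ (i + 1) - x))) := by
      rw [pow_succ]; ring
    rw [e1, h3, mul_div_mul_left _ _ hl0]
    generalize (∏ i ∈ range K, (l ^ (i + 1) - 1)) = a at *
    generalize (∏ i ∈ range K, (l ^ (i + 1) - x)) = b at *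
    generalize l ^ (K + 1) = y at *
    field_simp
    ring

/-- the inequality -/
theorem bon {l : ℝ} (hl : 1 < l) {K : ℕ} (hK : Odd K) (r : ℕ) :
    ∑ j ∈ range (K + 1), (-1) ^ j * l ^ (j * (j - 1) / 2) * (∏ i ∈ range j, (l ^ r - l ^ i)) /
      ∏ i ∈ range j, (l ^ j - l ^ i) ≤ if r = 0 then 1 else 0 := by
  rw [bon_id hl]
  split_ifs with h
  · rw [h, pow_zero]
    apply le_of_eq
    apply prod_eq_one
    intro i _
    exact div_self (pow_sub_one_pos hl i).ne'
  · by_cases hr : r ≤ K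
    · apply le_of_eq
      apply prod_eq_zero (i := r - 1) (mem_range.2 (by omega))
      rw [Nat.sub_add_cancel (by omega), sub_self, zero_div]
    · have h1 : ∏ i ∈ range K, (l ^ (i + 1) - l ^ r) / (l ^ (i + 1) - 1) =
          (-1) ^ K * ∏ i ∈ range K, (l ^ r - l ^ (i + 1)) / (l ^ (i + 1) - 1) := by
        rw [← card_range K, ← prod_const, card_range, ← prod_mul_distrib]
        exact prod_congr rfl fun i _ => by ring
      rw [h1, hK.neg_one_pow]
      have h2 : 0 ≤ ∏ i ∈ range K, (l ^ r - l ^ (i + 1)) / (l ^ (i + 1) - 1) := by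
        apply prod_nonneg
        intro i hi
        rw [mem_range] at hi
        apply div_nonneg _ (pow_sub_one_pos hl i).le
        rw [sub_nonneg]
        exact pow_le_pow_right₀ hl.le (by omega)
      linarith

end Pool.Agent.Y164.SZ
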