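import Pool.Agent.Y164.SZ.Stm

/-!
Symbols of products of given primes.
-/

set_option autoImplicit false
set_option linter.all false

open Polynomial
open scoped Classical

namespace Pool.Agent.Y164.SZ

open Finset
open Pool.Agent.Y164.PS (el Fam el' el_eq coprime_of_not_dvd coprime_C)

variable {ℓ : ℕ} [NeZero ℓ] {k : Type} [Field k] [Fintype k] [DecidableEq k]
variable {κ : Type} [Fintype κ]

/-- the symbol of the part prime to `P` -/
noncomputable def Lm (ℓ : ℕ) (R : κ → k[X]) (r : k) (n : κ → ℕ) (P : k[X]) : ZMod ℓ :=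
  ∑ x, (n x : ZMod ℓ) * L ℓ (R x) P + (P.natDegree : ZMod ℓ) * ch ℓ r

variable {R : κ → k[X]}

theorem L_pow (S : SYM0 ℓ k) {f g : k[X]} (hg : g ≠ 0) (hf : f ≠ 0) (h : IsCoprime f g) (n : ℕ) :
    L ℓ (f ^ n) g = (n : ZMod ℓ) * L ℓ f g := by
  induction n with
  | zero =>
    rw [pow_zero, Nat.cast_zero, zero_mul]
    have := S.L_prod_left ℕ ∅ (fun _ => f) g hg (by simp) (by simp)
    simpa using this
  | succ n ih =>
    rw [pow_succ, S.L_mul_left _ _ _ hg (pow_ne_zero _ hf) hf (h.pow_left) h, ih]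
    push_cast
    ring

theorem L_el' (S : SYM0 ℓ k) (hR : Fam R) (x0 : κ) {r : k} (hr : r ≠ 0) (n : κ → ℕ) :
    L ℓ (el' R x0 r n) (R x0) = Lm ℓ R r n (R x0) := by
  have h0 := (hR.irr x0).ne_zero
  have hcop : ∀ x ∈ univ.erase x0, IsCoprime (R x ^ n x) (R x0) := fun x hx =>
    (hR.coprime (ne_of_mem_erase hx)).pow_left
  rw [el', S.L_mul_left _ _ _ h0 (C_ne_zero.2 hr)
    (prod_ne_zero_iff.2 fun x _ => pow_ne_zero _ (hR.mon x).ne_zero) (coprime_C hr _)
    (IsCoprime.prod_left hcop), S.L_C _ _ hr, S.L_prod_left _ _ _ _ h0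
    (fun x _ => pow_ne_zero _ (hR.mon x).ne_zero) hcop, Lm,
    ← add_sum_erase univ (fun x => (n x : ZMod ℓ) * L ℓ (R x) (R x0)) (mem_univ x0)]
  have h1 : L ℓ (R x0) (R x0) = 0 := by
    apply S.L_nc _ _ h0
    intro h
    exact (hR.irr x0).not_isUnit (h.isUnit_of_dvd' dvd_rfl dvd_rfl)
  rw [h1, mul_zero, zero_add, add_comm]
  congr 1
  exact sum_congr rfl fun x hx =>
    L_pow S h0 (hR.mon x).ne_zero (hR.coprime (ne_of_mem_erase hx)) _

end Pool.Agent.Y164.SZ
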