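import Pool.Agent.Y164.SZ.Avg
import Pool.Agent.Y164.SZ.El

/-!
The estimates in a cell.
-/

set_option autoImplicit false
set_option linter.all false

namespace Pool.Agent.Y164.SZ

open Finset Polynomial
open Pool.Agent.Y164.PS (coprime_of_not_dvd)
open scoped Classical

variable {ℓ : ℕ} [hp : Fact ℓ.Prime] {k : Type} [Field k] [Fintype k] [DecidableEq k]
variable {W : Type} [AddCommGroup W] [Module (ZMod ℓ) W]
variable {ι τ : Type} [Fintype ι] [Fintype τ]

/-- the phase -/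
noncomputable def Ph (D : FDat ℓ W τ) (Q : τ → k[X]) (d : ι → ZMod ℓ) (T : ι → k[X]) {m : ℕ}
    (c : CF ℓ W ι τ m) : ZMod ℓ :=
  ∑ a, FF D (AT ℓ T) (BT ℓ Q T) d (c.1 a) (c.2.1 a) +
    ∑ s, c.2.2 s * (D.sp s + ∑ i, BT ℓ Q T i s + D.g s)

/-- the part of the phase which does not depend on the `j`-th prime -/
noncomputable def PhR (D : FDat ℓ W τ) (Q : τ → k[X]) (d : ι → ZMod ℓ) (T : ι → k[X]) (j : ι)
    {m : ℕ} (c : CF ℓ W ι τ m) : ZMod ℓ :=
  ∑ a, FF D (fun i i' => if i = j ∨ i' = j then 0 else L ℓ (T i) (T i'))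
    (fun i s => if i = j then 0 else L ℓ (T i) (Q s)) d (c.1 a) (c.2.1 a) +
    ∑ s, c.2.2 s * (D.sp s + ∑ i ∈ univ.erase j, L ℓ (T i) (Q s) + D.g s)

/-- the coefficients -/
noncomputable def cf (D : FDat ℓ W τ) {m : ℕ} (c : CF ℓ W ι τ m) (j : ι) : ι ⊕ τ → ZMod ℓ :=
  Sum.elim (fun i => if i = j then 0 else - Oq D (lab c.1 c.2.1 i - lab c.1 c.2.1 j))
    (fun s => ee D s (zet c.1 c.2.1 s) (lab c.1 c.2.1 j) + c.2.2 s)

theorem AT_comm (S : SYM0 ℓ k) (T : ι → k[X]) (i j : ι) : AT ℓ T i j = AT ℓ T j i := S.L_comm _ _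

theorem Ph_split (S : SYM0 ℓ k) (D : FDat ℓ W τ) (Q : τ → k[X]) (d : ι → ZMod ℓ)
    (T : ι → k[X]) (j : ι) {m : ℕ} (c : CF ℓ W ι τ m) (p : k[X]) :
    Ph D Q d (Function.update T j p) c = PhR D Q d T j c +
      ∑ x : ι ⊕ τ, cf D c j x * L ℓ (Sum.elim T Q x) p := by
  have hne : ∀ i, i ≠ j → Function.update T j p i = T i := fun i hi => Function.update_of_ne hi _ _
  have hself : Function.update T j p j = p := Function.update_self _ _ _
  have e1 : (fun i i' => if i = j ∨ i' = j then (0 : ZMod ℓ) else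
      AT ℓ (Function.update T j p) i i') =
      fun i i' => if i = j ∨ i' = j then 0 else L ℓ (T i) (T i') := by
    funext i i'
    split_ifs with h
    · rfl
    · push Not at h
      rw [AT, hne i h.1, hne i' h.2]
  have e2 : (fun i s => if i = j then (0 : ZMod ℓ) else BT ℓ Q (Function.update T j p) i s) =
      fun i s => if i = j then 0 else L ℓ (T i) (Q s) := by
    funext i s
    split_ifs with h
    · rfl
    · rw [BT, hne i h]
  have e3 : - ∑ i ∈ univ.erase j, AT ℓ (Function.update T j p) i j *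
      Oq D (lab c.1 c.2.1 i - lab c.1 c.2.1 j) =
      ∑ i, (if i = j then 0 else - Oq D (lab c.1 c.2.1 i - lab c.1 c.2.1 j)) * L ℓ (T i) p := by
    rw [← add_sum_erase univ (fun i => (if i = j then 0 else
      - Oq D (lab c.1 c.2.1 i - lab c.1 c.2.1 j)) * L ℓ (T i) p) (mem_univ j), if_pos rfl, zero_mul,
      zero_add, ← sum_neg_distrib]
    refine sum_congr rfl fun i hi => ?_
    rw [if_neg (ne_of_mem_erase hi), AT, hne i (ne_of_mem_erase hi), hself]
    ring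
  have e4 : ∑ s, BT ℓ Q (Function.update T j p) j s *
      ee D s (zet c.1 c.2.1 s) (lab c.1 c.2.1 j) =
      ∑ s, ee D s (zet c.1 c.2.1 s) (lab c.1 c.2.1 j) * L ℓ (Q s) p := by
    refine sum_congr rfl fun s _ => ?_
    rw [BT, hself, S.L_comm, mul_comm]
  have e5 : ∑ s, c.2.2 s * (D.sp s + ∑ i, BT ℓ Q (Function.update T j p) i s + D.g s) =
      ∑ s, c.2.2 s * (D.sp s + ∑ i ∈ univ.erase j, L ℓ (T i) (Q s) + D.g s) +
      ∑ s, c.2.2 s * L ℓ (Q s) p := by
    rw [← sum_add_distrib]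
    refine sum_congr rfl fun s _ => ?_
    rw [← add_sum_erase univ _ (mem_univ j)]
    have : ∑ i ∈ univ.erase j, BT ℓ Q (Function.update T j p) i s =
        ∑ i ∈ univ.erase j, L ℓ (T i) (Q s) :=
      sum_congr rfl fun i hi => by rw [BT, hne i (ne_of_mem_erase hi)]
    rw [this, BT, hself, S.L_comm p]
    ring
  rw [Ph, FF_split' D _ d (AT_comm S _) _ _ j, e1, e2, e3, e4, e5, PhR, Fintype.sum_sum_type]
  simp only [cf, Sum.elim_inl, Sum.elim_inr, add_mul, sum_add_distrib]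
  ring

theorem norm_lc_le (S : SYM0 ℓ k) {f g : k[X]} (hg : g ≠ 0) : ‖lc ℓ f g‖ ≤ 1 := by
  by_cases h : IsCoprime f g
  · rw [S.lc_cop f g hg h]
    exact (norm_eC _).le
  · rw [S.lc_nc f g hg h, norm_zero]
    exact zero_le_one

variable {D : FDat ℓ W τ} {Q : τ → k[X]} {d : ι → ZMod ℓ} {𝒞 : ι → Finset k[X]} {lg : Finset ι}
  {Nd : ℕ} {η : ℝ} (hc : Cell ℓ Q 𝒞 lg Nd η)

include hc in
theorem inner_bound {T : ι → k[X]} (hT : T ∈ Fintype.piFinset 𝒞) {j : ι} (hj : j ∈ lg) {m : ℕ}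
    (c : CF ℓ W ι τ m) (hbad : Bad D c j) :
    ‖∑ p ∈ 𝒞 j, (if ok Q (Function.update T j p) then eC (Ph D Q d (Function.update T j p) c)
      else 0)‖ ≤ η * (𝒞 j).card := by
  have hTm : ∀ i, T i ∈ 𝒞 i := Fintype.mem_piFinset.1 hT
  by_cases hok : ∃ p0 ∈ 𝒞 j, ok Q (Function.update T j p0)
  swap
  · push Not at hok
    rw [sum_eq_zero (fun p hp => if_neg (hok p hp)), norm_zero]
    exact mul_nonneg hc.eta0 (Nat.cast_nonneg _)
  obtain ⟨p0, hp0, hok0⟩ := hok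
  set R : ι ⊕ τ → k[X] := Sum.elim T Q with hR
  have hRm : ∀ x, (R x).Monic := by
    rintro (i | s)
    · exact hc.mon i _ (hTm i)
    · exact hc.Qm s
  have hRi : ∀ x, Irreducible (R x) := by
    rintro (i | s)
    · exact hc.irr i _ (hTm i)
    · exact hc.Qi s
  have hup : ∀ p, ∀ x, x ≠ Sum.inl j → Sum.elim (Function.update T j p) Q x = R x := by
    rintro p (i | s) hx
    · have : i ≠ j := fun h => hx (by rw [h])
      show Function.update T j p i = T i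
      exact Function.update_of_ne this _ _
    · rfl
  have hupj : ∀ p, Sum.elim (Function.update T j p) Q (Sum.inl j) = p := fun p => by
    show Function.update T j p j = p
    exact Function.update_self _ _ _
  have hinj : ∀ x y, x ≠ Sum.inl j → y ≠ Sum.inl j → R x = R y → x = y := by
    intro x y hx hy h
    apply hok0
    rw [hup p0 x hx, hup p0 y hy, h]
  set E : Finset k[X] := (univ.erase (Sum.inl j)).image R with hE
  have hokp : ∀ p, ok Q (Function.update T j p) ↔ p ∉ E := by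
    intro p
    constructor
    · intro h hp
      rw [hE, mem_image] at hp
      obtain ⟨x, hx, hxp⟩ := hp
      have hx' := ne_of_mem_erase hx
      apply hx'
      apply h
      rw [hup p x hx', hupj, hxp]
    · intro hp x y hxy
      by_cases hx : x = Sum.inl j
      · by_cases hy : y = Sum.inl j
        · rw [hx, hy]
        · exfalso
          apply hp
          rw [hx, hupj, hup p y hy] at hxy
          rw [hE, mem_image]
          exact ⟨y, mem_erase.2 ⟨hy, mem_univ _⟩, hxy.symm⟩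
      · by_cases hy : y = Sum.inl j
        · exfalso
          apply hp
          rw [hy, hupj, hup p x hx] at hxy
          rw [hE, mem_image]
          exact ⟨x, mem_erase.2 ⟨hx, mem_univ _⟩, hxy⟩
        · rw [hup p x hx, hup p y hy] at hxy
          exact hinj x y hx hy hxy
  set S : Finset (ι ⊕ τ) := univ.filter fun x => cf D c j x ≠ 0 with hS
  have hSj : ∀ x ∈ S, x ≠ Sum.inl j := by
    rintro x hx rfl
    apply (mem_filter.1 hx).2
    show (if j = j then (0 : ZMod ℓ) else _) = 0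
    exact if_pos rfl
  have hSne : S.Nonempty := by
    rcases hbad with ⟨i, hij, h⟩ | ⟨s, h⟩
    · refine ⟨Sum.inl i, mem_filter.2 ⟨mem_univ _, ?_⟩⟩
      show (if i = j then (0 : ZMod ℓ) else - Oq D (lab c.1 c.2.1 i - lab c.1 c.2.1 j)) ≠ 0
      rw [if_neg hij]
      exact neg_ne_zero.2 h
    · exact ⟨Sum.inr s, mem_filter.2 ⟨mem_univ _, h⟩⟩
  obtain ⟨n, hn⟩ : ∃ n : ι ⊕ τ → ℕ, n = fun x => (cf D c j x).val := ⟨_, rfl⟩
  have hnc : ∀ x, (n x : ZMod ℓ) = cf D c j x := by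
    intro x
    rw [hn]
    show (((cf D c j x).val : ℕ) : ZMod ℓ) = _
    rw [ZMod.natCast_val, ZMod.cast_id', id]
  have hnl : ∀ x, n x < ℓ := fun x => by rw [hn]; exact ZMod.val_lt _
  have hn0 : ∀ x ∈ S, 0 < n x ∧ n x < ℓ := by
    intro x hx
    refine ⟨Nat.pos_of_ne_zero ?_, hnl x⟩
    intro h0
    apply (mem_filter.1 hx).2
    rw [← hnc, h0, Nat.cast_zero]
  set M : k[X] := ∏ x ∈ S, R x ^ n x with hM
  have hMm : M.Monic := monic_prod_of_monic _ _ fun x _ => (hRm x).pow _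
  have hMns : ∀ (c : k) (h : k[X]), M ≠ C c * h ^ ℓ := fun c h =>
    prod_not_pow ℓ S hSne R n hn0 (fun x _ => hRm x) (fun x _ => hRi x)
      (fun x hx y hy => hinj x y (hSj x hx) (hSj y hy)) c h
  have hMd : M.natDegree = ∑ x ∈ S, n x * (R x).natDegree := by
    rw [hM, natDegree_prod_of_monic _ _ fun x _ => (hRm x).pow _]
    exact sum_congr rfl fun x _ => (hRm x).natDegree_pow _
  have hM1 : 1 ≤ M.natDegree := by
    obtain ⟨x, hx⟩ := hSne
    rw [hMd]
    calc 1 ≤ n x * (R x).natDegree := Nat.mul_pos (hn0 x hx).1 (hRi x).natDegree_pos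
      _ ≤ _ := single_le_sum (f := fun x => n x * (R x).natDegree) (fun _ _ => Nat.zero_le _) hx
  have hMN : M.natDegree ≤ Nd := by
    rw [hMd]
    calc ∑ x ∈ S, n x * (R x).natDegree ≤ ∑ x, n x * (R x).natDegree :=
          sum_le_sum_of_subset (subset_univ _)
      _ ≤ ∑ x, ℓ * (R x).natDegree := sum_le_sum fun x _ => Nat.mul_le_mul_right _ (hnl x).le
      _ = ℓ * (∑ i, (T i).natDegree + ∑ s, (Q s).natDegree) := by
          rw [← mul_sum, Fintype.sum_sum_type]; rfl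
      _ ≤ Nd := hc.deg T hT
  have hval : ∀ p ∈ 𝒞 j, p ∉ E → eC (Ph D Q d (Function.update T j p) c) =
      eC (PhR D Q d T j c) * lc ℓ M p := by
    intro p hp hpE
    have hpi := hc.irr j p hp
    have hpm := hc.mon j p hp
    have hcop : ∀ x ∈ S, IsCoprime (R x) p := by
      intro x hx
      apply coprime_of_not_dvd hpi
      intro hd
      apply hpE
      rw [hE, mem_image]
      refine ⟨x, mem_erase.2 ⟨hSj x hx, mem_univ _⟩, ?_⟩
      exact (eq_of_monic_of_associated hpm (hRm x) (hpi.associated_of_dvd (hRi x) hd)).symm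
    rw [Ph_split hc.S, eC_add]
    congr 1
    have h1 : ∑ x : ι ⊕ τ, cf D c j x * L ℓ (R x) p = ∑ x ∈ S, L ℓ (R x ^ n x) p := by
      rw [hS, sum_filter]
      refine sum_congr rfl fun x _ => ?_
      split_ifs with h
      · rw [L_pow hc.S hpi.ne_zero (hRm x).ne_zero (hcop x (mem_filter.2 ⟨mem_univ _, h⟩)), hnc]
      · push Not at h
        rw [h, zero_mul]
    rw [h1, ← hc.S.L_prod_left _ _ _ _ hpi.ne_zero (fun x _ => ((hRm x).pow _).ne_zero)
      (fun x hx => (hcop x hx).pow_left), hc.S.lc_cop _ _ hpi.ne_zero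
      (IsCoprime.prod_left fun x hx => (hcop x hx).pow_left)]
    rfl
  have h1 : ∑ p ∈ 𝒞 j, (if ok Q (Function.update T j p) then
      eC (Ph D Q d (Function.update T j p) c) else 0) =
      eC (PhR D Q d T j c) * (∑ p ∈ 𝒞 j, lc ℓ M p -
        ∑ p ∈ (𝒞 j).filter (fun p => p ∈ E), lc ℓ M p) := by
    rw [sum_filter, ← sum_sub_distrib, mul_sum]
    refine sum_congr rfl fun p hp => ?_
    by_cases hpE : p ∈ E
    · rw [if_neg (fun h => (hokp p).1 h hpE), if_pos hpE, sub_self, mul_zero]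
    · rw [if_pos ((hokp p).2 hpE), if_neg hpE, hval p hp hpE, sub_zero]
  rw [h1, norm_mul, norm_eC, one_mul]
  refine (norm_sub_le _ _).trans (le_trans ?_ (hc.eta j hj M hMm hM1 hMN hMns))
  apply add_le_add le_rfl
  refine (norm_sum_le _ _).trans ?_
  calc ∑ p ∈ (𝒞 j).filter (fun p => p ∈ E), ‖lc ℓ M p‖
      ≤ ∑ p ∈ (𝒞 j).filter (fun p => p ∈ E), (1 : ℝ) := sum_le_sum fun p hp =>
        norm_lc_le hc.S (hc.irr j p (mem_filter.1 hp).1).ne_zero
    _ = (((𝒞 j).filter (fun p => p ∈ E)).card : ℝ) := by simp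
    _ ≤ ((univ : Finset (ι ⊕ τ)).card : ℝ) := by
        have h2 : ((𝒞 j).filter (fun p => p ∈ E)).card ≤ E.card :=
          card_le_card fun p hp => (mem_filter.1 hp).2
        have h3 : E.card ≤ (univ : Finset (ι ⊕ τ)).card :=
          card_image_le.trans (card_le_card (erase_subset _ _))
        exact_mod_cast h2.trans h3
    _ = _ := by
        rw [card_univ, Fintype.card_sum]
        push_cast
        rfl

include hc in
theorem outer_bound {m : ℕ} (c : CF ℓ W ι τ m) {j : ι} (hj : j ∈ lg) (hbad : Bad D c j) :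
    ‖∑ T ∈ Fintype.piFinset 𝒞, (if ok Q T then eC (Ph D Q d T c) else 0)‖ ≤
      η * (Fintype.piFinset 𝒞).card := by
  rcases (𝒞 j).eq_empty_or_nonempty with he | hne
  · have : Fintype.piFinset 𝒞 = ∅ := by
      rw [Fintype.piFinset_eq_empty]
      exact ⟨j, he⟩
    rw [this]
    simp
  · have hpos : (0 : ℝ) < (𝒞 j).card := by exact_mod_cast card_pos.2 hne
    have h1 := sum_updateC 𝒞 j (fun T => if ok Q T then eC (Ph D Q d T c) else 0)
    have h2 : ‖((𝒞 j).card : ℂ) * ∑ T ∈ Fintype.piFinset 𝒞,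
        (if ok Q T then eC (Ph D Q d T c) else 0)‖
        ≤ ∑ T ∈ Fintype.piFinset 𝒞, η * (𝒞 j).card := by
      rw [h1]
      refine (norm_sum_le _ _).trans (sum_le_sum fun T hT => ?_)
      exact inner_bound hc hT hj c hbad
    rw [norm_mul, Complex.norm_natCast, sum_const, nsmul_eq_mul] at h2
    have h3 : ((𝒞 j).card : ℝ) * ‖∑ T ∈ Fintype.piFinset 𝒞,
        (if ok Q T then eC (Ph D Q d T c) else 0)‖
        ≤ (𝒞 j).card * (η * (Fintype.piFinset 𝒞).card) := by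
      linarith
    exact le_of_mul_le_mul_left h3 hpos

theorem norm_inner_le {m : ℕ} (c : CF ℓ W ι τ m) :
    ‖∑ T ∈ Fintype.piFinset 𝒞, (if ok Q T then eC (Ph D Q d T c) else 0)‖ ≤
      (Fintype.piFinset 𝒞).card := by
  refine (norm_sum_le _ _).trans ?_
  rw [← nsmul_one, ← sum_const]
  apply sum_le_sum
  intro T _
  split_ifs
  · rw [norm_eC]
  · simp

section mom
variable [Fintype W]

/-- the moments -/
noncomputable def SS (D : FDat ℓ W τ) (Q : τ → k[X]) (d : ι → ZMod ℓ) (𝒞 : ι → Finset k[X])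
    (m : ℕ) : ℝ :=
  ∑ T ∈ Fintype.piFinset 𝒞, (if ok Q T ∧ cl D Q T then (kLI D (AT ℓ T) (BT ℓ Q T) d m : ℝ) else 0)

theorem sum_Om {m : ℕ} (f : CF ℓ W ι τ m → ℂ) : ∑ c ∈ Om D d m, f c =
    ∑ w ∈ LIs D d m, ∑ w' ∈ Fintype.piFinset (fun _ : Fin m => V0s D d), ∑ U : τ → ZMod ℓ,
      f (w, w', U) := by
  have h1 : Om D d m = LIs D d m ×ˢ ((Fintype.piFinset (fun _ : Fin m => V0s D d)) ×ˢ
      (univ : Finset (τ → ZMod ℓ))) := by
    ext ⟨w, w', U⟩
    rw [Om, mem_filter, mem_product, mem_product, LIs, mem_filter, Fintype.mem_piFinset]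
    simp only [mem_V0s]
    constructor
    · rintro ⟨-, h1, h2⟩
      exact ⟨⟨mem_univ _, h1⟩, h2, mem_univ _⟩
    · rintro ⟨⟨-, h1⟩, h2, -⟩
      exact ⟨mem_univ _, h1, h2⟩
  rw [h1, sum_product]
  refine sum_congr rfl fun w _ => ?_
  rw [sum_product]

theorem SS_eq (S : SYM0 ℓ k) (m : ℕ) :
    ((SS D Q d 𝒞 m : ℝ) : ℂ) * (((V0s D d).card : ℂ) ^ m * (ℓ : ℂ) ^ Fintype.card τ) =
    ∑ c ∈ Om D d m, ∑ T ∈ Fintype.piFinset 𝒞, (if ok Q T then eC (Ph D Q d T c) else 0) := by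
  rw [sum_comm, SS, Complex.ofReal_sum, sum_mul]
  refine sum_congr rfl fun T _ => ?_
  by_cases h1 : ok Q T
  swap
  · rw [if_neg (fun h => h1 h.1)]
    simp only [if_neg h1, sum_const_zero, Complex.ofReal_zero, zero_mul]
  simp only [if_pos h1]
  have h2 := orth3 (ℓ := ℓ) (τ := τ) (fun s => D.sp s + ∑ i, BT ℓ Q T i s + D.g s)
  have h3 := orth2 D (BT ℓ Q T) d (AT_comm S T) m
  have h4 : (((if ok Q T ∧ cl D Q T then (kLI D (AT ℓ T) (BT ℓ Q T) d m : ℝ) else 0 : ℝ)) : ℂ) *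
      (((V0s D d).card : ℂ) ^ m * (ℓ : ℂ) ^ Fintype.card τ) =
      ((kLI D (AT ℓ T) (BT ℓ Q T) d m : ℂ) * ((V0s D d).card : ℂ) ^ m) *
      (if (∀ s, D.sp s + ∑ i, BT ℓ Q T i s + D.g s = 0) then (ℓ : ℂ) ^ Fintype.card τ else 0) := by
    by_cases h5 : cl D Q T
    · have h6 : ∀ s, D.sp s + ∑ i, BT ℓ Q T i s + D.g s = 0 := h5
      rw [if_pos ⟨h1, h5⟩, if_pos h6, Complex.ofReal_natCast]; ring
    · have h6 : ¬ ∀ s, D.sp s + ∑ i, BT ℓ Q T i s + D.g s = 0 := h5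
      rw [if_neg (fun h => h5 h.2), if_neg h6, Complex.ofReal_zero]; ring
  rw [h4, h2, h3, sum_Om, sum_mul]
  refine sum_congr rfl fun w _ => ?_
  rw [sum_mul]
  refine sum_congr rfl fun w' _ => ?_
  rw [mul_sum]
  refine sum_congr rfl fun U _ => ?_
  rw [← eC_add]
  rfl

theorem Ph_Mn (h2 : ℓ ≠ 2) (S : SYM0 ℓ k) (T : ι → k[X]) {m : ℕ} (c : CF ℓ W ι τ m) (h : Mn c) :
    Ph D Q d T c = 0 := by
  obtain ⟨⟨A, hA, h3⟩, h4⟩ := h
  have hA' := (mem_filter.1 hA).2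
  rw [Ph, h4, h3]
  simp only [Pi.zero_apply, zero_mul, sum_const_zero, add_zero]
  have hsym := AT_comm S T
  have e1 : ∀ a, FF D (AT ℓ T) (BT ℓ Q T) d (c.1 a) (∑ b, A a b • c.1 b) =
      ∑ b, A a b * FF D (AT ℓ T) (BT ℓ Q T) d (c.1 a) (c.1 b) := by
    intro a
    rw [← FB_apply D (AT ℓ T) (BT ℓ Q T) d hsym, map_sum]
    refine sum_congr rfl fun b _ => ?_
    rw [map_smul, smul_eq_mul, FB_apply]
  rw [sum_congr rfl fun a _ => e1 a]
  have e2 : ∑ a, ∑ b, A a b * FF D (AT ℓ T) (BT ℓ Q T) d (c.1 a) (c.1 b) =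
      - ∑ a, ∑ b, A a b * FF D (AT ℓ T) (BT ℓ Q T) d (c.1 a) (c.1 b) := by
    conv_lhs => rw [sum_comm]
    rw [← sum_neg_distrib]
    refine sum_congr rfl fun a _ => ?_
    rw [← sum_neg_distrib]
    refine sum_congr rfl fun b _ => ?_
    rw [hA' b a, FF_comm D _ _ d hsym (c.1 b)]
    ring
  have e3 : (2 : ZMod ℓ) * ∑ a, ∑ b, A a b * FF D (AT ℓ T) (BT ℓ Q T) d (c.1 a) (c.1 b) = 0 := by
    rw [two_mul]
    nth_rewrite 1 [e2]
    exact neg_add_cancel _
  exact (mul_eq_zero.1 e3).resolve_left (two_ne h2)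

include hc in
theorem SS_le (h2 : ℓ ≠ 2) (hN : IsUnit (∑ i, d i + D.N)) (hG : Conn D) (m : ℕ) :
    |SS D Q d 𝒞 m * (((V0s D d).card : ℝ) ^ m * (ℓ : ℝ) ^ Fintype.card τ) -
      (LIs D d m).card * (ℓ : ℝ) ^ (m * (m - 1) / 2) * OK Q 𝒞| ≤
    (Fintype.piFinset 𝒞).card * ((Few (ℓ := ℓ) W ι τ lg m).card +
      η * (((V0s D d).card : ℝ) ^ (2 * m) * (ℓ : ℝ) ^ Fintype.card τ)) := by
  obtain ⟨f, hf⟩ : ∃ f : CF ℓ W ι τ m → ℂ,
    f = fun c => ∑ T ∈ Fintype.piFinset 𝒞, (if ok Q T then eC (Ph D Q d T c) else 0) := ⟨_, rfl⟩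
  have e0 : ((SS D Q d 𝒞 m : ℝ) : ℂ) * (((V0s D d).card : ℂ) ^ m * (ℓ : ℂ) ^ Fintype.card τ) =
      ∑ c ∈ Om D d m, f c := by rw [hf]; exact SS_eq hc.S m
  have e1 : ∀ c ∈ (Om D d m).filter Mn, f c = ((OK Q 𝒞 : ℝ) : ℂ) := by
    intro c hcm
    rw [hf, OK, Complex.ofReal_sum]
    refine sum_congr rfl fun T _ => ?_
    rw [Ph_Mn h2 hc.S T c (mem_filter.1 hcm).2, eC_zero]
    split_ifs
    · rw [Complex.ofReal_one]
    · rw [Complex.ofReal_zero]
  have e2 : ∑ c ∈ Om D d m, f c = (((LIs D d m).card * (ℓ : ℝ) ^ (m * (m - 1) / 2) * OK Q 𝒞 : ℝ) : ℂ) +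
      ∑ c ∈ (Om D d m).filter (fun c => ¬ Mn c), f c := by
    rw [← sum_filter_add_sum_filter_not (Om D d m) Mn, sum_congr rfl e1, sum_const, card_Mn D d h2]
    congr 1
    rw [nsmul_eq_mul]
    push_cast
    ring
  have e3 : ∀ c ∈ (Om D d m).filter (fun c => ¬ Mn c), ‖f c‖ ≤
      (if c ∈ Few (ℓ := ℓ) W ι τ lg m then ((Fintype.piFinset 𝒞).card : ℝ) else 0) +
        η * (Fintype.piFinset 𝒞).card := by
    intro c hcm
    obtain ⟨h3, h4⟩ := mem_filter.1 hcm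
    have h0 : 0 ≤ η * (Fintype.piFinset 𝒞).card := mul_nonneg hc.eta0 (Nat.cast_nonneg _)
    by_cases hb : ∀ i ∈ lg, ¬ Bad D c i
    · have h5 := (cover D d h2 hN hG lg c h3 hb).resolve_left h4
      rw [if_pos h5]
      have := norm_inner_le (D := D) (Q := Q) (d := d) (𝒞 := 𝒞) c
      rw [hf]
      show ‖∑ T ∈ Fintype.piFinset 𝒞, (if ok Q T then eC (Ph D Q d T c) else 0)‖ ≤ _
      linarith
    · push Not at hb
      obtain ⟨i, hi, hb⟩ := hb
      have := outer_bound (d := d) hc c hi hb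
      have h6 : (0 : ℝ) ≤ (if c ∈ Few (ℓ := ℓ) W ι τ lg m then
        ((Fintype.piFinset 𝒞).card : ℝ) else 0) := by
        split_ifs
        · exact Nat.cast_nonneg _
        · exact le_rfl
      rw [hf]
      show ‖∑ T ∈ Fintype.piFinset 𝒞, (if ok Q T then eC (Ph D Q d T c) else 0)‖ ≤ _
      linarith
  have e4 : ‖∑ c ∈ (Om D d m).filter (fun c => ¬ Mn c), f c‖ ≤
      (Few (ℓ := ℓ) W ι τ lg m).card * ((Fintype.piFinset 𝒞).card : ℝ) +
      (Om D d m).card * (η * (Fintype.piFinset 𝒞).card) := by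
    refine (norm_sum_le _ _).trans ((sum_le_sum e3).trans ?_)
    rw [sum_add_distrib, sum_const, nsmul_eq_mul, sum_ite_mem, sum_const, nsmul_eq_mul]
    have h3 : ((((Om D d m).filter (fun c => ¬ Mn c)) ∩ Few (ℓ := ℓ) W ι τ lg m).card : ℝ) ≤
        (Few (ℓ := ℓ) W ι τ lg m).card := by
      exact_mod_cast card_le_card inter_subset_right
    have h4 : (((Om D d m).filter (fun c => ¬ Mn c)).card : ℝ) ≤ (Om D d m).card := by
      exact_mod_cast card_filter_le _ _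
    apply add_le_add
    · exact mul_le_mul_of_nonneg_right h3 (Nat.cast_nonneg _)
    · exact mul_le_mul_of_nonneg_right h4 (mul_nonneg hc.eta0 (Nat.cast_nonneg _))
  have e5 : ((Om D d m).card : ℝ) ≤ ((V0s D d).card : ℝ) ^ (2 * m) * (ℓ : ℝ) ^ Fintype.card τ := by
    have h3 : (Om D d m).card ≤ (Fintype.piFinset (fun _ : Fin m => V0s D d) ×ˢ
        (Fintype.piFinset (fun _ : Fin m => V0s D d) ×ˢ (univ : Finset (τ → ZMod ℓ)))).card := by
      apply card_le_card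
      rintro ⟨w, w', U⟩ h
      obtain ⟨-, ⟨h4, -⟩, h5⟩ := mem_filter.1 h
      rw [mem_product, mem_product, Fintype.mem_piFinset, Fintype.mem_piFinset]
      exact ⟨fun a => (mem_V0s D d).2 (h4 a), fun a => (mem_V0s D d).2 (h5 a), mem_univ _⟩
    rw [card_product, card_product, Fintype.card_piFinset, prod_const, card_univ, Fintype.card_fin,
      card_univ, Fintype.card_fun, ZMod.card] at h3
    have h4 : ((Om D d m).card : ℝ) ≤ ((V0s D d).card : ℝ) ^ m * (((V0s D d).card : ℝ) ^ m *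
        (ℓ : ℝ) ^ Fintype.card τ) := by exact_mod_cast h3
    refine h4.trans (le_of_eq ?_)
    rw [two_mul, pow_add]
    ring
  have e6 : ‖(((SS D Q d 𝒞 m * (((V0s D d).card : ℝ) ^ m * (ℓ : ℝ) ^ Fintype.card τ) -
      (LIs D d m).card * (ℓ : ℝ) ^ (m * (m - 1) / 2) * OK Q 𝒞 : ℝ)) : ℂ)‖ ≤
      (Few (ℓ := ℓ) W ι τ lg m).card * ((Fintype.piFinset 𝒞).card : ℝ) +
      (Om D d m).card * (η * (Fintype.piFinset 𝒞).card) := by
    refine le_trans (le_of_eq ?_) e4
    congr 1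
    rw [Complex.ofReal_sub]
    have h3 : (((SS D Q d 𝒞 m * (((V0s D d).card : ℝ) ^ m * (ℓ : ℝ) ^ Fintype.card τ)) : ℝ) : ℂ) =
        ((SS D Q d 𝒞 m : ℝ) : ℂ) * (((V0s D d).card : ℂ) ^ m * (ℓ : ℂ) ^ Fintype.card τ) := by
      push_cast
      rfl
    rw [h3, e0, e2, add_sub_cancel_left]
  rw [Complex.norm_real, Real.norm_eq_abs] at e6
  refine e6.trans ?_
  have h3 := mul_le_mul_of_nonneg_right e5
    (mul_nonneg hc.eta0 (Nat.cast_nonneg (Fintype.piFinset 𝒞).card))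
  linarith

end mom

end Pool.Agent.Y164.SZ
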