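import Pool.Agent.Y164.SZ.Mc
import Pool.Agent.Y164.SZ.Bon

/-!
The number of configurations.
-/

set_option autoImplicit false
set_option linter.all false

namespace Pool.Agent.Y164.SZ

open Finset
open scoped Classical

section li
variable {ℓ : ℕ} [hp : Fact ℓ.Prime] {V' : Type} [AddCommGroup V'] [Module (ZMod ℓ) V'] [Finite V']

/-- the number of linearly independent tuples in a subspace -/
theorem card_LI (P : Submodule (ZMod ℓ) V') (j : ℕ) :
    (Nat.card {w : Fin j → V' // (∀ a, w a ∈ P) ∧ LinearIndependent (ZMod ℓ) w} : ℝ) =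
      ∏ i ∈ range j, ((Nat.card P : ℝ) - (ℓ : ℝ) ^ i) := by
  have e : {w : Fin j → V' // (∀ a, w a ∈ P) ∧ LinearIndependent (ZMod ℓ) w} ≃
      {w : Fin j → P // LinearIndependent (ZMod ℓ) w} :=
    { toFun := fun w => ⟨fun a => ⟨w.1 a, w.2.1 a⟩, by
        rw [← LinearMap.linearIndependent_iff P.subtype (by simp)]
        exact w.2.2⟩
      invFun := fun w => ⟨fun a => (w.1 a : V'), fun a => (w.1 a).2, by
        have := (LinearMap.linearIndependent_iff P.subtype (by simp)).2 w.2
        exact this⟩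
      left_inv := fun w => rfl
      right_inv := fun w => rfl }
  rw [Nat.card_congr e]
  have hP : (Nat.card P : ℝ) = (ℓ : ℝ) ^ (Module.finrank (ZMod ℓ) P) := by
    rw [card_pow (ℓ := ℓ) P]
    push_cast
    rfl
  by_cases hj : j ≤ Module.finrank (ZMod ℓ) P
  · rw [card_linearIndependent hj, ZMod.card, hP, ← Fin.prod_univ_eq_prod_range
      (fun i => ((ℓ : ℝ) ^ (Module.finrank (ZMod ℓ) P) - (ℓ : ℝ) ^ i)) j]
    push_cast
    refine prod_congr rfl fun i _ => ?_
    rw [Nat.cast_sub (Nat.pow_le_pow_right hp.out.pos (by omega))]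
    push_cast
    rfl
  · have h0 : IsEmpty {w : Fin j → P // LinearIndependent (ZMod ℓ) w} := by
      constructor
      rintro ⟨w, hw⟩
      have := hw.fintype_card_le_finrank
      rw [Fintype.card_fin] at this
      exact hj this
    rw [Nat.card_of_isEmpty, Nat.cast_zero, eq_comm]
    apply prod_eq_zero (i := Module.finrank (ZMod ℓ) P) (mem_range.2 (by omega))
    rw [hP, sub_self]

end li

section asym
variable (ℓ : ℕ) [hp : Fact ℓ.Prime]

/-- antisymmetric matrices -/
noncomputable def AS (j : ℕ) : Finset (Fin j → Fin j → ZMod ℓ) :=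
  univ.filter fun A => ∀ a b, A a b = - A b a

theorem card_AS (h2 : ℓ ≠ 2) (j : ℕ) : (AS ℓ j).card = ℓ ^ (j * (j - 1) / 2) := by
  have hd : ∀ x : ZMod ℓ, x = - x → x = 0 := by
    intro x hx
    have : (2 : ZMod ℓ) * x = 0 := by
      rw [two_mul]
      nth_rewrite 1 [hx]
      exact neg_add_cancel x
    exact (mul_eq_zero.1 this).resolve_left (two_ne h2)
  have e : {A : Fin j → Fin j → ZMod ℓ // ∀ a b, A a b = - A b a} ≃
      ((Σ b : Fin j, Fin b.val) → ZMod ℓ) :=
    { toFun := fun A p => A.1 ⟨p.2.val, p.2.2.trans p.1.2⟩ p.1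
      invFun := fun f => ⟨fun a b => if h : a < b then f ⟨b, ⟨a.val, h⟩⟩ else
          if h : b < a then - f ⟨a, ⟨b.val, h⟩⟩ else 0, by
        intro a b
        beta_reduce
        rcases lt_trichotomy a b with h | h | h
        · rw [dif_pos h, dif_neg (not_lt.2 h.le), dif_pos h, neg_neg]
        · subst h
          rw [dif_neg (lt_irrefl _), dif_neg (lt_irrefl _), neg_zero]
        · rw [dif_neg (not_lt.2 h.le), dif_pos h, dif_pos h]⟩
      left_inv := by
        rintro ⟨A, hA⟩
        apply Subtype.ext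
        funext a b
        rcases lt_trichotomy a b with h | h | h
        · show (if h : a < b then _ else _) = _
          rw [dif_pos h]
        · subst h
          show (if h : a < a then _ else _) = _
          rw [dif_neg (lt_irrefl _), dif_neg (lt_irrefl _)]
          exact (hd _ (hA a a)).symm
        · show (if h : a < b then _ else _) = _
          rw [dif_neg (not_lt.2 h.le), dif_pos h]
          show - A b a = A a b
          exact (hA a b).symm
      right_inv := by
        intro f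
        funext p
        obtain ⟨b, a, ha⟩ := p
        show (if h : (⟨a, ha.trans b.2⟩ : Fin j) < b then _ else _) = _
        rw [dif_pos (show (⟨a, ha.trans b.2⟩ : Fin j) < b from ha)] }
  have h1 : (AS ℓ j).card = Fintype.card {A : Fin j → Fin j → ZMod ℓ // ∀ a b, A a b = - A b a} := by
    rw [Fintype.card_subtype, AS]
  rw [h1, Fintype.card_congr e, Fintype.card_fun, ZMod.card, Fintype.card_sigma]
  simp only [Fintype.card_fin]
  rw [Fin.sum_univ_eq_sum_range (fun i => i) j, sum_range_id]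

end asym

section cfg
variable {ℓ : ℕ} [hp : Fact ℓ.Prime] {W : Type} [AddCommGroup W] [Module (ZMod ℓ) W] [Fintype W]
variable {ι τ : Type} [Fintype ι] [Fintype τ] (D : FDat ℓ W τ) (d : ι → ZMod ℓ)

/-- configurations -/
abbrev CF (ℓ : ℕ) (W ι τ : Type) (j : ℕ) : Type :=
  (Fin j → V ℓ W ι τ) × (Fin j → V ℓ W ι τ) × (τ → ZMod ℓ)

/-- the space `V₀` as a finite set -/
noncomputable def V0s : Finset (V ℓ W ι τ) := univ.filter fun w => dg D d w = 0

theorem mem_V0s {w : V ℓ W ι τ} : w ∈ V0s D d ↔ dg D d w = 0 := by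
  rw [V0s, mem_filter]
  exact ⟨fun h => h.2, fun h => ⟨mem_univ _, h⟩⟩

variable {j : ℕ}

/-- the configuration is not orthogonal at `i0` -/
def Bad (c : CF ℓ W ι τ j) (i0 : ι) : Prop :=
  (∃ i, i ≠ i0 ∧ Oq D (lab c.1 c.2.1 i - lab c.1 c.2.1 i0) ≠ 0) ∨
    ∃ s, ee D s (zet c.1 c.2.1 s) (lab c.1 c.2.1 i0) + c.2.2 s ≠ 0

/-- the configurations -/
noncomputable def Om (j : ℕ) : Finset (CF ℓ W ι τ j) :=
  univ.filter fun c => ((∀ a, dg D d (c.1 a) = 0) ∧ LinearIndependent (ZMod ℓ) c.1) ∧
    ∀ a, dg D d (c.2.1 a) = 0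

/-- the main configurations -/
def Mn (c : CF ℓ W ι τ j) : Prop :=
  (∃ A ∈ AS ℓ j, c.2.1 = fun a => ∑ b, A a b • c.1 b) ∧ c.2.2 = 0

/-- configurations with few labels -/
noncomputable def Few (W : Type) [AddCommGroup W] [Module (ZMod ℓ) W] [Fintype W] (ι τ : Type)
    [Fintype ι] [Fintype τ] (lg : Finset ι) (j : ℕ) : Finset (CF ℓ W ι τ j) :=
  univ.filter fun c => (lg.image (lab c.1 c.2.1)).card ≤ Fintype.card W ^ j - 1

theorem cover (h2 : ℓ ≠ 2) (hN : IsUnit (∑ i, d i + D.N)) (hG : Conn D) (lg : Finset ι)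
    (c : CF ℓ W ι τ j) (hc : c ∈ Om D d j) (hb : ∀ i ∈ lg, ¬ Bad D c i) :
    Mn c ∨ c ∈ Few W ι τ lg j := by
  obtain ⟨w, w', U⟩ := c
  obtain ⟨⟨hw, hli⟩, hw'⟩ := (mem_filter.1 hc).2
  simp only at hw hw' hli
  by_cases hf : (lg.image (lab w w')).card ≤ Fintype.card W ^ j - 1
  · right
    exact mem_filter.2 ⟨mem_univ _, hf⟩
  · left
    have hcard : Nat.card W ^ Fintype.card (Fin j) ≤
        Nat.card {X : Fin j → W × W | ∃ i ∈ lg, lab w w' i = X} := by
      have h1 : {X : Fin j → W × W | ∃ i ∈ lg, lab w w' i = X} =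
          ((lg.image (lab w w') : Finset (Fin j → W × W)) : Set (Fin j → W × W)) := by
        ext X
        simp
      rw [h1, Nat.card_eq_fintype_card, Nat.card_eq_card_toFinset, Finset.toFinset_coe,
        Fintype.card_fin]
      omega
    obtain ⟨⟨A, hA1, hA2⟩, hU⟩ := main_cfg D d h2 hN hG w w' U hw hw' hli lg hcard (by
      intro i0 hi0 i
      by_contra hne
      apply hb i0 hi0
      left
      refine ⟨i, ?_, hne⟩
      rintro rfl
      apply hne
      rw [sub_self]
      simp [Oq]) (by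
      intro i0 hi0 s
      by_contra hne
      exact hb i0 hi0 (Or.inr ⟨s, hne⟩))
    exact ⟨⟨A, mem_filter.2 ⟨mem_univ _, hA1⟩, funext hA2⟩, hU⟩

theorem card_few (lg : Finset ι) (F : Finset (Fin j → W × W)) :
    ((univ : Finset (CF ℓ W ι τ j)).filter fun x => ∀ i ∈ lg, lab x.1 x.2.1 i ∈ F).card ≤
    ℓ ^ (Fintype.card τ * (2 * j + 1)) *
      (F.card ^ lg.card * ((Fintype.card W ^ j) ^ 2) ^ (Fintype.card ι - lg.card)) := by
  let S : Finset (ι → Fin j → W × W) := Fintype.piFinset fun i => if i ∈ lg then F else univ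
  have hS : S.card ≤ F.card ^ lg.card *
      ((Fintype.card W ^ j) ^ 2) ^ (Fintype.card ι - lg.card) := by
    rw [Fintype.card_piFinset]
    have h1 : ∏ i, (if i ∈ lg then F else (univ : Finset (Fin j → W × W))).card ≤
        ∏ i : ι, (if i ∈ lg then F.card else (Fintype.card W ^ j) ^ 2) := by
      apply prod_le_prod'
      intro i _
      split_ifs
      · exact le_rfl
      · rw [card_univ, Fintype.card_fun, Fintype.card_prod, Fintype.card_fin, ← sq, ← pow_mul,
          ← pow_mul, mul_comm]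
    refine h1.trans (le_of_eq ?_)
    rw [prod_ite, prod_const, prod_const]
    have h2 : (univ.filter fun i => i ∈ lg) = lg := by
      ext i; simp
    have h3 : (univ.filter fun i => ¬ i ∈ lg).card = Fintype.card ι - lg.card := by
      have h4 : (univ.filter fun i => ¬ i ∈ lg) = lgᶜ := by ext i; simp
      rw [h4, card_compl]
    rw [h2, h3]
  have h1 : ((univ : Finset (CF ℓ W ι τ j)).filter fun x => ∀ i ∈ lg, lab x.1 x.2.1 i ∈ F).card ≤
      (S ×ˢ (univ : Finset ((Fin j → τ → ZMod ℓ) × (Fin j → τ → ZMod ℓ) × (τ → ZMod ℓ)))).card := by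
    apply card_le_card_of_injOn
      (fun x => (fun i => lab x.1 x.2.1 i, (fun a => (x.1 a).2, fun a => (x.2.1 a).2, x.2.2)))
    · intro x hx
      have hx' := (mem_filter.1 (mem_coe.1 hx)).2
      refine mem_coe.2 (mem_product.2 ⟨?_, mem_univ _⟩)
      show (fun i => lab x.1 x.2.1 i) ∈ S
      rw [Fintype.mem_piFinset]
      intro i
      split_ifs with h
      · exact hx' i h
      · exact mem_univ _
    · rintro ⟨x, x', U⟩ _ ⟨y, y', U'⟩ _ h
      simp only [Prod.mk.injEq] at h
      obtain ⟨h1, h2, h3, h4⟩ := h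
      have h5 : x = y := by
        funext a
        apply Prod.ext
        · funext i
          exact congrArg Prod.fst (congrFun (congrFun h1 i) a)
        · exact congrFun h2 a
      have h6 : x' = y' := by
        funext a
        apply Prod.ext
        · funext i
          exact congrArg Prod.snd (congrFun (congrFun h1 i) a)
        · exact congrFun h3 a
      rw [h4, h5, h6]
  refine h1.trans ?_
  rw [card_product, mul_comm]
  apply Nat.mul_le_mul _ hS
  rw [card_univ, Fintype.card_prod, Fintype.card_prod, Fintype.card_fun, Fintype.card_fun,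
    ZMod.card, Fintype.card_fin, ← pow_mul, ← pow_add, ← pow_add]
  apply le_of_eq
  congr 1
  ring

theorem card_Few (lg : Finset ι) : (Few (ℓ := ℓ) W ι τ lg j).card ≤
    2 ^ ((Fintype.card W ^ j) ^ 2) * (ℓ ^ (Fintype.card τ * (2 * j + 1)) *
      ((Fintype.card W ^ j - 1) ^ lg.card *
        ((Fintype.card W ^ j) ^ 2) ^ (Fintype.card ι - lg.card))) := by
  let few : Finset (Fin j → W × W) → Finset (CF ℓ W ι τ j) := fun F =>
    univ.filter fun x => ∀ i ∈ lg, lab x.1 x.2.1 i ∈ F
  let FS : Finset (Finset (Fin j → W × W)) :=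
    univ.filter fun F => F.card ≤ Fintype.card W ^ j - 1
  have hsub : Few (ℓ := ℓ) W ι τ lg j ⊆ FS.biUnion few := by
    rintro ⟨w, w', U⟩ hc
    have h1 := (mem_filter.1 hc).2
    rw [mem_biUnion]
    exact ⟨lg.image (lab w w'), mem_filter.2 ⟨mem_univ _, h1⟩, mem_filter.2 ⟨mem_univ _,
      fun i hi => mem_image_of_mem _ hi⟩⟩
  refine (card_le_card hsub).trans (card_biUnion_le.trans ?_)
  have h1 : ∀ F ∈ FS, (few F).card ≤ ℓ ^ (Fintype.card τ * (2 * j + 1)) *
      ((Fintype.card W ^ j - 1) ^ lg.card *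
        ((Fintype.card W ^ j) ^ 2) ^ (Fintype.card ι - lg.card)) := by
    intro F hF
    refine (card_few lg F).trans ?_
    apply Nat.mul_le_mul_left
    apply Nat.mul_le_mul_right
    exact Nat.pow_le_pow_left (mem_filter.1 hF).2 _
  refine (sum_le_sum h1).trans ?_
  rw [sum_const, smul_eq_mul]
  apply Nat.mul_le_mul_right
  refine (card_filter_le _ _).trans (le_of_eq ?_)
  rw [card_univ, Fintype.card_finset, Fintype.card_fun, Fintype.card_prod, Fintype.card_fin, ← sq,
    ← pow_mul, ← pow_mul, mul_comm]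

/-- linearly independent tuples in `V₀` -/
noncomputable def LIs (j : ℕ) : Finset (Fin j → V ℓ W ι τ) :=
  univ.filter fun w => (∀ a, dg D d (w a) = 0) ∧ LinearIndependent (ZMod ℓ) w

theorem card_Mn (h2 : ℓ ≠ 2) : ((Om D d j).filter Mn).card =
    (LIs D d j).card * ℓ ^ (j * (j - 1) / 2) := by
  have h1 : (Om D d j).filter Mn = ((LIs D d j) ×ˢ (AS ℓ j)).image
      (fun p => ((p.1, (fun a => ∑ b, p.2 a b • p.1 b), 0) : CF ℓ W ι τ j)) := by
    ext ⟨w, w', U⟩
    rw [mem_filter, mem_image]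
    constructor
    · rintro ⟨h1, ⟨A, hA, h3⟩, h4⟩
      have h5 := (mem_filter.1 h1).2.1
      simp only at h3 h4
      refine ⟨(w, A), mem_product.2 ⟨mem_filter.2 ⟨mem_univ _, h5⟩, hA⟩, ?_⟩
      simp only
      rw [← h3, h4]
    · rintro ⟨⟨x, A⟩, hx, h3⟩
      simp only [Prod.mk.injEq] at h3
      obtain ⟨rfl, rfl, rfl⟩ := h3
      obtain ⟨h4, h5⟩ := mem_product.1 hx
      have h6 := (mem_filter.1 h4).2
      refine ⟨mem_filter.2 ⟨mem_univ _, h6, ?_⟩, ⟨A, h5, rfl⟩, rfl⟩
      intro a
      show dg D d (∑ b, A a b • x b) = 0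
      rw [← dgL_apply, map_sum]
      apply sum_eq_zero
      intro b _
      rw [map_smul, dgL_apply, h6.1 b, smul_zero]
  rw [h1, card_image_of_injOn, card_product, card_AS ℓ h2]
  rintro ⟨x, A⟩ hx ⟨y, B⟩ hy h
  simp only [Prod.mk.injEq] at h
  obtain ⟨rfl, h3, -⟩ := h
  have hli := (mem_filter.1 (mem_product.1 (mem_coe.1 hx)).1).2.2
  have : A = B := by
    funext a b
    have h4 := congrFun h3 a
    have h5 : ∑ b, (A a b - B a b) • x b = 0 := by
      simp only [sub_smul, sum_sub_distrib]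
      rw [h4, sub_self]
    exact sub_eq_zero.1 (Fintype.linearIndependent_iff.1 hli _ h5 b)
  rw [this]

theorem card_V0s_eq : (V0s D d).card = Nat.card (LinearMap.ker (dgL D d)) := by
  rw [Nat.card_eq_fintype_card, Fintype.card_subtype, V0s]
  congr 1

theorem card_LIs : ((LIs D d j).card : ℝ) = ∏ i ∈ range j, (((V0s D d).card : ℝ) - (ℓ : ℝ) ^ i) := by
  rw [card_V0s_eq, ← card_LI]
  congr 1
  rw [Nat.card_eq_fintype_card, Fintype.card_subtype, LIs]
  congr 1

theorem card_V0s_le : (V0s D d).card ≤ Fintype.card W ^ Fintype.card ι * ℓ ^ Fintype.card τ := by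
  refine (card_le_univ _).trans (le_of_eq ?_)
  rw [Fintype.card_prod, Fintype.card_fun, Fintype.card_fun, ZMod.card]

theorem le_card_V0s : Fintype.card W ^ Fintype.card ι ≤ Fintype.card W * (V0s D d).card := by
  let φ : (ι → W) →+ W := ⟨⟨fun x => ∑ i, d i • x i, by simp⟩, fun x y => by
    simp [smul_add, sum_add_distrib]⟩
  have hc : Nat.card (ι → W) = Nat.card φ.range * Nat.card φ.ker := by
    rw [AddSubgroup.card_eq_card_quotient_mul_card_addSubgroup φ.ker,
      Nat.card_congr (QuotientAddGroup.quotientKerEquivRange φ).toEquiv]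
  have hcV : Nat.card (ι → W) = Fintype.card W ^ Fintype.card ι := by
    rw [Nat.card_eq_fintype_card, Fintype.card_fun]
  have hr : Nat.card φ.range ≤ Fintype.card W := by
    have h1 : Nat.card φ.range ≤ Nat.card W := Nat.card_le_card_of_injective _ Subtype.val_injective
    refine h1.trans (le_of_eq ?_)
    rw [Nat.card_eq_fintype_card]
  have hk : Nat.card φ.ker ≤ (V0s D d).card := by
    rw [Nat.card_eq_fintype_card, ← card_univ]
    apply card_le_card_of_injOn (fun x => ((x.1, 0) : V ℓ W ι τ))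
    · intro x _
      refine mem_coe.2 ((mem_V0s D d).2 ?_)
      have h1 : ∑ i, d i • x.1 i = 0 := x.2
      simp only [dg, h1, Pi.zero_apply, mul_zero, zero_smul, sum_const_zero, add_zero]
    · intro x _ y _ h
      exact Subtype.ext (congrArg Prod.fst h)
  rw [← hcV, hc]
  exact Nat.mul_le_mul hr hk

end cfg

end Pool.Agent.Y164.SZ
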