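import Pool.Agent.Y164.SZ.Def

/-!
Vectors of sum zero, and the data attached to a graph on the indices.
-/

set_option autoImplicit false
set_option linter.all false

namespace Pool.Agent.Y164.SZ

open Finset

/-- vectors of sum zero -/
def SW (ℓ n : ℕ) : Submodule (ZMod ℓ) (Fin n → ZMod ℓ) where
  carrier := {v | ∑ i, v i = 0}
  add_mem' := by
    intro a b ha hb
    have ha' : ∑ i, a i = 0 := ha
    have hb' : ∑ i, b i = 0 := hb
    show ∑ i, (a i + b i) = 0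
    rw [sum_add_distrib, ha', hb', add_zero]
  zero_mem' := by
    show ∑ i, (0 : ZMod ℓ) = 0
    exact sum_const_zero
  smul_mem' := by
    intro c v hv
    have hv' : ∑ i, v i = 0 := hv
    show ∑ i, (c * v i) = 0
    rw [← mul_sum, hv', mul_zero]

variable {ℓ n : ℕ}

theorem SW.sum (v : SW ℓ n) : ∑ i, v.1 i = 0 := v.2

theorem cast_ne [hp : Fact ℓ.Prime] (hn : ¬ ℓ ∣ n) : (n : ZMod ℓ) ≠ 0 := by
  intro h
  exact hn ((ZMod.natCast_eq_zero_iff _ _).1 h)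

theorem const_zero [hp : Fact ℓ.Prime] (hn : ¬ ℓ ∣ n) (v : Fin n → ZMod ℓ) (hs : ∑ i, v i = 0)
    (hc : ∀ i j, v i = v j) : v = 0 := by
  funext i
  have h2 : ∑ j, v j = (n : ZMod ℓ) * v i := by
    rw [sum_congr rfl (fun j _ => hc j i), sum_const, card_univ, Fintype.card_fin, nsmul_eq_mul]
  rw [hs] at h2
  exact (mul_eq_zero.1 h2.symm).resolve_left (cast_ne hn)

theorem tf_sum (i j : Fin n) : ∑ l, tf ℓ i j l = 0 := by
  simp [tf, sum_sub_distrib]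

theorem sum_mul_tf (i j : Fin n) (y : Fin n → ZMod ℓ) : ∑ l, y l * tf ℓ i j l = y i - y j := by
  simp [tf, mul_sub, sum_sub_distrib]

/-- the vector `e i - e j`, of sum zero -/
def Tv (ℓ : ℕ) {n : ℕ} (i j : Fin n) : SW ℓ n := ⟨tf ℓ i j, tf_sum i j⟩

/-- the dot product -/
def dot (ℓ n : ℕ) : LinearMap.BilinForm (ZMod ℓ) (SW ℓ n) :=
  LinearMap.mk₂ (ZMod ℓ) (fun x y => ∑ i, x.1 i * y.1 i)
    (fun x y z => by
      rw [← sum_add_distrib]
      refine sum_congr rfl fun i _ => ?_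
      show (x.1 i + y.1 i) * z.1 i = _
      ring)
    (fun c x y => by
      rw [smul_eq_mul, mul_sum]
      refine sum_congr rfl fun i _ => ?_
      show (c * x.1 i) * y.1 i = _
      ring)
    (fun x y z => by
      rw [← sum_add_distrib]
      refine sum_congr rfl fun i _ => ?_
      show x.1 i * (y.1 i + z.1 i) = _
      ring)
    (fun c x y => by
      rw [smul_eq_mul, mul_sum]
      refine sum_congr rfl fun i _ => ?_
      show x.1 i * (c * y.1 i) = _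
      ring)

theorem dot_def (x y : SW ℓ n) : dot ℓ n x y = ∑ i, x.1 i * y.1 i := rfl

theorem dot_comm (x y : SW ℓ n) : dot ℓ n x y = dot ℓ n y x := by
  rw [dot_def, dot_def]
  exact sum_congr rfl fun i _ => mul_comm _ _

theorem dot_Tv (x : SW ℓ n) (i j : Fin n) : dot ℓ n x (Tv ℓ i j) = x.1 i - x.1 j :=
  sum_mul_tf i j x.1

theorem Tv_dot (x : SW ℓ n) (i j : Fin n) : dot ℓ n (Tv ℓ i j) x = x.1 i - x.1 j := by
  rw [dot_comm, dot_Tv]

theorem dot_nd [hp : Fact ℓ.Prime] (hn : ¬ ℓ ∣ n) (x : SW ℓ n) (h : ∀ y, dot ℓ n x y = 0) :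
    x = 0 := by
  apply Subtype.ext
  apply const_zero hn x.1 x.2
  intro i j
  have := h (Tv ℓ i j)
  rw [dot_Tv] at this
  exact sub_eq_zero.1 this

namespace Comb

variable {τ : Type} [Fintype τ] (C : Comb ℓ n τ)

/-- the data -/
def dat [hp : Fact ℓ.Prime] (hC : S_COMB) (hn : ¬ ℓ ∣ n) (σ : τ → ZMod ℓ) : FDat ℓ (SW ℓ n) τ where
  om := dot ℓ n
  om_comm := dot_comm
  nd := dot_nd hn
  t := fun s => Tv ℓ (C.p s) (C.q s)
  G := C.G
  e := C.e
  ks := fun y => ⟨C.ksf y.1, (hC ℓ n τ C).2.1 y.1⟩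
  ks_add := by
    intro x y
    apply Subtype.ext
    funext i
    show C.ksf (x.1 + y.1) i = C.ksf x.1 i + C.ksf y.1 i
    simp only [ksf, Pi.add_apply]
    rw [← sum_add_distrib]
    refine sum_congr rfl fun j _ => ?_
    ring
  ks_comm := by
    intro x y
    rw [dot_def, dot_def]
    exact (hC ℓ n τ C).2.2.1 x.1 y.1
  N := (n : ZMod ℓ) * C.N
  g := C.gg
  sp := σ
  symm := C.symG
  h1 := by
    intro s y
    have h := (hC ℓ n τ C).2.2.2.1 s y.1
    rw [dot_Tv (⟨C.ksf y.1, (hC ℓ n τ C).2.1 y.1⟩ : SW ℓ n), dot_Tv]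
    rw [← h]
    congr 1
    refine sum_congr rfl fun s' _ => ?_
    rw [dot_Tv, dot_Tv]
    rfl
  h4 := by
    intro y
    apply Subtype.ext
    funext i
    show (((∑ s, (C.e s * dot ℓ n y (Tv ℓ (C.p s) (C.q s))) • Tv ℓ (C.p s) (C.q s) : SW ℓ n) :
      Fin n → ZMod ℓ)) i = ((n : ZMod ℓ) * C.N) * y.1 i
    rw [Submodule.coe_sum, Finset.sum_apply, ← (hC ℓ n τ C).2.2.2.2 y.1 y.2 i]
    refine sum_congr rfl fun s _ => ?_
    rw [dot_Tv]
    rfl

/-- connectedness -/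
theorem conn [hp : Fact ℓ.Prime] (hC : S_COMB) (hn : ¬ ℓ ∣ n) (h2 : ℓ ≠ 2) (hn2 : 2 ≤ n)
    (hex : ∀ i j, i ≠ j → ∃ s, (C.p s = i ∧ C.q s = j) ∨ (C.p s = j ∧ C.q s = i))
    (σ : τ → ZMod ℓ) : Conn (C.dat hC hn σ) where
  nd := by
    intro u hu
    by_contra hno
    push Not at hno
    apply hu
    apply Subtype.ext
    apply const_zero hn u.1 u.2
    intro i j
    by_cases hij : i = j
    · rw [hij]
    · obtain ⟨s, hs⟩ := hex i j hij
      have h1 : dot ℓ n u (Tv ℓ (C.p s) (C.q s)) = 0 := hno s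
      rw [dot_Tv] at h1
      rcases hs with ⟨h2, h3⟩ | ⟨h2, h3⟩
      · rw [h2, h3] at h1
        exact sub_eq_zero.1 h1
      · rw [h2, h3] at h1
        exact (sub_eq_zero.1 h1).symm
  ne := by
    intro s h
    have h1 : dot ℓ n (Tv ℓ (C.p s) (C.q s)) (Tv ℓ (C.p s) (C.q s)) = 0 := h
    rw [dot_Tv] at h1
    have h3 : tf ℓ (C.p s) (C.q s) (C.p s) - tf ℓ (C.p s) (C.q s) (C.q s) = 0 := h1
    have h4 := C.hpq s
    rw [tf, tf, if_pos rfl, if_neg h4.symm, if_neg h4, if_pos rfl] at h3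
    apply two_ne (ℓ := ℓ) h2
    rw [← h3]
    ring
  conn := by
    intro P hP hcl
    obtain ⟨s0, h0⟩ := hP
    have h2' := two_ne (ℓ := ℓ) h2
    -- sharing exactly one index
    have hshare : ∀ s s', P s → (∃ i j l : Fin n, i ≠ j ∧ j ≠ l ∧ i ≠ l ∧
        ((C.p s = i ∧ C.q s = j) ∨ (C.p s = j ∧ C.q s = i)) ∧
        ((C.p s' = j ∧ C.q s' = l) ∨ (C.p s' = l ∧ C.q s' = j))) → P s' := by
      rintro s s' hs ⟨i, j, l, hij, hjl, hil, h1, h2⟩
      apply hcl s s' hs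
      show dot ℓ n (Tv ℓ (C.p s) (C.q s)) (Tv ℓ (C.p s') (C.q s')) ≠ 0
      rw [dot_Tv]
      show tf ℓ (C.p s) (C.q s) (C.p s') - tf ℓ (C.p s) (C.q s) (C.q s') ≠ 0
      have hli := hil.symm
      have hji := hij.symm
      have hlj := hjl.symm
      rcases h1 with ⟨a1, a2⟩ | ⟨a1, a2⟩ <;> rcases h2 with ⟨b1, b2⟩ | ⟨b1, b2⟩ <;>
        rw [a1, a2, b1, b2] <;> simp [tf, hij, hjl, hil, hli, hji, hlj]
    -- an edge with the same ends
    have hsame : ∀ s s' (i j : Fin n), i ≠ j → P s →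
        ((C.p s = i ∧ C.q s = j) ∨ (C.p s = j ∧ C.q s = i)) →
        ((C.p s' = i ∧ C.q s' = j) ∨ (C.p s' = j ∧ C.q s' = i)) → P s' := by
      intro s s' i j hij hs h1 h2
      apply hcl s s' hs
      show dot ℓ n (Tv ℓ (C.p s) (C.q s)) (Tv ℓ (C.p s') (C.q s')) ≠ 0
      rw [dot_Tv]
      show tf ℓ (C.p s) (C.q s) (C.p s') - tf ℓ (C.p s) (C.q s) (C.q s') ≠ 0
      have hji := hij.symm
      have e1 : (1 : ZMod ℓ) - -1 ≠ 0 := by
        intro h; apply h2'; rw [← h]; ring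
      have e2 : (-1 : ZMod ℓ) - 1 ≠ 0 := by
        intro h
        apply h2'
        have h5 : (2 : ZMod ℓ) = -(-1 - 1) := by ring
        rw [h5, h, neg_zero]
      rcases h1 with ⟨a1, a2⟩ | ⟨a1, a2⟩ <;> rcases h2 with ⟨b1, b2⟩ | ⟨b1, b2⟩ <;>
        rw [a1, a2, b1, b2] <;> simp only [tf, hij, hji, if_true, if_false, sub_zero, zero_sub] <;>
        assumption
    intro s'
    have a := C.hpq s0
    have b := C.hpq s'
    by_cases c1 : C.p s0 = C.p s'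
    · by_cases c2 : C.q s0 = C.q s'
      · exact hsame s0 s' (C.p s0) (C.q s0) a h0 (Or.inl ⟨rfl, rfl⟩) (Or.inl ⟨c1.symm, c2.symm⟩)
      · exact hshare s0 s' h0 ⟨C.q s0, C.p s0, C.q s', a.symm, by rw [c1]; exact b, c2,
          Or.inr ⟨rfl, rfl⟩, Or.inl ⟨c1.symm, rfl⟩⟩
    · by_cases c2 : C.q s0 = C.q s'
      · exact hshare s0 s' h0 ⟨C.p s0, C.q s0, C.p s', a, by rw [c2]; exact b.symm, c1,
          Or.inl ⟨rfl, rfl⟩, Or.inr ⟨rfl, c2.symm⟩⟩
      · by_cases c3 : C.p s0 = C.q s'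
        · by_cases c4 : C.q s0 = C.p s'
          · exact hsame s0 s' (C.p s0) (C.q s0) a h0 (Or.inl ⟨rfl, rfl⟩) (Or.inr ⟨c4.symm, c3.symm⟩)
          · exact hshare s0 s' h0 ⟨C.q s0, C.p s0, C.p s', a.symm, by rw [c3]; exact b.symm, c4,
              Or.inr ⟨rfl, rfl⟩, Or.inr ⟨rfl, c3.symm⟩⟩
        · by_cases c4 : C.q s0 = C.p s'
          · exact hshare s0 s' h0 ⟨C.p s0, C.q s0, C.q s', a, by rw [c4]; exact b, c3,
              Or.inl ⟨rfl, rfl⟩, Or.inl ⟨c4.symm, rfl⟩⟩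
          · -- disjoint edges
            obtain ⟨s1, hs1⟩ := hex (C.q s0) (C.p s') c4
            have k1 : P s1 := hshare s0 s1 h0 ⟨C.p s0, C.q s0, C.p s', a, c4, c1,
              Or.inl ⟨rfl, rfl⟩, hs1⟩
            exact hshare s1 s' k1 ⟨C.q s0, C.p s', C.q s', c4, b, c2, hs1, Or.inl ⟨rfl, rfl⟩⟩
  nonempty := by
    have h0 : (⟨0, by omega⟩ : Fin n) ≠ ⟨1, by omega⟩ := by
      intro h
      have := congrArg Fin.val h
      simp at this
    obtain ⟨s, -⟩ := hex _ _ h0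
    exact ⟨s⟩

end Comb

end Pool.Agent.Y164.SZ
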