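import Pool.Agent.Y164.SZ.Cell
import Pool.Agent.Y164.HG.Num

/-!
The conclusion in a cell.
-/

set_option autoImplicit false
set_option linter.all false

namespace Pool.Agent.Y164.SZ

open Finset Polynomial
open Pool.Agent.Y164.PS (sum_update)
open Pool.Agent.Y164.HG (num1)
open scoped Classical

variable {ℓ : ℕ} [hp : Fact ℓ.Prime] {k : Type} [Field k] [Fintype k] [DecidableEq k]
variable {W : Type} [AddCommGroup W] [Module (ZMod ℓ) W]
variable {ι τ : Type} [Fintype ι] [Fintype τ]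
variable {D : FDat ℓ W τ} {Q : τ → k[X]} {d : ι → ZMod ℓ} {𝒞 : ι → Finset k[X]} {lg : Finset ι}
  {Nd : ℕ} {η : ℝ} (hc : Cell ℓ Q 𝒞 lg Nd η)

include hc in
theorem OK_ge (hsm : ∀ T ∈ Fintype.piFinset 𝒞, ∀ x y : ι ⊕ τ, (∀ j ∈ lg, x ≠ Sum.inl j) →
    (∀ j ∈ lg, y ≠ Sum.inl j) → Sum.elim T Q x = Sum.elim T Q y → x = y) :
    (Fintype.piFinset 𝒞).card * (1 - lg.card * η) ≤ OK Q 𝒞 := by
  have h1 : ∀ T ∈ Fintype.piFinset 𝒞, (1 : ℝ) - ∑ j ∈ lg,
      (if ∃ x, x ≠ Sum.inl j ∧ Sum.elim T Q x = T j then (1 : ℝ) else 0) ≤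
      (if ok Q T then (1 : ℝ) else 0) := by
    intro T hT
    split_ifs with h
    · have : 0 ≤ ∑ j ∈ lg, (if ∃ x, x ≠ Sum.inl j ∧ Sum.elim T Q x = T j then (1 : ℝ) else 0) :=
        sum_nonneg fun j _ => by split_ifs <;> norm_num
      linarith
    · have h2 : ∃ j ∈ lg, ∃ x, x ≠ Sum.inl j ∧ Sum.elim T Q x = T j := by
        by_contra hno
        push Not at hno
        apply h
        intro x y hxy
        by_cases hx : ∃ j ∈ lg, x = Sum.inl j
        · obtain ⟨j, hj, rfl⟩ := hx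
          by_contra hne
          exact hno j hj y (Ne.symm hne) hxy.symm
        · by_cases hy : ∃ j ∈ lg, y = Sum.inl j
          · obtain ⟨j, hj, rfl⟩ := hy
            by_contra hne
            exact hno j hj x hne hxy
          · push Not at hx hy
            exact hsm T hT x y hx hy hxy
      obtain ⟨j, hj, hx⟩ := h2
      have h3 : (1 : ℝ) ≤ ∑ j ∈ lg,
          (if ∃ x, x ≠ Sum.inl j ∧ Sum.elim T Q x = T j then (1 : ℝ) else 0) := by
        refine le_trans (le_of_eq (if_pos hx).symm) (single_le_sum (f := fun j =>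
          if ∃ x, x ≠ Sum.inl j ∧ Sum.elim T Q x = T j then (1 : ℝ) else 0) ?_ hj)
        intro i _
        show 0 ≤ (if _ then (1 : ℝ) else 0)
        split_ifs <;> norm_num
      linarith
  have h2 : ∀ j ∈ lg, ∑ T ∈ Fintype.piFinset 𝒞,
      (if ∃ x, x ≠ Sum.inl j ∧ Sum.elim T Q x = T j then (1 : ℝ) else 0) ≤
      η * (Fintype.piFinset 𝒞).card := by
    intro j hj
    rcases (𝒞 j).eq_empty_or_nonempty with he | hne
    · have : Fintype.piFinset 𝒞 = ∅ := by
        rw [Fintype.piFinset_eq_empty]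
        exact ⟨j, he⟩
      rw [this]
      simp
    · have hpos : (0 : ℝ) < (𝒞 j).card := by exact_mod_cast card_pos.2 hne
      have h3 := sum_update 𝒞 j (fun T =>
        if ∃ x, x ≠ Sum.inl j ∧ Sum.elim T Q x = T j then (1 : ℝ) else 0)
      have h4 : ∀ T ∈ Fintype.piFinset 𝒞, ∑ p ∈ 𝒞 j,
          (if ∃ x, x ≠ Sum.inl j ∧ Sum.elim (Function.update T j p) Q x =
            Function.update T j p j then (1 : ℝ) else 0) ≤ η * (𝒞 j).card := by
        intro T hT
        refine le_trans ?_ (hc.eta' j hj)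
        rw [← sum_filter, sum_const, nsmul_one]
        have h5 : ((𝒞 j).filter fun p => ∃ x, x ≠ Sum.inl j ∧
            Sum.elim (Function.update T j p) Q x = Function.update T j p j) ⊆
            (univ : Finset (ι ⊕ τ)).image (Sum.elim T Q) := by
          intro p hp
          obtain ⟨x, hx, hxp⟩ := (mem_filter.1 hp).2
          rw [Function.update_self] at hxp
          rw [mem_image]
          refine ⟨x, mem_univ _, ?_⟩
          rw [← hxp]
          rcases x with i | s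
          · have : i ≠ j := fun h => hx (by rw [h])
            show T i = Function.update T j p i
            exact (Function.update_of_ne this _ _).symm
          · rfl
        have h6 := (card_le_card h5).trans card_image_le
        rw [card_univ, Fintype.card_sum] at h6
        exact_mod_cast h6
      have h5 : ((𝒞 j).card : ℝ) * ∑ T ∈ Fintype.piFinset 𝒞,
          (if ∃ x, x ≠ Sum.inl j ∧ Sum.elim T Q x = T j then (1 : ℝ) else 0) ≤
          (𝒞 j).card * (η * (Fintype.piFinset 𝒞).card) := by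
        rw [h3]
        refine (sum_le_sum h4).trans (le_of_eq ?_)
        rw [sum_const, nsmul_eq_mul]
        ring
      exact le_of_mul_le_mul_left h5 hpos
  have h3 := sum_le_sum h1
  rw [sum_sub_distrib, sum_comm] at h3
  have h4 := sum_le_sum h2
  rw [sum_const, nsmul_eq_mul] at h4
  rw [sum_const, nsmul_one] at h3
  show _ ≤ ∑ T ∈ Fintype.piFinset 𝒞, (if ok Q T then (1 : ℝ) else 0)
  linarith

theorem XX_nonneg : 0 ≤ XX D Q d 𝒞 := sum_nonneg fun _ _ => by split_ifs <;> norm_num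

theorem OK_nonneg : 0 ≤ OK Q 𝒞 := sum_nonneg fun _ _ => by split_ifs <;> norm_num

section ker
variable [Fintype W] (D)

/-- the kernel as a subspace -/
def KerP (A : ι → ι → ZMod ℓ) (B : ι → τ → ZMod ℓ) (d : ι → ZMod ℓ) :
    Submodule (ZMod ℓ) (V ℓ W ι τ) where
  carrier := {w | dg D d w = 0 ∧ InK D A B d w}
  add_mem' := by
    rintro x y ⟨h1, h2⟩ ⟨h3, h4⟩
    exact ⟨by rw [dg_add, h1, h3, add_zero], fun w' hw' => by
      rw [FF_add_left, h2 w' hw', h4 w' hw', add_zero]⟩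
  zero_mem' := ⟨by rw [← dgL_apply, map_zero], fun w' _ => FF_zero_left D A B d w'⟩
  smul_mem' := by
    rintro c x ⟨h1, h2⟩
    exact ⟨by rw [dg_smul, h1, smul_zero], fun w' hw' => by
      rw [FF_smul_left, h2 w' hw', mul_zero]⟩

theorem kLI_eq (A : ι → ι → ZMod ℓ) (B : ι → τ → ZMod ℓ) (d : ι → ZMod ℓ) (j : ℕ) :
    (kLI D A B d j : ℝ) = ∏ i ∈ range j, ((Nat.card (KerP D A B d) : ℝ) - (ℓ : ℝ) ^ i) := by
  rw [← card_LI, kLI]
  congr 1
  rw [Nat.card_eq_fintype_card, Fintype.card_subtype, LIs, filter_filter]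
  congr 1
  ext w
  rw [mem_filter, mem_filter]
  constructor
  · rintro ⟨h0, ⟨h1, h2⟩, h3⟩
    exact ⟨h0, fun a => ⟨h1 a, h3 a⟩, h2⟩
  · rintro ⟨h0, h1, h2⟩
    exact ⟨h0, ⟨fun a => (h1 a).1, h2⟩, fun a => (h1 a).2⟩

/-- inclusion-exclusion in the kernel -/
theorem bon_ker (A : ι → ι → ZMod ℓ) (B : ι → τ → ZMod ℓ) (d : ι → ZMod ℓ) {K : ℕ} (hK : Odd K) :
    ∑ j ∈ range (K + 1), (-1) ^ j * ((ℓ : ℝ) ^ (j * (j - 1) / 2) /
      ∏ i ∈ range j, ((ℓ : ℝ) ^ j - (ℓ : ℝ) ^ i)) * (kLI D A B d j : ℝ) ≤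
      if Triv D A B d then 1 else 0 := by
  have hl : (1 : ℝ) < ℓ := by exact_mod_cast hp.out.one_lt
  have h1 := bon hl hK (Module.finrank (ZMod ℓ) (KerP D A B d))
  have hP : (Nat.card (KerP D A B d) : ℝ) =
      (ℓ : ℝ) ^ (Module.finrank (ZMod ℓ) (KerP D A B d)) := by
    rw [card_pow (ℓ := ℓ) (KerP D A B d)]
    push_cast
    rfl
  have h2 : ∑ j ∈ range (K + 1), (-1) ^ j * ((ℓ : ℝ) ^ (j * (j - 1) / 2) /
      ∏ i ∈ range j, ((ℓ : ℝ) ^ j - (ℓ : ℝ) ^ i)) * (kLI D A B d j : ℝ) =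
      ∑ j ∈ range (K + 1), (-1) ^ j * (ℓ : ℝ) ^ (j * (j - 1) / 2) *
        (∏ i ∈ range j, ((ℓ : ℝ) ^ (Module.finrank (ZMod ℓ) (KerP D A B d)) - (ℓ : ℝ) ^ i)) /
        ∏ i ∈ range j, ((ℓ : ℝ) ^ j - (ℓ : ℝ) ^ i) := by
    refine sum_congr rfl fun j _ => ?_
    rw [kLI_eq, hP]
    ring
  rw [h2]
  refine h1.trans ?_
  by_cases h3 : Module.finrank (ZMod ℓ) (KerP D A B d) = 0
  · rw [if_pos h3, if_pos]
    rw [Submodule.finrank_eq_zero] at h3
    intro w hw1 hw2
    have : w ∈ KerP D A B d := ⟨hw1, hw2⟩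
    rw [h3] at this
    exact this
  · rw [if_neg h3]
    split_ifs <;> norm_num

theorem XX_ge (d : ι → ZMod ℓ) {K : ℕ} (hK : Odd K) :
    ∑ j ∈ range (K + 1), (-1) ^ j * ((ℓ : ℝ) ^ (j * (j - 1) / 2) /
      ∏ i ∈ range j, ((ℓ : ℝ) ^ j - (ℓ : ℝ) ^ i)) * SS D Q d 𝒞 j ≤ XX D Q d 𝒞 := by
  simp only [SS, XX, mul_sum]
  rw [sum_comm]
  apply sum_le_sum
  intro T _
  by_cases h1 : ok Q T ∧ cl D Q T
  · have h2 := bon_ker D (AT ℓ T) (BT ℓ Q T) d hK
    simp only [if_pos h1]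
    refine h2.trans ?_
    by_cases h3 : Triv D (AT ℓ T) (BT ℓ Q T) d
    · rw [if_pos h3, if_pos ⟨h1, h3⟩]
    · rw [if_neg h3, if_neg (fun h => h3 h.2)]
  · simp only [if_neg h1, mul_zero, sum_const_zero]
    split_ifs <;> norm_num

end ker

theorem prod_ge {l v : ℝ} (hl : 1 ≤ l) (hv : 0 < v) (j : ℕ) (hj : l ^ j ≤ v) :
    1 - (∑ i ∈ range j, l ^ i) / v ≤ ∏ i ∈ range j, (1 - l ^ i / v) := by
  induction j with
  | zero => simp
  | succ j ih =>
    have h1 : l ^ j ≤ v := (pow_le_pow_right₀ hl (Nat.le_succ j)).trans hj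
    have h2 := ih h1
    rw [prod_range_succ, sum_range_succ]
    have h3 : l ^ j / v ≤ 1 := (div_le_one hv).2 h1
    have h4 : 0 ≤ l ^ j / v := by positivity
    have h5 : ∏ i ∈ range j, (1 - l ^ i / v) ≤ 1 := by
      apply prod_le_one
      · intro i hi
        have : l ^ i / v ≤ 1 := (div_le_one hv).2 ((pow_le_pow_right₀ hl
          (mem_range.1 hi).le).trans h1)
        linarith
      · intro i _
        have : 0 ≤ l ^ i / v := by positivity
        linarith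
    rw [add_div]
    nlinarith

end Pool.Agent.Y164.SZ
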