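import Mathlib

/-!
The symmetric bilinear form whose kernel is the group of everywhere locally soluble classes:
abstract part, over the field with `ℓ` elements.
-/

set_option autoImplicit false
set_option linter.all false

namespace Pool.Agent.Y164.SZ

open Finset

variable {ℓ : ℕ} {W : Type} [AddCommGroup W] [Module (ZMod ℓ) W]

variable (ℓ W) in
/-- The data attached to the bad primes of the curve. -/
structure FDat (τ : Type) [Fintype τ] where
  om : LinearMap.BilinForm (ZMod ℓ) W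
  om_comm : ∀ x y, om x y = om y x
  nd : ∀ x, (∀ y, om x y = 0) → x = 0
  t : τ → W
  G : τ → τ → ZMod ℓ
  e : τ → ZMod ℓ
  ks : W → W
  ks_add : ∀ x y, ks (x + y) = ks x + ks y
  ks_comm : ∀ x y, om (ks x) y = om (ks y) x
  N : ZMod ℓ
  g : τ → ZMod ℓ
  sp : τ → ZMod ℓ
  symm : ∀ s s', G s s' = G s' s
  h1 : ∀ s y, ∑ s', G s s' * (om y (t s') * om (t s') (t s)) - e s * om (ks y) (t s) =
    g s * om y (t s)
  h4 : ∀ y, ∑ s, (e s * om y (t s)) • t s = N • y

variable {ι τ : Type} [Fintype ι] [Fintype τ]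

/-- the space of exponents -/
abbrev V (ℓ : ℕ) (W ι τ : Type) := (ι → W) × (τ → ZMod ℓ)

/-- the form -/
def FF (D : FDat ℓ W τ) (A : ι → ι → ZMod ℓ) (B : ι → τ → ZMod ℓ) (d : ι → ZMod ℓ)
    (w w' : V ℓ W ι τ) : ZMod ℓ :=
  ∑ i, ∑ j, A i j * D.om (w.1 j - w.1 i) (w'.1 i) +
  ∑ i, ∑ s, B i s * (w.2 s * D.om (D.t s) (w'.1 i) + w'.2 s * D.om (w.1 i) (D.t s) -
    D.om (w.1 i) (D.t s) * D.om (w'.1 i) (D.t s)) +
  ∑ s, ∑ s', D.G s s' * (w.2 s' * w'.2 s * D.om (D.t s') (D.t s)) +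
  ∑ s, D.sp s * (w.2 s * w'.2 s) + ∑ i, d i * D.om (D.ks (w.1 i)) (w'.1 i)

/-- the degree of the divisor -/
def dg (D : FDat ℓ W τ) (d : ι → ZMod ℓ) (w : V ℓ W ι τ) : W :=
  ∑ i, d i • w.1 i + ∑ s, (D.e s * w.2 s) • D.t s

variable (D : FDat ℓ W τ) (A : ι → ι → ZMod ℓ) (B : ι → τ → ZMod ℓ) (d : ι → ZMod ℓ)

theorem FDat.ks_zero : D.ks 0 = 0 := by
  have h := D.ks_add 0 0
  rw [add_zero] at h
  exact left_eq_add.1 h

theorem dg_add (w w' : V ℓ W ι τ) : dg D d (w + w') = dg D d w + dg D d w' := by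
  simp only [dg, Prod.fst_add, Prod.snd_add, Pi.add_apply, smul_add, mul_add, add_smul,
    sum_add_distrib]
  abel

theorem dg_smul (c : ZMod ℓ) (w : V ℓ W ι τ) : dg D d (c • w) = c • dg D d w := by
  simp only [dg, Prod.smul_fst, Prod.smul_snd, Pi.smul_apply, smul_add, smul_sum, smul_smul,
    smul_eq_mul]
  congr 1
  · exact sum_congr rfl fun i _ => by rw [mul_comm]
  · exact sum_congr rfl fun i _ => by congr 1; ring

/-- the degree as a linear map -/
def dgL : V ℓ W ι τ →ₗ[ZMod ℓ] W where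
  toFun := dg D d
  map_add' := dg_add D d
  map_smul' := dg_smul D d

theorem dgL_apply (w : V ℓ W ι τ) : dgL D d w = dg D d w := rfl

theorem ks_smul (c : ZMod ℓ) (x : W) : D.ks (c • x) = c • D.ks x := by
  have h : ∀ y, D.om (D.ks (c • x)) y = D.om (c • D.ks x) y := by
    intro y
    rw [D.ks_comm, map_smul, ← D.ks_comm, map_smul, LinearMap.smul_apply]
  have h2 : D.ks (c • x) - c • D.ks x = 0 := by
    apply D.nd
    intro y
    rw [map_sub, LinearMap.sub_apply, h, sub_self]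
  exact sub_eq_zero.1 h2

theorem FF_add_left (w₁ w₂ w' : V ℓ W ι τ) :
    FF D A B d (w₁ + w₂) w' = FF D A B d w₁ w' + FF D A B d w₂ w' := by
  simp only [FF, Prod.fst_add, Prod.snd_add, Pi.add_apply, map_add, LinearMap.add_apply,
    D.ks_add, ← sum_add_distrib]
  rw [← sub_eq_zero]
  simp only [← sum_sub_distrib, map_add, map_sub, LinearMap.add_apply, LinearMap.sub_apply]
  have e1 : ∀ i j, A i j * ((D.om (w₁.1 j)) (w'.1 i) + (D.om (w₂.1 j)) (w'.1 i) -
      ((D.om (w₁.1 i)) (w'.1 i) + (D.om (w₂.1 i)) (w'.1 i))) =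
      A i j * ((D.om (w₁.1 j)) (w'.1 i) - (D.om (w₁.1 i)) (w'.1 i)) +
      A i j * ((D.om (w₂.1 j)) (w'.1 i) - (D.om (w₂.1 i)) (w'.1 i)) := fun i j => by ring
  simp only [e1, sum_add_distrib]
  have e2 : ∀ i s, B i s * ((w₁.2 s + w₂.2 s) * (D.om (D.t s)) (w'.1 i) +
      w'.2 s * ((D.om (w₁.1 i)) (D.t s) + (D.om (w₂.1 i)) (D.t s)) -
      ((D.om (w₁.1 i)) (D.t s) + (D.om (w₂.1 i)) (D.t s)) * (D.om (w'.1 i)) (D.t s)) =
      B i s * (w₁.2 s * (D.om (D.t s)) (w'.1 i) + w'.2 s * (D.om (w₁.1 i)) (D.t s) -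
      (D.om (w₁.1 i)) (D.t s) * (D.om (w'.1 i)) (D.t s)) +
      B i s * (w₂.2 s * (D.om (D.t s)) (w'.1 i) + w'.2 s * (D.om (w₂.1 i)) (D.t s) -
      (D.om (w₂.1 i)) (D.t s) * (D.om (w'.1 i)) (D.t s)) := fun i s => by ring
  have e3 : ∀ s s', D.G s s' * ((w₁.2 s' + w₂.2 s') * w'.2 s * (D.om (D.t s')) (D.t s)) =
      D.G s s' * (w₁.2 s' * w'.2 s * (D.om (D.t s')) (D.t s)) +
      D.G s s' * (w₂.2 s' * w'.2 s * (D.om (D.t s')) (D.t s)) := fun s s' => by ring
  have e4 : ∀ s, D.sp s * ((w₁.2 s + w₂.2 s) * w'.2 s) = D.sp s * (w₁.2 s * w'.2 s) +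
      D.sp s * (w₂.2 s * w'.2 s) := fun s => by ring
  have e5 : ∀ i, d i * ((D.om (D.ks (w₁.1 i))) (w'.1 i) + (D.om (D.ks (w₂.1 i))) (w'.1 i)) =
      d i * (D.om (D.ks (w₁.1 i))) (w'.1 i) + d i * (D.om (D.ks (w₂.1 i))) (w'.1 i) :=
    fun i => by ring
  simp only [e2, e3, e4, e5, sum_add_distrib]
  ring

theorem FF_comm (hA : ∀ i j, A i j = A j i) (w w' : V ℓ W ι τ) :
    FF D A B d w w' = FF D A B d w' w := by
  have e1 : ∑ i, ∑ j, A i j * D.om (w.1 j - w.1 i) (w'.1 i) =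
      ∑ i, ∑ j, A i j * D.om (w'.1 j - w'.1 i) (w.1 i) := by
    simp only [map_sub, LinearMap.sub_apply, mul_sub, sum_sub_distrib]
    congr 1
    · rw [sum_comm]
      refine sum_congr rfl fun i _ => sum_congr rfl fun j _ => ?_
      rw [hA, D.om_comm]
    · refine sum_congr rfl fun i _ => sum_congr rfl fun j _ => ?_
      rw [D.om_comm]
  have e2 : ∑ i, ∑ s, B i s * (w.2 s * D.om (D.t s) (w'.1 i) + w'.2 s * D.om (w.1 i) (D.t s) -
      D.om (w.1 i) (D.t s) * D.om (w'.1 i) (D.t s)) =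
      ∑ i, ∑ s, B i s * (w'.2 s * D.om (D.t s) (w.1 i) + w.2 s * D.om (w'.1 i) (D.t s) -
      D.om (w'.1 i) (D.t s) * D.om (w.1 i) (D.t s)) := by
    refine sum_congr rfl fun i _ => sum_congr rfl fun s _ => ?_
    rw [D.om_comm (D.t s) (w'.1 i), D.om_comm (D.t s) (w.1 i)]
    ring
  have e3 : ∑ s, ∑ s', D.G s s' * (w.2 s' * w'.2 s * D.om (D.t s') (D.t s)) =
      ∑ s, ∑ s', D.G s s' * (w'.2 s' * w.2 s * D.om (D.t s') (D.t s)) := by
    rw [sum_comm]
    refine sum_congr rfl fun i _ => sum_congr rfl fun j _ => ?_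
    rw [D.symm, D.om_comm (D.t i) (D.t j)]
    ring
  have e4 : ∑ s, D.sp s * (w.2 s * w'.2 s) = ∑ s, D.sp s * (w'.2 s * w.2 s) :=
    sum_congr rfl fun s _ => by ring
  have e5 : ∑ i, d i * D.om (D.ks (w.1 i)) (w'.1 i) = ∑ i, d i * D.om (D.ks (w'.1 i)) (w.1 i) :=
    sum_congr rfl fun i _ => by rw [D.ks_comm]
  rw [FF, FF, e1, e2, e3, e4, e5]

theorem FF_add_right (hA : ∀ i j, A i j = A j i) (w w₁ w₂ : V ℓ W ι τ) :
    FF D A B d w (w₁ + w₂) = FF D A B d w w₁ + FF D A B d w w₂ := by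
  rw [FF_comm D A B d hA, FF_add_left, FF_comm D A B d hA w₁, FF_comm D A B d hA w₂]

theorem FF_zero_left (w : V ℓ W ι τ) : FF D A B d 0 w = 0 := by
  have h := FF_add_left D A B d 0 0 w
  rw [add_zero] at h
  exact left_eq_add.1 h

theorem FF_smul_left (c : ZMod ℓ) (w w' : V ℓ W ι τ) :
    FF D A B d (c • w) w' = c * FF D A B d w w' := by
  simp only [FF, Prod.smul_fst, Prod.smul_snd, Pi.smul_apply, smul_eq_mul, mul_add, mul_sum,
    ks_smul, map_smul, LinearMap.smul_apply, ← smul_sub]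
  congr 1
  · congr 1
    · congr 1
      · congr 1
        · exact sum_congr rfl fun i _ => sum_congr rfl fun j _ => by ring
        · exact sum_congr rfl fun i _ => sum_congr rfl fun j _ => by ring
      · exact sum_congr rfl fun i _ => sum_congr rfl fun j _ => by ring
    · exact sum_congr rfl fun i _ => by ring
  · exact sum_congr rfl fun i _ => by ring

/-- the form as a bilinear form -/
def FB (hA : ∀ i j, A i j = A j i) : LinearMap.BilinForm (ZMod ℓ) (V ℓ W ι τ) :=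
  LinearMap.mk₂ (ZMod ℓ) (FF D A B d) (FF_add_left D A B d) (FF_smul_left D A B d)
    (FF_add_right D A B d hA) (fun c w w' => by
      rw [FF_comm D A B d hA, FF_smul_left, FF_comm D A B d hA w']; rfl)

theorem FB_apply (hA : ∀ i j, A i j = A j i) (w w' : V ℓ W ι τ) :
    FB D A B d hA w w' = FF D A B d w w' := rfl

/-- the equations at the primes of the twist -/
def E1 (w : V ℓ W ι τ) (x0 : W) (i : ι) : W :=
  ∑ j, A i j • (w.1 j - w.1 i) + ∑ s, B i s • (w.2 s • D.t s - D.om (w.1 i) (D.t s) • D.t s) +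
    d i • (D.ks (w.1 i) + x0)

/-- the equations at the bad primes -/
def E2 (w : V ℓ W ι τ) (x0 : W) (s : τ) : ZMod ℓ :=
  D.sp s * w.2 s + ∑ i, B i s * D.om (w.1 i) (D.t s) +
    ∑ s', D.G s s' * (w.2 s' * D.om (D.t s') (D.t s)) + D.e s * D.om x0 (D.t s)

theorem FF_eq (w : V ℓ W ι τ) (x0 : W) (h1 : ∀ i, E1 D A B d w x0 i = 0)
    (h2 : ∀ s, E2 D B w x0 s = 0) (w' : V ℓ W ι τ) :
    FF D A B d w w' = - D.om x0 (dg D d w') := by
  have key : FF D A B d w w' + D.om x0 (dg D d w') =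
      ∑ i, D.om (E1 D A B d w x0 i) (w'.1 i) + ∑ s, E2 D B w x0 s * w'.2 s := by
    have a1 : ∀ i, D.om (E1 D A B d w x0 i) (w'.1 i) =
        ∑ j, A i j * D.om (w.1 j - w.1 i) (w'.1 i) +
        ∑ s, B i s * (w.2 s * D.om (D.t s) (w'.1 i) - D.om (w.1 i) (D.t s) * D.om (D.t s) (w'.1 i)) +
        (d i * D.om (D.ks (w.1 i)) (w'.1 i) + d i * D.om x0 (w'.1 i)) := by
      intro i
      simp only [E1, map_add, map_sum, map_smul, map_sub, LinearMap.add_apply, LinearMap.sum_apply,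
        LinearMap.smul_apply, LinearMap.sub_apply, smul_eq_mul]
      rw [mul_add (d i)]
    have a2 : ∀ s, E2 D B w x0 s * w'.2 s = D.sp s * (w.2 s * w'.2 s) +
        ∑ i, B i s * (w'.2 s * D.om (w.1 i) (D.t s)) +
        ∑ s', D.G s s' * (w.2 s' * w'.2 s * D.om (D.t s') (D.t s)) +
        D.e s * w'.2 s * D.om x0 (D.t s) := by
      intro s
      simp only [E2, add_mul, sum_mul]
      congr 1
      · congr 1
        · congr 1
          · ring
          · refine sum_congr rfl fun i _ => ?_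
            ring
        · refine sum_congr rfl fun i _ => ?_
          ring
      · ring
    have a3 : D.om x0 (dg D d w') = ∑ i, d i * D.om x0 (w'.1 i) +
        ∑ s, D.e s * w'.2 s * D.om x0 (D.t s) := by
      simp only [dg, map_add, map_sum, map_smul, smul_eq_mul]
    have a4 : ∑ i, ∑ s, B i s * (w.2 s * D.om (D.t s) (w'.1 i) + w'.2 s * D.om (w.1 i) (D.t s) -
        D.om (w.1 i) (D.t s) * D.om (w'.1 i) (D.t s)) =
        ∑ i, ∑ s, B i s * (w.2 s * D.om (D.t s) (w'.1 i) - D.om (w.1 i) (D.t s) * D.om (D.t s) (w'.1 i)) +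
        ∑ s, ∑ i, B i s * (w'.2 s * D.om (w.1 i) (D.t s)) := by
      rw [sum_comm (s := (univ : Finset τ)) (t := (univ : Finset ι)), ← sum_add_distrib]
      refine sum_congr rfl fun i _ => ?_
      rw [← sum_add_distrib]
      refine sum_congr rfl fun s _ => ?_
      rw [D.om_comm (w'.1 i) (D.t s)]; ring
    rw [a3]
    simp only [a1, a2, sum_add_distrib]
    rw [FF, a4]
    ring
  simp only [h1, h2, map_zero, LinearMap.zero_apply, zero_mul, sum_const_zero, add_zero] at key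
  exact eq_neg_of_add_eq_zero_left key

/-- the torsion vectors -/
def TT (y : W) : V ℓ W ι τ := (fun _ => y, fun s => D.om y (D.t s))

theorem TT_zero : (TT D 0 : V ℓ W ι τ) = 0 := by
  refine Prod.ext rfl (funext fun s => ?_)
  show D.om 0 (D.t s) = 0
  rw [map_zero, LinearMap.zero_apply]

theorem dg_TT (y : W) : dg D d (TT D y) = (∑ i, d i + D.N) • y := by
  simp only [dg, TT]
  rw [D.h4 y, ← sum_smul, add_smul]

variable {B} in
theorem E1_sub (w w' : V ℓ W ι τ) (x0 x0' : W) (i : ι) :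
    E1 D A B d (w - w') (x0 - x0') i = E1 D A B d w x0 i - E1 D A B d w' x0' i := by
  have hk : ∀ x y, D.ks (x - y) = D.ks x - D.ks y := by
    intro x y
    have h := D.ks_add (x - y) y
    rw [sub_add_cancel] at h
    rw [h, add_sub_cancel_right]
  simp only [E1, Prod.fst_sub, Prod.snd_sub, Pi.sub_apply, hk, map_sub, LinearMap.sub_apply,
    sub_smul]
  have e1 : ∀ j, A i j • (w.1 j - w'.1 j - (w.1 i - w'.1 i)) = A i j • (w.1 j - w.1 i) -
      A i j • (w'.1 j - w'.1 i) := by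
    intro j
    rw [← smul_sub]; congr 1; abel
  have e2 : ∀ s, B i s • (w.2 s • D.t s - w'.2 s • D.t s -
      (D.om (w.1 i) (D.t s) • D.t s - D.om (w'.1 i) (D.t s) • D.t s)) =
      B i s • (w.2 s • D.t s - D.om (w.1 i) (D.t s) • D.t s) -
      B i s • (w'.2 s • D.t s - D.om (w'.1 i) (D.t s) • D.t s) := by
    intro s
    rw [← smul_sub]; congr 1; abel
  have e3 : d i • (D.ks (w.1 i) - D.ks (w'.1 i) + (x0 - x0')) = d i • (D.ks (w.1 i) + x0) -
      d i • (D.ks (w'.1 i) + x0') := by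
    rw [← smul_sub]; congr 1; abel
  simp only [e1, e2, e3, sum_sub_distrib]
  abel

variable {B} in
theorem E2_sub (w w' : V ℓ W ι τ) (x0 x0' : W) (s : τ) :
    E2 D B (w - w') (x0 - x0') s = E2 D B w x0 s - E2 D B w' x0' s := by
  simp only [E2, Prod.fst_sub, Prod.snd_sub, Pi.sub_apply, map_sub, LinearMap.sub_apply, mul_sub,
    sub_mul, sum_sub_distrib]
  ring

theorem E1_TT (y : W) (i : ι) : E1 D A B d (TT D y) (- D.ks y) i = 0 := by
  simp only [E1, TT, sub_self, smul_zero, sum_const_zero, add_zero, add_neg_cancel]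

theorem E2_TT (hcl : ∀ s, D.sp s + ∑ i, B i s + D.g s = 0) (y : W) (s : τ) :
    E2 D B (TT D y) (- D.ks y) s = 0 := by
  simp only [E2, TT]
  have h1 := D.h1 s y
  have h2 := hcl s
  rw [map_neg, LinearMap.neg_apply, mul_neg, ← sub_eq_add_neg, add_sub_assoc, h1, ← sum_mul]
  calc D.sp s * D.om y (D.t s) + (∑ i, B i s) * D.om y (D.t s) + D.g s * D.om y (D.t s) =
      (D.sp s + ∑ i, B i s + D.g s) * D.om y (D.t s) := by ring
    _ = 0 := by rw [h2, zero_mul]

/-- the kernel is trivial -/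
def Triv : Prop := ∀ w : V ℓ W ι τ, dg D d w = 0 →
  (∀ w' : V ℓ W ι τ, dg D d w' = 0 → FF D A B d w w' = 0) → w = 0

theorem key_of_triv (hcl : ∀ s, D.sp s + ∑ i, B i s + D.g s = 0) (hN : IsUnit (∑ i, d i + D.N))
    (hT : Triv D A B d) (w : V ℓ W ι τ) (x0 : W) (h1 : ∀ i, E1 D A B d w x0 i = 0)
    (h2 : ∀ s, E2 D B w x0 s = 0) : ∃ y, w = TT D y ∧ x0 = - D.ks y := by
  obtain ⟨u, hu⟩ := hN
  obtain ⟨y, hy⟩ : ∃ y, y = (↑u⁻¹ : ZMod ℓ) • dg D d w := ⟨_, rfl⟩
  have hdT : ∀ z : W, dg D d (TT D z) = (u : ZMod ℓ) • z := fun z => by rw [dg_TT, hu]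
  have hyw : (u : ZMod ℓ) • y = dg D d w := by
    rw [hy, smul_smul, Units.mul_inv, one_smul]
  refine ⟨y, ?_⟩
  have k1 : ∀ i, E1 D A B d (w - TT D y) (x0 - - D.ks y) i = 0 := fun i => by
    rw [E1_sub, h1, E1_TT, sub_zero]
  have k2 : ∀ s, E2 D B (w - TT D y) (x0 - - D.ks y) s = 0 := fun s => by
    rw [E2_sub, h2, E2_TT D B hcl, sub_zero]
  have k3 := FF_eq D A B d _ _ k1 k2
  have k4 : w - TT D y = 0 := by
    apply hT
    · have h5 := (dgL D d).map_sub w (TT D y)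
      rw [dgL_apply, dgL_apply, dgL_apply] at h5
      rw [h5, hdT, hyw, sub_self]
    · intro w' hw'
      rw [k3, hw', map_zero, neg_zero]
  refine ⟨sub_eq_zero.1 k4, ?_⟩
  have k6 : x0 - - D.ks y = 0 := by
    apply D.nd
    intro z
    have h5 := k3 (TT D ((↑u⁻¹ : ZMod ℓ) • z))
    rw [k4, FF_zero_left, hdT, smul_smul, Units.mul_inv, one_smul] at h5
    exact neg_eq_zero.1 h5.symm
  exact sub_eq_zero.1 k6

end Pool.Agent.Y164.SZ
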