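import Pool.Agent.Y164.SZ.Cls

/-!
The configurations which give the main term, for moments of arbitrary order.
-/

set_option autoImplicit false
set_option linter.all false

namespace Pool.Agent.Y164.SZ

open Finset

variable {ℓ : ℕ} [hp : Fact ℓ.Prime] {W : Type} [AddCommGroup W] [Module (ZMod ℓ) W]
variable {ι τ : Type} [Fintype ι] [Fintype τ] (D : FDat ℓ W τ) (d : ι → ZMod ℓ)
variable {κ : Type} [Fintype κ]

/-- the label of `i` -/
def lab (w w' : κ → V ℓ W ι τ) (i : ι) : κ → W × W := fun a => ((w a).1 i, (w' a).1 i)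

/-- the coordinates at `s` -/
def zet (w w' : κ → V ℓ W ι τ) (s : τ) : κ → ZMod ℓ × ZMod ℓ := fun a => ((w a).2 s, (w' a).2 s)

/-- the coefficient of a symbol at a bad prime -/
def ee (s : τ) (ζ : κ → ZMod ℓ × ZMod ℓ) (X : κ → W × W) : ZMod ℓ :=
  Hb ζ (ev D (D.t s) X) - Hq (ev D (D.t s) X)

theorem Hb_add_right (u v v' : κ → ZMod ℓ × ZMod ℓ) : Hb u (v + v') = Hb u v + Hb u v' := by
  rw [Hb_comm, Hb_add_left, Hb_comm v, Hb_comm v']

theorem ee_diff (s : τ) (ζ : κ → ZMod ℓ × ZMod ℓ) (U : ZMod ℓ) (X0 m m' : κ → W × W)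
    (h0 : ee D s ζ X0 + U = 0) (h1 : ee D s ζ (X0 + m) + U = 0) (h2 : ee D s ζ (X0 + m') + U = 0)
    (h3 : ee D s ζ (X0 + m + m') + U = 0) :
    Hb (ev D (D.t s) m) (ev D (D.t s) m') = 0 := by
  simp only [ee, ev_add, Hb_add_right, Hb_add_left, Hq_add] at h0 h1 h2 h3
  linear_combination h1 + h2 - h3 - h0

theorem ee_diff1 (s : τ) (ζ : κ → ZMod ℓ × ZMod ℓ) (U : ZMod ℓ) (X0 m : κ → W × W)
    (h0 : ee D s ζ X0 + U = 0) (h1 : ee D s ζ (X0 + m) + U = 0)
    (hq : Hq (ev D (D.t s) m) = 0) : Hb (ζ - ev D (D.t s) X0) (ev D (D.t s) m) = 0 := by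
  simp only [ee, ev_add, Hb_add_right, Hb_add_left, Hq_add, hq] at h0 h1
  rw [Hb_sub_left]
  linear_combination h1 - h0

theorem Hq_of (h2 : ℓ ≠ 2) (u : κ → ZMod ℓ × ZMod ℓ) (h : Hb u u = 0) : Hq u = 0 := by
  rw [Hb_self] at h
  exact (mul_eq_zero.1 h).resolve_left (two_ne h2)

/-- the degree of a tuple -/
theorem dg_tup (w w' : κ → V ℓ W ι τ) (hw : ∀ a, dg D d (w a) = 0) (hw' : ∀ a, dg D d (w' a) = 0) :
    ∑ i, d i • lab w w' i + ∑ s, D.e s • tens (D.t s) (zet w w' s) = 0 := by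
  funext a
  have e1 : (∑ i, d i • lab w w' i + ∑ s, D.e s • tens (D.t s) (zet w w' s)) a =
      (dg D d (w a), dg D d (w' a)) := by
    rw [Pi.add_apply, Finset.sum_apply, Finset.sum_apply]
    apply Prod.ext
    · rw [Prod.fst_add, Prod.fst_sum, Prod.fst_sum]
      simp only [dg, lab, tens, zet, Pi.smul_apply, Prod.smul_fst, smul_smul]
    · rw [Prod.snd_add, Prod.snd_sum, Prod.snd_sum]
      simp only [dg, lab, tens, zet, Pi.smul_apply, Prod.smul_snd, smul_smul]
  rw [e1, hw, hw']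
  rfl

theorem h4_tup (X : κ → W × W) : ∑ s, D.e s • tens (D.t s) (ev D (D.t s) X) = D.N • X := by
  funext a
  rw [Finset.sum_apply]
  apply Prod.ext
  · rw [Prod.fst_sum]
    simp only [tens, ev, Pi.smul_apply, Prod.smul_fst, smul_smul]
    exact D.h4 _
  · rw [Prod.snd_sum]
    simp only [tens, ev, Pi.smul_apply, Prod.smul_snd, smul_smul]
    exact D.h4 _

variable [Finite W]

theorem ev_mem_all (hG : Conn D) (Λ : Submodule (ZMod ℓ) (κ → ZMod ℓ × ZMod ℓ)) (X : κ → W × W)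
    (hX : ∀ s, ev D (D.t s) X ∈ Λ) (x : W) : ev D x X ∈ Λ := by
  have hx : x ∈ Submodule.span (ZMod ℓ) (Set.range D.t) := by rw [span_t D hG]; trivial
  refine Submodule.span_induction (p := fun x _ => ev D x X ∈ Λ) ?_ ?_ ?_ ?_ hx
  · rintro _ ⟨s, rfl⟩
    exact hX s
  · rw [ev_zero_t]
    exact Λ.zero_mem
  · intro a b _ _ h1 h2
    rw [ev_add_t]
    exact Λ.add_mem h1 h2
  · intro c a _ h1
    rw [ev_smul_t]
    exact Λ.smul_mem c h1

theorem dual_mem (hG : Conn D) (Λ : Submodule (ZMod ℓ) (κ → ZMod ℓ × ZMod ℓ))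
    (w w' : κ → V ℓ W ι τ) (h1 : ∀ i s, ev D (D.t s) (lab w w' i) ∈ Λ)
    (h2 : ∀ s, zet w w' s ∈ Λ) (φ : V ℓ W ι τ →ₗ[ZMod ℓ] ZMod ℓ) :
    (fun a => (φ (w a), φ (w' a))) ∈ Λ := by
  classical
  obtain ⟨b⟩ : Nonempty (Module.Basis (Fin (Module.finrank (ZMod ℓ) W)) (ZMod ℓ) W) :=
    ⟨Module.finBasis _ _⟩
  obtain ⟨b', hb'⟩ : ∃ b' : Fin (Module.finrank (ZMod ℓ) W) → W,
      b' = fun l => (D.om.dualBasis (om_nd D) b) l := ⟨_, rfl⟩
  have hrep : ∀ x : W, x = ∑ l, D.om x (b l) • b' l := by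
    intro x
    rw [hb']
    conv_lhs => rw [← (D.om.dualBasis (om_nd D) b).sum_repr x]
    refine sum_congr rfl fun i _ => ?_
    rw [LinearMap.BilinForm.dualBasis_repr_apply]
  obtain ⟨c, hc⟩ : ∃ c : ι → Fin (Module.finrank (ZMod ℓ) W) → ZMod ℓ,
      c = fun i l => φ (Pi.single i (b' l), 0) := ⟨_, rfl⟩
  obtain ⟨e, he⟩ : ∃ e : τ → ZMod ℓ, e = fun s => φ (0, Pi.single s 1) := ⟨_, rfl⟩
  have hval : ∀ v : V ℓ W ι τ, φ v = ∑ i, ∑ l, c i l * D.om (v.1 i) (b l) + ∑ s, e s * v.2 s := by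
    intro v
    have h3 : v = ∑ i, ∑ l, D.om (v.1 i) (b l) • ((Pi.single i (b' l), 0) : V ℓ W ι τ) +
        ∑ s, v.2 s • ((0, Pi.single s 1) : V ℓ W ι τ) := by
      apply Prod.ext
      · rw [Prod.fst_add, Prod.fst_sum, Prod.fst_sum]
        simp only [Prod.fst_sum, Prod.smul_fst, smul_zero, sum_const_zero, add_zero]
        funext i
        rw [Finset.sum_apply]
        rw [sum_eq_single i]
        · rw [Finset.sum_apply]
          simp only [Pi.smul_apply, Pi.single_eq_same]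
          exact hrep _
        · intro j _ hj
          rw [Finset.sum_apply]
          simp only [Pi.smul_apply, Pi.single_eq_of_ne (Ne.symm hj), smul_zero, sum_const_zero]
        · intro h
          exact absurd (mem_univ _) h
      · rw [Prod.snd_add, Prod.snd_sum, Prod.snd_sum]
        simp only [Prod.snd_sum, Prod.smul_snd, smul_zero, sum_const_zero, zero_add]
        funext s
        rw [Finset.sum_apply, sum_eq_single s]
        · simp
        · intro j _ hj
          simp only [Pi.smul_apply, Pi.single_eq_of_ne (Ne.symm hj), smul_zero]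
        · intro h
          exact absurd (mem_univ _) h
    conv_lhs => rw [h3]
    rw [map_add, map_sum, map_sum]
    simp only [map_sum, map_smul, smul_eq_mul, hc, he]
    congr 1
    · exact sum_congr rfl fun i _ => sum_congr rfl fun l _ => mul_comm _ _
    · exact sum_congr rfl fun s _ => mul_comm _ _
  have key : (fun a => (φ (w a), φ (w' a))) =
      ∑ i, ∑ l, c i l • ev D (b l) (lab w w' i) + ∑ s, e s • zet w w' s := by
    funext a
    rw [Pi.add_apply, Finset.sum_apply, Finset.sum_apply]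
    simp only [Finset.sum_apply]
    apply Prod.ext
    · rw [Prod.fst_add, Prod.fst_sum, Prod.fst_sum]
      simp only [Prod.fst_sum]
      exact hval _
    · rw [Prod.snd_add, Prod.snd_sum, Prod.snd_sum]
      simp only [Prod.snd_sum]
      exact hval _
  rw [key]
  refine Λ.add_mem (Λ.sum_mem fun i _ => Λ.sum_mem fun l _ => Λ.smul_mem _ ?_)
    (Λ.sum_mem fun s _ => Λ.smul_mem _ (h2 s))
  exact ev_mem_all D hG Λ _ (h1 i) _

/-- the main configurations -/
theorem main_cfg (h2 : ℓ ≠ 2) (hN : IsUnit (∑ i, d i + D.N)) (hG : Conn D)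
    (w w' : κ → V ℓ W ι τ) (U : τ → ZMod ℓ) (hw : ∀ a, dg D d (w a) = 0)
    (hw' : ∀ a, dg D d (w' a) = 0) (hli : LinearIndependent (ZMod ℓ) w)
    (lg : Finset ι) (hcard : Nat.card W ^ Fintype.card κ ≤
      Nat.card {X : κ → W × W | ∃ j ∈ lg, lab w w' j = X})
    (hu : ∀ j ∈ lg, ∀ i, Oq D (lab w w' i - lab w w' j) = 0)
    (hee : ∀ j ∈ lg, ∀ s, ee D s (zet w w' s) (lab w w' j) + U s = 0) :
    (∃ A : κ → κ → ZMod ℓ, (∀ a b, A a b = - A b a) ∧ ∀ a, w' a = ∑ b, A a b • w b) ∧ U = 0 := by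
  classical
  set S : Set (κ → W × W) := {X | ∃ j ∈ lg, lab w w' j = X} with hS
  have hSne : S.Nonempty := by
    by_contra he
    rw [Set.not_nonempty_iff_eq_empty] at he
    rw [he] at hcard
    have : 0 < Nat.card W ^ Fintype.card κ := pow_pos Nat.card_pos _
    simp only [Nat.card_of_isEmpty] at hcard
    omega
  obtain ⟨X0, hX0⟩ := hSne
  obtain ⟨M, hB, hO, hc, hmem⟩ := coset_of D h2 S (by
    rintro X ⟨j, hj, rfl⟩ Y ⟨j', hj', rfl⟩
    exact hu j' hj' j) hcard X0 hX0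
  have hperp := (iso_le D M hB).2 hc
  have he3 : ∀ s, ∀ m ∈ M, ee D s (zet w w' s) (X0 + m) + U s = 0 := by
    intro s m hm
    have h3 : X0 + m ∈ S := by
      rw [hmem, add_sub_cancel_left]
      exact hm
    obtain ⟨j, hj, hjX⟩ := h3
    rw [← hjX]
    exact hee j hj s
  have he0 : ∀ s, ee D s (zet w w' s) X0 + U s = 0 := by
    intro s
    have := he3 s 0 M.zero_mem
    rwa [add_zero] at this
  obtain ⟨Λ, p1, p2, p3, p4, p5⟩ := dir_of D hG M hB hc (by
    intro s m hm m' hm'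
    refine ee_diff D s (zet w w' s) (U s) X0 m m' (he0 s) (he3 s m hm) (he3 s m' hm') ?_
    rw [add_assoc]
    exact he3 s _ (M.add_mem hm hm'))
  -- the coordinates at the bad primes
  have hz : ∀ s, zet w w' s - ev D (D.t s) X0 ∈ Λ := by
    intro s
    apply p1
    intro v hv
    obtain ⟨m, hm, rfl⟩ := p5 s v hv
    refine ee_diff1 D s (zet w w' s) (U s) X0 m (he0 s) (he3 s m hm) ?_
    exact Hq_of h2 _ (p2 _ hv _ hv)
  -- all labels
  have hlab : ∀ i, lab w w' i - X0 ∈ M := by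
    intro i
    have h3 : ∀ m ∈ M, Oq D (lab w w' i - X0 - m) = 0 := by
      intro m hm
      have h4 : X0 + m ∈ S := by
        rw [hmem, add_sub_cancel_left]
        exact hm
      obtain ⟨j, hj, hjX⟩ := h4
      have := hu j hj i
      rw [hjX] at this
      rwa [sub_sub]
    have h4 : Oq D (lab w w' i - X0) = 0 := by
      have := h3 0 M.zero_mem
      rwa [sub_zero] at this
    apply hperp
    intro m hm
    have h5 := h3 m hm
    rw [Oq_sub, h4, hO m hm, zero_add, zero_sub] at h5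
    exact neg_eq_zero.1 h5
  -- the base point
  have hX0M : X0 ∈ M := by
    obtain ⟨u, hu'⟩ := hN
    have h3 := dg_tup D d w w' hw hw'
    have h4 := h4_tup D X0
    have h5 : ∑ i, d i • lab w w' i = (∑ i, d i) • X0 + ∑ i, d i • (lab w w' i - X0) := by
      rw [sum_smul, ← sum_add_distrib]
      refine sum_congr rfl fun i _ => ?_
      rw [← smul_add, add_sub_cancel]
    have h6 : ∑ s, D.e s • tens (D.t s) (zet w w' s) = D.N • X0 +
        ∑ s, D.e s • tens (D.t s) (zet w w' s - ev D (D.t s) X0) := by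
      rw [← h4, ← sum_add_distrib]
      refine sum_congr rfl fun s _ => ?_
      rw [← smul_add]
      congr 1
      rw [← tensL_apply, ← tensL_apply, ← tensL_apply, ← map_add, add_sub_cancel]
    have h7 : (u : ZMod ℓ) • X0 = - (∑ i, d i • (lab w w' i - X0) +
        ∑ s, D.e s • tens (D.t s) (zet w w' s - ev D (D.t s) X0)) := by
      rw [hu', add_smul, eq_neg_iff_add_eq_zero, ← h3, h5, h6]
      abel
    have h8 : (u : ZMod ℓ) • X0 ∈ M := by
      rw [h7]
      exact M.neg_mem (M.add_mem (M.sum_mem fun i _ => M.smul_mem _ (hlab i))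
        (M.sum_mem fun s _ => M.smul_mem _ (p3 _ _ (hz s))))
    have h9 := M.smul_mem (↑u⁻¹ : ZMod ℓ) h8
    rwa [smul_smul, Units.inv_mul, one_smul] at h9
  have hlabM : ∀ i, lab w w' i ∈ M := by
    intro i
    have := M.add_mem (hlab i) hX0M
    rwa [sub_add_cancel] at this
  have hzL : ∀ s, zet w w' s ∈ Λ := by
    intro s
    have := Λ.add_mem (hz s) (p4 _ hX0M s)
    rwa [sub_add_cancel] at this
  have hU : U = 0 := by
    funext s
    have h3 := he0 s
    have h4 := p4 _ hX0M s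
    rw [ee, p2 _ (hzL s) _ h4, Hq_of h2 _ (p2 _ h4 _ h4), sub_zero, zero_add] at h3
    exact h3
  refine ⟨?_, hU⟩
  have hφ := dual_mem D hG Λ w w' (fun i s => p4 _ (hlabM i) s) hzL
  -- dual functionals
  obtain ⟨g, hg⟩ := LinearMap.exists_leftInverse_of_injective
    (Fintype.linearCombination (ZMod ℓ) w) (by
      rw [LinearMap.ker_eq_bot]
      exact linearIndependent_iff_injective_fintypeLinearCombination.1 hli)
  have hgw : ∀ a, g (w a) = Pi.single a 1 := by
    intro a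
    have h3 := LinearMap.congr_fun hg (Pi.single a 1)
    rw [LinearMap.comp_apply, Fintype.linearCombination_apply_single, one_smul] at h3
    exact h3
  obtain ⟨φ, hφd⟩ : ∃ φ : κ → V ℓ W ι τ →ₗ[ZMod ℓ] ZMod ℓ,
      φ = fun b => (LinearMap.proj b).comp g := ⟨_, rfl⟩
  have hφw : ∀ a b, φ b (w a) = if b = a then 1 else 0 := by
    intro a b
    rw [hφd]
    show g (w a) b = _
    rw [hgw, Pi.single_apply]
  have key : ∀ (ψ : V ℓ W ι τ →ₗ[ZMod ℓ] ZMod ℓ) (b : κ), ψ (w' b) = - ∑ a, φ b (w' a) * ψ (w a) := by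
    intro ψ b
    have h3 := p2 _ (hφ ψ) _ (hφ (φ b))
    rw [Hb] at h3
    simp only [hφw] at h3
    rw [sum_add_distrib] at h3
    have h4 : ∑ a, ψ (w' a) * (if b = a then (1 : ZMod ℓ) else 0) = ψ (w' b) := by
      simp
    rw [h4] at h3
    rw [eq_neg_iff_add_eq_zero, ← h3, add_comm]
    congr 1
    exact sum_congr rfl fun a _ => mul_comm _ _
  refine ⟨fun a b => φ b (w' a), ?_, ?_⟩
  · intro a b
    have h3 := key (φ b) a
    simp only [hφw] at h3
    show φ b (w' a) = - φ a (w' b)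
    rw [h3]
    simp
  · intro a
    have h3 : ∀ ψ : V ℓ W ι τ →ₗ[ZMod ℓ] ZMod ℓ, ψ (w' a) = ψ (∑ b, φ b (w' a) • w b) := by
      intro ψ
      rw [map_sum, key ψ a, ← sum_neg_distrib]
      refine sum_congr rfl fun b _ => ?_
      rw [map_smul, smul_eq_mul]
      have h4 := key (φ b) a
      simp only [hφw] at h4
      have h5 : φ b (w' a) = - φ a (w' b) := by
        rw [h4]
        simp
      rw [h5]
      ring
    have h4 : w' a - ∑ b, φ b (w' a) • w b = 0 := by
      rw [← Module.forall_dual_apply_eq_zero_iff (ZMod ℓ)]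
      intro ψ
      rw [map_sub, h3 ψ, sub_self]
    exact sub_eq_zero.1 h4

end Pool.Agent.Y164.SZ
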