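import Pool.Agent.Y713.SE.StmT
import Pool.Agent.Y713.SE.Ari
import Pool.Agent.Y164.PS.El0
import Pool.Agent.Y164.PS.Chr

/-!
Definitions and statements of lemmas (project SZ: `(1 - ζ)`-descent on the twists
`y ^ ℓ = D ∏ (x - a i)` over `k(t)`, `ℓ` an odd prime dividing `#k - 1`).
-/

set_option autoImplicit false
set_option linter.all false

open Polynomial IsDedekindDomain

namespace Pool.Agent.Y164.SZ

open Pool.Agent.Y713.SE
open Pool.Agent.Y164.PS (el Fam Pr)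

section sym
variable (ℓ : ℕ) {k : Type} [Field k] [Fintype k]

/-- a generator of the multiplicative group -/
noncomputable def gen (k : Type) [Field k] [Fintype k] : kˣ :=
  (IsCyclic.exists_generator (α := kˣ)).choose

open Classical in
/-- the discrete logarithm modulo `ℓ` (`0` at `0`) -/
noncomputable def ch (c : k) : ZMod ℓ :=
  if h : ∃ n : ℕ, ((gen k : kˣ) : k) ^ n = c then ((h.choose : ℕ) : ZMod ℓ) else 0

/-- the symbol, with values in `ZMod ℓ` -/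
noncomputable def L (f g : k[X]) : ZMod ℓ := ch ℓ (resultant g f g.natDegree f.natDegree)

/-- the symbol as a complex number, `0` if `f` and `g` are not coprime -/
noncomputable def lc [NeZero ℓ] (f g : k[X]) : ℂ := by
  classical
  exact if resultant g f g.natDegree f.natDegree = 0 then 0 else ZMod.stdAddChar (L ℓ f g)

/-- the algebraic properties of the symbol -/
structure SYM0 [NeZero ℓ] (k : Type) [Field k] [Fintype k] [DecidableEq k] : Prop where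
  ch_mul : ∀ c c' : k, c ≠ 0 → c' ≠ 0 → ch ℓ (c * c') = ch ℓ c + ch ℓ c'
  ch_zero_iff : ∀ c : k, c ≠ 0 → (ch ℓ c = 0 ↔ ∃ z : k, c = z ^ ℓ)
  L_comm : ∀ f g : k[X], L ℓ f g = L ℓ g f
  L_nc : ∀ f g : k[X], g ≠ 0 → ¬ IsCoprime f g → L ℓ f g = 0
  L_mul_left : ∀ f f' g : k[X], g ≠ 0 → f ≠ 0 → f' ≠ 0 → IsCoprime f g → IsCoprime f' g →
    L ℓ (f * f') g = L ℓ f g + L ℓ f' g
  L_prod_left : ∀ (α : Type) (s : Finset α) (f : α → k[X]) (g : k[X]), g ≠ 0 →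
    (∀ a ∈ s, f a ≠ 0) → (∀ a ∈ s, IsCoprime (f a) g) → L ℓ (∏ a ∈ s, f a) g = ∑ a ∈ s, L ℓ (f a) g
  L_C : ∀ (c : k) (g : k[X]), c ≠ 0 → L ℓ (C c) g = (g.natDegree : ZMod ℓ) * ch ℓ c
  L_zero_iff : ∀ P f : k[X], P.Monic → Irreducible P → ¬ P ∣ f →
    (L ℓ f P = 0 ↔ ∃ z : k[X], P ∣ z ^ ℓ - f)
  L_congr : ∀ P f g : k[X], P.Monic → Irreducible P → P ∣ f - g → L ℓ f P = L ℓ g P
  L_neg_left : ∀ P f : k[X], P.Monic → Irreducible P → L ℓ (-f) P = L ℓ f P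
  lc_cop : ∀ f g : k[X], g ≠ 0 → IsCoprime f g → lc ℓ f g = ZMod.stdAddChar (L ℓ f g)
  lc_nc : ∀ f g : k[X], g ≠ 0 → ¬ IsCoprime f g → lc ℓ f g = 0

/-- the properties of the symbol -/
structure SYM [NeZero ℓ] (k : Type) [Field k] [Fintype k] [DecidableEq k] : Prop
    extends SYM0 ℓ k where
  char_sum : ∀ M : k[X], M.Monic → 1 ≤ M.natDegree →
    (∀ (c : k) (h : k[X]), M ≠ C c * h ^ ℓ) → ∀ d : ℕ, 1 ≤ d →
    (d : ℝ) * ‖∑ P ∈ Pr k d, lc ℓ M P‖ ≤ (5 * M.natDegree + 2) * (Real.sqrt (Fintype.card k)) ^ d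

end sym

/-- SZ-SYM: the algebraic properties of the symbol -/
def S_SYM : Prop := ∀ (ℓ : ℕ) [Fact ℓ.Prime] (k : Type) [Field k] [Fintype k] [DecidableEq k],
  ℓ ≠ 2 → ℓ ∣ Fintype.card k - 1 → SYM0 ℓ k

/-- SZ-CHR: character sums over primes -/
def S_CHR : Prop := ∀ (ℓ : ℕ) [Fact ℓ.Prime] (k : Type) [Field k] [Fintype k] [DecidableEq k],
  ℓ ≠ 2 → ℓ ∣ Fintype.card k - 1 → ringChar k ≠ 2 → SYM0 ℓ k →
  ∀ M : k[X], M.Monic → 1 ≤ M.natDegree →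
    (∀ (c : k) (h : k[X]), M ≠ C c * h ^ ℓ) → ∀ d : ℕ, 1 ≤ d →
    (d : ℝ) * ‖∑ P ∈ Pr k d, lc ℓ M P‖ ≤ (5 * M.natDegree + 2) * (Real.sqrt (Fintype.card k)) ^ d

section rep
variable (ℓ : ℕ) {k K : Type} [Field k] [Fintype k] [DecidableEq k] [Field K] [Algebra k[X] K]
variable {κ : Type} [Fintype κ]

/-- `d` is a constant with symbol `c` times the product of the `R x ^ u x`, modulo `ℓ`-th powers -/
def IsRep (R : κ → k[X]) (d : K) (c : ZMod ℓ) (u : κ → ZMod ℓ) : Prop :=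
  ∃ (r : k) (n : κ → ℕ) (y : K), r ≠ 0 ∧ y ≠ 0 ∧ ch ℓ r = c ∧ (∀ x, (n x : ZMod ℓ) = u x) ∧
    d = algebraMap k[X] K (el R r n) * y ^ ℓ

end rep

/-- the Kummer class of a torsion point -/
noncomputable def Tm {ℓ n : ℕ} {K : Type} [Field K] (D : Dat ℓ n K) (m : Fin n → ℕ) (i : Fin n) : K :=
  ∏ k, (if k = i then (D.δ * ∏ j ∈ Finset.univ.erase i, (D.e i - D.e j))⁻¹ else D.e i - D.e k) ^ m k

/-- SZ-REP: representations modulo `ℓ`-th powers -/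
def S_REP : Prop :=
  ∀ (ℓ : ℕ) [Fact ℓ.Prime] (k K : Type) [Field k] [Fintype k] [DecidableEq k] [Field K]
    [Algebra k[X] K] [IsFractionRing k[X] K] (κ : Type) [Fintype κ] (R : κ → k[X]) (hR : Fam R)
    (_ : SYM0 ℓ k),
  -- valuation divisible by `ℓ`
  (∀ (d : K) (c : ZMod ℓ) (u : κ → ZMod ℓ), IsRep ℓ R d c u → ∀ x : κ,
    Pw ℓ ((hp (R x) (hR.irr x)).valuation K d) → u x = 0) ∧
  -- local powers
  (∀ (d : K) (c : ZMod ℓ) (u : κ → ZMod ℓ), IsRep ℓ R d c u → ∀ x : κ,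
    (∃ z : (hp (R x) (hR.irr x)).adicCompletion K, algebraMap K _ d = z ^ ℓ) →
      u x = 0 ∧ ∑ y, u y * L ℓ (R y) (R x) + ((R x).natDegree : ZMod ℓ) * c = 0) ∧
  -- global powers
  (∀ d : K, IsRep ℓ R d 0 0 → ∃ z : K, d = z ^ ℓ) ∧
  -- existence
  (∀ d : K, d ≠ 0 → (∀ v : HeightOneSpectrum k[X], (∀ x, R x ∉ v.asIdeal) →
    Pw ℓ (v.valuation K d)) → ∃ c u, IsRep ℓ R d c u)

/-- SZ-ADJ: the Kummer data of an adjusted cocycle -/
def S_ADJ : Prop :=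
  ∀ (ℓ n : ℕ) (K : Type) [Field K] (D : Dat ℓ n K) (L : Type) [Field L] [Algebra K L]
    [IsGalois K L], ℓ ≠ 2 →
    ∀ (m : Fin n → ℕ) (χ χ' : (L ≃ₐ[K] L) → Fin n → ℕ) (kd : D.KD χ) (kd' : D.KD χ')
      (Q : ClassGroup (D.base L).A),
      cl ((D.base L).PT m) * (D.base L).sC Q = Q →
      (∀ σ, cl ((D.base L).PT (χ' σ)) = cl ((D.base L).PT (χ σ)) / (D.mC (Dat.au σ) Q / Q)) →
      ∀ i j, ∃ x : K, x ≠ 0 ∧ kd'.d i j * Tm D m j = x ^ ℓ * (kd.d i j * Tm D m i)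

/-- SZ-RK: the rational points -/
def S_RK : Prop :=
  ∀ (ℓ n : ℕ) (K : Type) [Field K] (D : Dat ℓ n K) (E : Type) [Field E] [Algebra K E]
    [IsGalois K E] [IsSepClosed E] (p : ℕ) [ExpChar E p]
    (LT : ((E ≃ₐ[K] E) → ClassGroup (D.base E).A) → Prop), LT (fun _ => 1) →
    (∀ c Q, LT c → LT (fun σ => c σ / (D.mC (Dat.au σ) Q / Q))) →
    (∀ χ : (E ≃ₐ[K] E) → Fin n → ℕ,
      D.Coc (fun σ => cl ((D.base E).PT (χ σ))) →
      LT (fun σ => cl ((D.base E).PT (χ σ))) →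
      ∃ (m : Fin n → ℕ) (Q : ClassGroup (D.base E).A),
        cl ((D.base E).PT m) * (D.base E).sC Q = Q ∧
        ∀ σ, cl ((D.base E).PT (χ σ)) = D.mC (Dat.au σ) Q / Q) →
    ∀ x : ClassGroup (D.base K).A, ∃ T y : ClassGroup (D.base K).A, T ^ ℓ = 1 ∧ x = T * y ^ ℓ

/-- the classes attached to the indices -/
noncomputable def mm {ℓ n : ℕ} {K E : Type} [Field K] [Field E] [Algebra K E] (D : Dat ℓ n K)
    {χ : (E ≃ₐ[K] E) → Fin n → ℕ} (c : ℕ) (kd : D.KD χ) (i0 i : Fin n) : K :=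
  kd.d i i0 * (∏ j, kd.d j i0) ^ c

/-- SZ-KDA: relations between the Kummer data -/
def S_KDA : Prop :=
  ∀ (ℓ n : ℕ) (K E : Type) [Field K] [Field E] [Algebra K E] [IsGalois K E] (D : Dat ℓ n K)
    (χ : (E ≃ₐ[K] E) → Fin n → ℕ) (kd : D.KD χ),
    (∀ i j, kd.d i j ≠ 0) ∧
    (∀ i j l, ∃ z : K, z ≠ 0 ∧ kd.d i j * kd.d j l = z ^ ℓ * kd.d i l) ∧
    ∀ (c : ℕ) (i0 : Fin n), (∀ i, mm D c kd i0 i ≠ 0) ∧
      ∀ i j, ∃ z : K, z ≠ 0 ∧ mm D c kd i0 i = z ^ ℓ * (kd.d i j * mm D c kd i0 j)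

/-! Combinatorial data of a graph on the indices. -/

/-- the indicator of the nodes joining two indices -/
def mu (ℓ : ℕ) {n : ℕ} {τ : Type} (p q : τ → Fin n) (i j : Fin n) (s : τ) : ZMod ℓ :=
  if (p s = i ∧ q s = j) ∨ (p s = j ∧ q s = i) then 1 else 0

/-- the vector `e i - e j` -/
def tf (ℓ : ℕ) {n : ℕ} (i j : Fin n) : Fin n → ZMod ℓ :=
  fun l => (if i = l then 1 else 0) - (if j = l then 1 else 0)

/-- combinatorial data -/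
structure Comb (ℓ n : ℕ) (τ : Type) [Fintype τ] where
  p : τ → Fin n
  q : τ → Fin n
  hpq : ∀ s, p s ≠ q s
  G : τ → τ → ZMod ℓ
  e : τ → ZMod ℓ
  c : Fin n → Fin n → ZMod ℓ
  lam : τ → Fin n → ZMod ℓ
  N : ZMod ℓ
  symG : ∀ s s', G s s' = G s' s
  symc : ∀ i j, c i j = c j i
  hN : ∀ i j, i ≠ j → ∑ s, mu ℓ p q i j s * e s = N
  hp : ∀ s l, l ≠ p s → l ≠ q s → ∑ s', mu ℓ p q (p s) l s' * G s s' + e s * c (p s) l = lam s l
  hq : ∀ s l, l ≠ p s → l ≠ q s → ∑ s', mu ℓ p q (q s) l s' * G s s' + e s * c (q s) l = lam s l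

namespace Comb
variable {ℓ n : ℕ} {τ : Type} [Fintype τ] (C : Comb ℓ n τ)

/-- the twisting function -/
def ksf (y : Fin n → ZMod ℓ) (i : Fin n) : ZMod ℓ := ∑ j, (y j - y i) * C.c i j

/-- the constants -/
def gg (s : τ) : ZMod ℓ := ∑ l, (if l = C.p s ∨ l = C.q s then 0 else C.lam s l) +
  2 * (∑ s', mu ℓ C.p C.q (C.p s) (C.q s) s' * C.G s s' + C.e s * C.c (C.p s) (C.q s))

end Comb

/-- SZ-COMB: identities -/
def S_COMB : Prop :=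
  ∀ (ℓ n : ℕ) (τ : Type) [Fintype τ] (C : Comb ℓ n τ),
    (∀ (y : Fin n → ZMod ℓ) (i : Fin n) (s : τ), ∑ j, mu ℓ C.p C.q i j s * (y j - y i) =
      - (tf ℓ (C.p s) (C.q s) i * (y (C.p s) - y (C.q s)))) ∧
    (∀ y, ∑ i, C.ksf y i = 0) ∧
    (∀ x y : Fin n → ZMod ℓ, ∑ i, C.ksf x i * y i = ∑ i, C.ksf y i * x i) ∧
    (∀ (s : τ) (y : Fin n → ZMod ℓ),
      ∑ s', C.G s s' * ((y (C.p s') - y (C.q s')) *
        (tf ℓ (C.p s') (C.q s') (C.p s) - tf ℓ (C.p s') (C.q s') (C.q s))) -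
        C.e s * (C.ksf y (C.p s) - C.ksf y (C.q s)) = C.gg s * (y (C.p s) - y (C.q s))) ∧
    (∀ (y : Fin n → ZMod ℓ), ∑ i, y i = 0 → ∀ i : Fin n,
      ∑ s, C.e s * (y (C.p s) - y (C.q s)) * tf ℓ (C.p s) (C.q s) i = (n : ZMod ℓ) * C.N * y i)

end Pool.Agent.Y164.SZ
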