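import Pool.Agent.Y164.SZ.Rp

/-!
Statements of the local computations (project SZ).
-/

set_option autoImplicit false
set_option linter.all false

open Polynomial IsDedekindDomain
open scoped Classical

namespace Pool.Agent.Y164.SZ

open Finset
open Pool.Agent.Y713.SE (hp Pw)
open Pool.Agent.Y713.SE.Dat (au)
open Pool.Agent.Y164.PS (Fam)

/-- the exponents of the components -/
def uu {ℓ n : ℕ} {k : Type} [Field k] [Fintype k] [DecidableEq k] {a : Fin n → k[X]} {ι : Type}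
    (p q : Tau a → Fin n) (w : V ℓ (SW ℓ n) ι (Tau a)) (i : Fin n) :
    ι ⊕ Tau a → ZMod ℓ :=
  Sum.elim (fun y => (w.1 y).1 i) (fun s => w.2 s * tf ℓ (p s) (q s) i)

/-- SZ-E1: the equations at the primes of the twist -/
def S_E1 : Prop :=
  ∀ (ℓ : ℕ) [Fact ℓ.Prime] (k K : Type) [Field k] [Fintype k] [DecidableEq k] [Field K]
    [Algebra k[X] K] [IsFractionRing k[X] K] (n : ℕ) (a : Fin n → k[X]) (N : ℕ) (H : Geo ℓ a N)
    (ι : Type) [Fintype ι] (T : ι → k[X]) (hR : Fam (RR a T)) (D0 : Y713.SE.Dat ℓ n K)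
    (_ : D0.δ = algebraMap k[X] K (∏ i, T i)) (_ : ∀ i, D0.e i = algebraMap k[X] K (a i))
    (σ : Tau a → ZMod ℓ) (w : V ℓ (SW ℓ n) ι (Tau a)) (x0 : SW ℓ n) (mi : Fin n → K)
    (_ : ∀ i, IsRep ℓ (RR a T) (mi i) (x0.1 i) (uu H.p H.q w i))
    (x : ι) (mv : Fin n → ℕ)
    (_ : ∀ i j, ∃ z : (hp (RR a T (Sum.inl x)) (hR.irr (Sum.inl x))).adicCompletion K,
      algebraMap K _ (mi i * Tm D0 mv i) = z ^ ℓ * algebraMap K _ (mi j * Tm D0 mv j)),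
    E1 (H.dat σ) (AT ℓ T) (BT ℓ (QQ a) T) (fun i => ((T i).natDegree : ZMod ℓ)) w x0 x = 0

/-- SZ-E2: the equations at the nodes -/
def S_E2 : Prop :=
  ∀ (ℓ : ℕ) [Fact ℓ.Prime] (k K : Type) [Field k] [Fintype k] [DecidableEq k] [Field K]
    [Algebra k[X] K] [IsFractionRing k[X] K] (n : ℕ) (a : Fin n → k[X]) (N : ℕ) (H : Geo ℓ a N)
    (ι : Type) [Fintype ι] (T : ι → k[X]) (hR : Fam (RR a T)) (D0 : Y713.SE.Dat ℓ n K)
    (_ : D0.δ = algebraMap k[X] K (∏ i, T i)) (_ : ∀ i, D0.e i = algebraMap k[X] K (a i))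
    (σ : Tau a → ZMod ℓ) (_ : cl (H.dat σ) (QQ a) T)
    (w : V ℓ (SW ℓ n) ι (Tau a)) (x0 : SW ℓ n) (mi : Fin n → K)
    (_ : ∀ i, IsRep ℓ (RR a T) (mi i) (x0.1 i) (uu H.p H.q w i))
    (s : Tau a) (r : ℕ) (_ : w.2 s = - (r : ZMod ℓ))
    (_ : ∃ z : (hp (RR a T (Sum.inr s)) (hR.irr (Sum.inr s))).adicCompletion K,
      algebraMap K _ (mi (H.p s) * Tm D0 (fun l => if l = H.q s then r else 0) (H.p s)) =
        z ^ ℓ * algebraMap K _ (mi (H.q s) * Tm D0 (fun l => if l = H.q s then r else 0) (H.q s))),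
    E2 (H.dat σ) (BT ℓ (QQ a) T) w x0 s = 0

/-- SZ-CRIT: the criterion -/
def S_CRIT : Prop :=
  ∀ (ℓ : ℕ) [Fact ℓ.Prime] (k K : Type) [Field k] [Fintype k] [DecidableEq k] [Field K]
    [Algebra k[X] K] [IsFractionRing k[X] K] (n : ℕ) (a : Fin n → k[X]) (N : ℕ) (H : Geo ℓ a N)
    (ι : Type) [Fintype ι] (T : ι → k[X]) (_ : Fam (RR a T)) (D0 : Y713.SE.Dat ℓ n K)
    (_ : D0.δ = algebraMap k[X] K (∏ i, T i)) (_ : ∀ i, D0.e i = algebraMap k[X] K (a i))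
    (σ : Tau a → ZMod ℓ) (_ : cl (H.dat σ) (QQ a) T)
    (_ : IsUnit (∑ i, ((T i).natDegree : ZMod ℓ) + (n : ZMod ℓ) * (N : ZMod ℓ)))
    (_ : Triv (H.dat σ) (AT ℓ T) (BT ℓ (QQ a) T) (fun i => ((T i).natDegree : ZMod ℓ)))
    (E : Type) [Field E] [Algebra K E] [IsGalois K E] [IsSepClosed E] (p : ℕ) [ExpChar E p]
    (Ω : HeightOneSpectrum k[X] → Type) [∀ v, Field (Ω v)]
    [∀ v, Algebra (v.adicCompletion K) (Ω v)] [∀ v, Algebra K (Ω v)]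
    [∀ v, IsScalarTower K (v.adicCompletion K) (Ω v)] [∀ v, IsSepClosed (Ω v)]
    [∀ v, IsGalois (v.adicCompletion K) (Ω v)] [∀ v, ExpChar (Ω v) p]
    (χ : (E ≃ₐ[K] E) → Fin n → ℕ) (_ : D0.Coc (fun τ => Y713.SE.cl ((D0.base E).PT (χ τ))))
    (_ : ∀ v, D0.Triv (v.adicCompletion K) (Ω v) (fun τ => Y713.SE.cl ((D0.base E).PT (χ τ)))),
    ∃ (m : Fin n → ℕ) (Q : ClassGroup (D0.base E).A),
      Y713.SE.cl ((D0.base E).PT m) * (D0.base E).sC Q = Q ∧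
      ∀ τ, Y713.SE.cl ((D0.base E).PT (χ τ)) = D0.mC (au τ) Q / Q

end Pool.Agent.Y164.SZ
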